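import Pool.Agent.H33CP.Planar

/-! Alternating products of two reflections; many elements and many neighbours. -/

namespace Pool.Agent.H33CP

open Real

noncomputable section

theorem uu_neg {N : ℕ} (hN : 1 ≤ N) {a b : ℝ} (ha : a < 0) (hb : b < 0) {n : ℕ} (hn : n < 2 * N) :
    uu (π / (2 * N)) a b n < 0 := by
  have h := uu_pos hN (neg_pos.2 ha) (neg_pos.2 hb) hn
  have e : uu (π / (2 * N)) (-a) (-b) n = - uu (π / (2 * N)) a b n := by
    unfold uu; ring
  rw [e] at h
  linarith

theorem sin_ne {N : ℕ} (hN : 1 ≤ N) : sin (π / (2 * N)) ≠ 0 := by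
  have hN' : (0:ℝ) < 2 * N := by positivity
  have hθ : 0 < π / (2 * N) := by positivity
  have hθ1 : π / (2 * N) < π := by
    rw [div_lt_iff₀ hN']
    have : (1:ℝ) ≤ N := by exact_mod_cast hN
    nlinarith [pi_pos]
  exact (sin_pos_of_pos_of_lt_pi hθ hθ1).ne'

namespace Datum

variable (D : Datum)

/-- alternating products of the two reflections at `w k` -/
def aa (k : ℤ) : ℕ → (E3 ≃ₗ[ℝ] E3)
  | 0 => 1
  | n + 1 => (if Even n then D.sys.s (k - 2) else D.sys.s k) * aa k n

theorem aa_succ (k : ℤ) (n : ℕ) : D.aa k (n + 1) =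
    (if Even n then D.sys.s (k - 2) else D.sys.s k) * D.aa k n := rfl

theorem aa_mem (k : ℤ) (n : ℕ) : D.aa k n ∈ D.K k := by
  induction n with
  | zero => exact (D.K k).one_mem
  | succ n ih =>
    rw [aa_succ]
    apply (D.K k).mul_mem _ ih
    split_ifs
    · exact Subgroup.subset_closure (Or.inl rfl)
    · exact Subgroup.subset_closure (Or.inr rfl)

theorem aa_apply (k : ℤ) (x : E3) (n : ℕ) : D.aa k n x =
    xs x (EE D.t D.w (k - 2)) (EE D.t D.w k) (uu (π / (2 * D.N k)) (B x (EE D.t D.w (k - 2)))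
      (B x (EE D.t D.w k))) n := by
  induction n with
  | zero => simp [aa, xs]
  | succ n ih =>
    have hd := D.strip.dihedral k
    rw [D.hA k] at hd
    rw [xs_succ_refl (sin_ne (D.hN k)) (D.strip.EE_unit _) (D.strip.EE_unit _) hd rfl rfl, ← ih, aa_succ]
    unfold alt
    by_cases h : Even n
    · simp only [h, if_true]; rfl
    · simp only [h, if_false]; rfl

theorem aa_strict (k : ℤ) {x : E3} (h1 : B x (EE D.t D.w (k - 2)) < 0)
    (h2 : B x (EE D.t D.w k) < 0) {n : ℕ} (hn : n < 2 * D.N k) :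
    B D.sys.o (D.aa k n x) < B D.sys.o (D.aa k (n + 1) x) := by
  rw [D.aa_apply, D.aa_apply, xs_succ, B_add_right, B_smul_right]
  have h3 := uu_neg (D.hN k) h1 h2 hn
  have h4 : B D.sys.o (alt (EE D.t D.w (k - 2)) (EE D.t D.w k) n) < 0 := by
    unfold alt
    rw [D.sys_o]
    split_ifs
    · linarith [D.strip.o_le (k - 2)]
    · linarith [D.strip.o_le k]
  have := mul_pos_of_neg_of_neg h3 h4
  linarith

theorem aa_strict' (k : ℤ) {x : E3} (h1 : B x (EE D.t D.w (k - 2)) < 0)
    (h2 : B x (EE D.t D.w k) < 0) {m n : ℕ} (hmn : m < n) (hn : n ≤ 2 * D.N k) :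
    B D.sys.o (D.aa k m x) < B D.sys.o (D.aa k n x) := by
  induction n with
  | zero => omega
  | succ n ih =>
    have h3 := D.aa_strict k h1 h2 (n := n) (by omega)
    rcases Nat.lt_succ_iff_lt_or_eq.1 hmn with h | h
    · exact (ih h (by omega)).trans h3
    · subst h; exact h3

theorem aa_inj (k : ℤ) {x : E3} (h1 : B x (EE D.t D.w (k - 2)) < 0)
    (h2 : B x (EE D.t D.w k) < 0) {m n : ℕ} (hm : m ≤ 2 * D.N k) (hn : n ≤ 2 * D.N k)
    (e : D.aa k m x = D.aa k n x) : m = n := by
  rcases lt_trichotomy m n with h | h | h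
  · have := D.aa_strict' k h1 h2 h hn
    rw [e] at this
    exact absurd this (lt_irrefl _)
  · exact h
  · have := D.aa_strict' k h1 h2 h hm
    rw [e] at this
    exact absurd this (lt_irrefl _)

/-- orientation preserving maps -/
def detpos : Subgroup (E3 ≃ₗ[ℝ] E3) where
  carrier := {g | ∀ x y z, det3 (g x) (g y) (g z) = det3 x y z}
  mul_mem' := by
    intro a b ha hb x y z
    simp only [LinearEquiv.mul_apply]
    rw [ha, hb]
  one_mem' := by intro x y z; rfl
  inv_mem' := by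
    intro a ha x y z
    have := ha (a⁻¹ x) (a⁻¹ y) (a⁻¹ z)
    rw [apply_inv_apply, apply_inv_apply, apply_inv_apply] at this
    exact this.symm

/-- orientation preserving subgroup -/
def Gp : Subgroup (E3 ≃ₗ[ℝ] E3) := D.G ⊓ detpos

theorem Gp_le {g : E3 ≃ₗ[ℝ] E3} (h : g ∈ D.Gp) : g ∈ D.G := h.1

theorem aa_even (k : ℤ) (m : ℕ) : D.aa k (2 * m) ∈ D.Gp := by
  refine ⟨D.K_le k (D.aa_mem k _), ?_⟩
  induction m with
  | zero => intro x y z; rfl
  | succ m ih =>
    intro x y z
    have e : D.aa k (2 * (m + 1)) = D.sys.s k * (D.sys.s (k - 2) * D.aa k (2 * m)) := by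
      have h1 : ¬ Even (2 * m + 1) := by
        rw [Nat.not_even_iff_odd]; exact ⟨m, rfl⟩
      have h2 : Even (2 * m) := ⟨m, by ring⟩
      rw [show 2 * (m + 1) = 2 * m + 1 + 1 by ring]
      rw [aa_succ, aa_succ]
      simp only [h1, h2, if_true, if_false]
    rw [e]
    simp only [LinearEquiv.mul_apply]
    have e2 : ∀ i x y z, det3 (D.sys.s i x) (D.sys.s i y) (D.sys.s i z) = - det3 x y z := by
      intro i x y z; exact det3_refl (D.strip.EE_unit i) x y z
    rw [e2, e2, neg_neg]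
    exact ih x y z

/-- stabilizer of `w k` in the orientation preserving group -/
def St (k : ℤ) : Type := {g : D.Gp // g.1 (D.w k) = D.w k}

instance St_finite (k : ℤ) : Finite (D.St k) := by
  -- determined by the images of `w (k+1)`, `w (k+2)`
  have f1 := D.finite_type (D.strip.cone k) (k + 1) 3
  have f2 := D.finite_type (D.strip.cone k) (k + 2) 3
  have hb : ∀ j, Near k j → ∀ g ∈ D.G, g (D.w k) = D.w k → B (g (D.w j)) (D.w k) ≤ 3 := by
    intro j hj g hg h
    conv_lhs => rw [← h]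
    rw [D.sys.W_B hg, B_comm, D.near_B hj]
    have := D.t1 k; have := D.t1 j; have := D.t2 k; have := D.t2 j
    nlinarith
  have n1 : Near k (k + 1) := by unfold Near; omega
  have n2 : Near k (k + 2) := by unfold Near; omega
  let φ : D.St k → {u : E3 | (∃ g ∈ D.G, u = g (D.w (k + 1))) ∧ B u (D.w k) ≤ 3} ×
      {u : E3 | (∃ g ∈ D.G, u = g (D.w (k + 2))) ∧ B u (D.w k) ≤ 3} := fun g =>
    (⟨g.1.1 (D.w (k + 1)), ⟨g.1.1, D.Gp_le g.1.2, rfl⟩, hb _ n1 _ (D.Gp_le g.1.2) g.2⟩,
      ⟨g.1.1 (D.w (k + 2)), ⟨g.1.1, D.Gp_le g.1.2, rfl⟩, hb _ n2 _ (D.Gp_le g.1.2) g.2⟩)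
  have := f1.to_subtype
  have := f2.to_subtype
  apply Finite.of_injective φ
  intro g h e
  have e1 : g.1.1 (D.w (k + 1)) = h.1.1 (D.w (k + 1)) := by
    have := congrArg Prod.fst e
    exact congrArg Subtype.val this
  have e2 : g.1.1 (D.w (k + 2)) = h.1.1 (D.w (k + 2)) := by
    have := congrArg Prod.snd e
    exact congrArg Subtype.val this
  apply Subtype.ext
  apply Subtype.ext
  apply LinearEquiv.ext
  intro x
  rw [expand (D.det_ne k) x]
  simp only [map_add, map_smul]
  rw [e1, e2, g.2, h.2]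

theorem St_card (k : ℤ) : D.N k ≤ Nat.card (D.St k) := by
  have hoi : ∀ i, B D.sys.o (EE D.t D.w i) < 0 := fun i => by
    rw [D.sys_o]; linarith [D.strip.o_le i]
  let φ : Fin (D.N k) → D.St k := fun m => ⟨⟨D.aa k (2 * m), D.aa_even k m⟩, D.K_fix k (D.aa_mem k _)⟩
  have hφ : Function.Injective φ := by
    intro m n e
    have e1 : D.aa k (2 * m) = D.aa k (2 * n) := congrArg (fun g => g.1.1) e
    have e2 := D.aa_inj k (hoi _) (hoi _) (m := 2 * m) (n := 2 * n) (by omega) (by omega)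
      (congrArg (fun g => g D.sys.o) e1)
    apply Fin.ext; omega
  have := Nat.card_le_card_of_injective φ hφ
  simpa using this

end Datum

end

end Pool.Agent.H33CP
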