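import Pool.Agent.H33CP.Tri

/-! The triangulation as a structure. -/

namespace Pool.Agent.H33CP

open Real

/-- In a finite set, the successor relation of an injective map can be reversed. -/
theorem reverse_of_injective {V : Type} {N : Set V} (hN : N.Finite) (L : V → V → Prop)
    (h1 : ∀ x ∈ N, ∃ y ∈ N, L x y) (hu : ∀ x y y', L x y → L x y' → y = y')
    (hi : ∀ x x' y, L x y → L x' y → x = x') {x y : V} (hx : x ∈ N) (hxy : L x y) :
    Relation.ReflTransGen L y x := by
  classical
  choose! σ hσ1 hσ2 using h1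
  have : Finite N := hN
  let τ : N → N := fun x => ⟨σ x, hσ1 x x.2⟩
  have hτ : Function.Injective τ := by
    intro x x' h
    apply Subtype.ext
    have h2 : σ x = σ x' := congrArg Subtype.val h
    have a1 := hσ2 x x.2
    have a2 := hσ2 x' x'.2
    rw [h2] at a1
    exact hi _ _ _ a1 a2
  obtain ⟨n, hn, hp⟩ := hτ.mem_periodicPts ⟨x, hx⟩
  have hy : (τ ⟨x, hx⟩ : N).1 = y := hu x _ _ (hσ2 x hx) hxy
  have step : ∀ (m : ℕ) (z : N), Relation.ReflTransGen L z.1 (τ^[m] z).1 := by
    intro m
    induction m with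
    | zero => intro z; exact Relation.ReflTransGen.refl
    | succ m ih =>
      intro z
      rw [Function.iterate_succ_apply']
      exact (ih z).tail (hσ2 _ (τ^[m] z).2)
  obtain ⟨m, rfl⟩ : ∃ m, n = m + 1 := ⟨n - 1, by omega⟩
  have h3 := step m (τ ⟨x, hx⟩)
  rw [← Function.iterate_succ_apply] at h3
  have h4 : τ^[m + 1] ⟨x, hx⟩ = ⟨x, hx⟩ := hp
  rw [h4, hy] at h3
  exact h3

noncomputable section

namespace Datum

variable (D : Datum)

theorem near_face {g : E3 ≃ₗ[ℝ] E3} (hg : g ∈ D.G) {i j l : ℤ} (ij : Near i j) (jl : Near j l)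
    (il : Near i l) : D.Face (g (D.w i)) (g (D.w j)) (g (D.w l)) ∨
      D.Face (g (D.w i)) (g (D.w l)) (g (D.w j)) := by
  have h1 := tri_det_ne (D.near_tri ij jl il) (D.t1 i) (D.t1 j) (D.t1 l)
  have h2 : det3 (g (D.w i)) (g (D.w j)) (g (D.w l)) ≠ 0 := by
    rcases D.sys.W_det hg with h | h
    · rw [h]; exact h1
    · rw [h]; exact neg_ne_zero.2 h1
  rcases lt_or_gt_of_ne h2 with h | h
  · right
    exact ⟨g, i, l, j, hg, il, Near.symm jl, ij, rfl, rfl, rfl, by rw [det3_swap']; linarith⟩
  · left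
    exact ⟨g, i, j, l, hg, ij, jl, il, rfl, rfl, rfl, h⟩

/-- symmetrized link relation -/
def LS (a : D.Vt) (x y : D.Vt) : Prop := D.Face a.1 x.1 y.1 ∨ D.Face a.1 y.1 x.1

theorem LS_symm (a : D.Vt) {x y : D.Vt} (h : Relation.ReflTransGen (D.LS a) x y) :
    Relation.ReflTransGen (D.LS a) y x := by
  induction h with
  | refl => exact Relation.ReflTransGen.refl
  | tail h1 h2 ih => exact Relation.ReflTransGen.head (Or.symm h2) ih

theorem link_chamber {a : D.Vt} {k : ℤ} {g : E3 ≃ₗ[ℝ] E3} (hg : g ∈ D.G) (ha : g (D.w k) = a.1)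
    {j : ℤ} (hj : Near k j) :
    Relation.ReflTransGen (D.LS a) (D.vtx g hg (k + 1)) (D.vtx g hg j) := by
  have step : ∀ {i j : ℤ}, Near k i → Near k j → Near i j →
      D.LS a (D.vtx g hg i) (D.vtx g hg j) := by
    intro i j hi hj hij
    unfold LS vtx
    simp only
    rw [← ha]
    exact D.near_face hg hi hij hj
  have n1 : Near k (k + 1) := by unfold Near; omega
  have n2 : Near k (k + 2) := by unfold Near; omega
  have n3 : Near k (k - 1) := by unfold Near; omega
  have n4 : Near k (k - 2) := by unfold Near; omega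
  have hc : j = k + 1 ∨ j = k + 2 ∨ j = k - 1 ∨ j = k - 2 := by
    obtain ⟨h1, h2, h3⟩ := hj; omega
  rcases hc with rfl | rfl | rfl | rfl
  · exact Relation.ReflTransGen.refl
  · exact Relation.ReflTransGen.single (step n1 n2 (by unfold Near; omega))
  · exact Relation.ReflTransGen.single (step n1 n3 (by unfold Near; omega))
  · exact (Relation.ReflTransGen.single (step n1 n3 (by unfold Near; omega))).tail
      (step n3 n4 (by unfold Near; omega))

theorem link_K {a : D.Vt} {k : ℤ} {u : E3 ≃ₗ[ℝ] E3} (hu : u ∈ D.K k) :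
    ∀ g (hg : g ∈ D.G), g (D.w k) = a.1 → ∀ hgu : g * u ∈ D.G,
    Relation.ReflTransGen (D.LS a) (D.vtx g hg (k + 1)) (D.vtx (g * u) hgu (k + 1)) := by
  unfold K at hu
  induction hu using Subgroup.closure_induction with
  | mem u hu =>
    intro g hg ha hgu
    -- the common neighbour of the two chambers
    have key : ∀ j, Near k j → u (D.w j) = D.w j → u (D.w k) = D.w k →
        Relation.ReflTransGen (D.LS a) (D.vtx g hg (k + 1)) (D.vtx (g * u) hgu (k + 1)) := by
      intro j hj h1 h2
      have e1 := D.link_chamber hg ha hj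
      have e2 := D.link_chamber (a := a) hgu (by rw [LinearEquiv.mul_apply, h2]; exact ha) hj
      have e3 : D.vtx g hg j = D.vtx (g * u) hgu j := by
        apply Subtype.ext
        change g (D.w j) = (g * u) (D.w j)
        rw [LinearEquiv.mul_apply, h1]
      rw [← e3] at e2
      exact e1.trans (D.LS_symm a e2)
    rcases hu with rfl | rfl
    · have f1 := D.s_fix_2 (k - 2)
      have f2 := D.s_fix_0 (k - 2)
      rw [show k - 2 + 2 = k by ring] at f1
      exact key (k - 2) (by unfold Near; omega) f2 f1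
    · exact key (k + 2) (by unfold Near; omega) (D.s_fix_2 k) (D.s_fix_0 k)
  | one =>
    intro g hg ha hgu
    have : D.vtx g hg (k + 1) = D.vtx (g * 1) hgu (k + 1) := by
      apply Subtype.ext; rfl
    rw [← this]
  | mul u v hu hv ihu ihv =>
    intro g hg ha hgu
    have hu' : u ∈ D.K k := hu
    have h1 : g * u ∈ D.G := D.G.mul_mem hg (D.K_le k hu')
    have e1 := ihu g hg ha h1
    have e2 := ihv (g * u) h1 (by rw [LinearEquiv.mul_apply, D.K_fix k hu']; exact ha)
      (by rw [mul_assoc]; exact hgu)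
    have e3 : D.vtx (g * u * v) (by rw [mul_assoc]; exact hgu) (k + 1) =
      D.vtx (g * (u * v)) hgu (k + 1) := by
      apply Subtype.ext; rfl
    rw [e3] at e2
    exact e1.trans e2
  | inv u hu ih =>
    intro g hg ha hgu
    have hu' : u ∈ D.K k := hu
    have e1 := ih (g * u⁻¹) hgu (by
      rw [LinearEquiv.mul_apply, D.K_fix k ((D.K k).inv_mem hu')]; exact ha)
      (by rw [inv_mul_cancel_right]; exact hg)
    have e3 : D.vtx (g * u⁻¹ * u) (by rw [inv_mul_cancel_right]; exact hg) (k + 1) =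
      D.vtx g hg (k + 1) := by
      apply Subtype.ext
      change (g * u⁻¹ * u) _ = g _
      rw [inv_mul_cancel_right]
    rw [e3] at e1
    exact D.LS_symm a e1

theorem link_conn {a b c d e : D.Vt} (hb : D.Face a.1 b.1 d.1) (hc : D.Face a.1 c.1 e.1) :
    Relation.ReflTransGen (D.LS a) b c := by
  obtain ⟨g, i, j, l, hg, ij, jl, il, ea, eb, _, _⟩ := hb
  obtain ⟨g', i', j', l', hg', ij', jl', il', ea', ec, _, _⟩ := hc
  obtain rfl := D.type_inj hg hg' (ea.symm.trans ea')
  have h1 := D.link_chamber (a := a) hg ea.symm ij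
  have h2 := D.link_chamber (a := a) hg' ea'.symm ij'
  have e1 : D.vtx g hg j = b := Subtype.ext eb.symm
  have e2 : D.vtx g' hg' j' = c := Subtype.ext ec.symm
  rw [e1] at h1
  rw [e2] at h2
  have hu : g⁻¹ * g' ∈ D.K i := by
    apply D.stab_gen i (D.G.mul_mem (D.G.inv_mem hg) hg')
    rw [LinearEquiv.mul_apply, ← ea', ea, inv_apply_apply]
  have h3 := D.link_K (a := a) hu g hg ea.symm (by rw [mul_inv_cancel_left]; exact hg')
  have e3 : D.vtx (g * (g⁻¹ * g')) (by rw [mul_inv_cancel_left]; exact hg') (i + 1) =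
      D.vtx g' hg' (i + 1) := by
    apply Subtype.ext
    change (g * (g⁻¹ * g')) _ = g' _
    rw [mul_inv_cancel_left]
  rw [e3] at h3
  exact (D.LS_symm a h1).trans (h3.trans h2)

/-- underlying graph -/
def graph : SimpleGraph D.Vt where
  Adj a b := ∃ c : D.Vt, D.Face a.1 b.1 c.1
  symm := ⟨fun a b => by
    rintro ⟨c, hc⟩
    obtain ⟨d, hd, hd'⟩ := hc.opposite
    exact ⟨⟨d, hd'⟩, hd⟩⟩
  loopless := ⟨fun a => by
    rintro ⟨c, g, i, j, l, hg, ij, jl, il, ea, eb, _, _⟩
    exact ij.1 (D.type_inj hg hg (ea.symm.trans eb))⟩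

theorem graph_adj (a b : D.Vt) : D.graph.Adj a b ↔ ∃ c : D.Vt, D.Face a.1 b.1 c.1 := Iff.rfl

theorem adj_near {g : E3 ≃ₗ[ℝ] E3} (hg : g ∈ D.G) {i j : ℤ} (h : Near i j) :
    D.graph.Adj (D.vtx g hg i) (D.vtx g hg j) := by
  obtain ⟨l, jl, il⟩ : ∃ l, Near j l ∧ Near i l := by
    obtain ⟨h1, h2, h3⟩ := h
    by_cases h : i < j
    · by_cases h' : j = i + 1
      · exact ⟨i + 2, by unfold Near; omega, by unfold Near; omega⟩
      · exact ⟨i + 1, by unfold Near; omega, by unfold Near; omega⟩
    · by_cases h' : i = j + 1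
      · exact ⟨j + 2, by unfold Near; omega, by unfold Near; omega⟩
      · exact ⟨j + 1, by unfold Near; omega, by unfold Near; omega⟩
  rcases D.near_face hg h jl il with h | h
  · exact ⟨D.vtx g hg l, h⟩
  · have h2 := h.rotate.rotate
    obtain ⟨d, hd, hd'⟩ := h2.opposite
    exact ⟨⟨d, hd'⟩, hd⟩

theorem reach_chamber {g : E3 ≃ₗ[ℝ] E3} (hg : g ∈ D.G) (k : ℤ) :
    D.graph.Reachable (D.vtx g hg 0) (D.vtx g hg k) := by
  have up : ∀ n : ℕ, D.graph.Reachable (D.vtx g hg 0) (D.vtx g hg n) := by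
    intro n
    induction n with
    | zero => exact SimpleGraph.Reachable.refl _
    | succ n ih =>
      refine ih.trans (D.adj_near hg ?_).reachable
      unfold Near; push_cast; omega
  have down : ∀ n : ℕ, D.graph.Reachable (D.vtx g hg 0) (D.vtx g hg (-n)) := by
    intro n
    induction n with
    | zero => exact SimpleGraph.Reachable.refl _
    | succ n ih =>
      refine ih.trans (D.adj_near hg ?_).reachable
      unfold Near; push_cast; omega
  rcases le_or_gt 0 k with hk | hk
  · obtain ⟨n, rfl⟩ := Int.eq_ofNat_of_zero_le hk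
    exact up n
  · obtain ⟨n, hn⟩ := Int.eq_ofNat_of_zero_le (show 0 ≤ -k by omega)
    have : k = -(n : ℤ) := by omega
    rw [this]; exact down n

theorem reach_mul {u : E3 ≃ₗ[ℝ] E3} (hu : u ∈ D.G) : ∀ g (hg : g ∈ D.G) (hgu : g * u ∈ D.G),
    D.graph.Reachable (D.vtx g hg 0) (D.vtx (g * u) hgu 0) := by
  unfold G WallSystem.W at hu
  induction hu using Subgroup.closure_induction with
  | mem u hu =>
    obtain ⟨i, rfl⟩ := hu
    intro g hg hgu
    have h1 := D.reach_chamber hg i
    have h2 := D.reach_chamber hgu i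
    have e : D.vtx (g * D.sys.s i) hgu i = D.vtx g hg i := by
      apply Subtype.ext
      change (g * D.sys.s i) _ = g _
      rw [LinearEquiv.mul_apply, D.s_fix_0]
    rw [e] at h2
    exact h1.trans h2.symm
  | one =>
    intro g hg hgu
    have : D.vtx g hg 0 = D.vtx (g * 1) hgu 0 := Subtype.ext rfl
    rw [← this]
  | mul u v hu hv ihu ihv =>
    intro g hg hgu
    have hu' : u ∈ D.G := hu
    have h1 : g * u ∈ D.G := D.G.mul_mem hg hu'
    have h2 : g * u * v ∈ D.G := by rw [mul_assoc]; exact hgu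
    have e3 : D.vtx (g * u * v) h2 0 = D.vtx (g * (u * v)) hgu 0 := Subtype.ext rfl
    have := (ihu g hg h1).trans (ihv (g * u) h1 h2)
    rw [e3] at this
    exact this
  | inv u hu ih =>
    intro g hg hgu
    have h2 : g * u⁻¹ * u ∈ D.G := by rw [inv_mul_cancel_right]; exact hg
    have e3 : D.vtx (g * u⁻¹ * u) h2 0 = D.vtx g hg 0 := by
      apply Subtype.ext
      change (g * u⁻¹ * u) _ = g _
      rw [inv_mul_cancel_right]
    have := ih (g * u⁻¹) hgu h2
    rw [e3] at this
    exact this.symm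

theorem graph_connected : D.graph.Connected := by
  rw [SimpleGraph.connected_iff_exists_forall_reachable]
  refine ⟨D.vtx 1 D.G.one_mem 0, ?_⟩
  rintro ⟨x, g, hg, k, rfl⟩
  have h1 := D.reach_mul hg 1 D.G.one_mem (by rw [one_mul]; exact hg)
  have h2 := D.reach_chamber hg k
  have e : D.vtx (1 * g) (by rw [one_mul]; exact hg) 0 = D.vtx g hg 0 := by
    apply Subtype.ext
    change (1 * g) _ = g _
    rw [one_mul]
  rw [e] at h1
  exact h1.trans h2

theorem graph_locallyFinite (a : D.Vt) : (D.graph.neighborSet a).Finite := by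
  obtain ⟨x, g, hg, k, rfl⟩ := a
  have hfin : (⋃ j ∈ Finset.Icc (k - 2) (k + 2),
      {u : E3 | (∃ h ∈ D.G, u = h (D.w j)) ∧ B u (g (D.w k)) ≤ 3}).Finite := by
    apply Set.Finite.biUnion (Finset.finite_toSet _)
    intro j _
    exact D.finite_type (D.sys.W_cone hg (D.strip.cone k)) j 3
  apply Set.Finite.of_finite_image (f := Subtype.val) _ Subtype.val_injective.injOn
  apply hfin.subset
  rintro _ ⟨b, ⟨c, h⟩, rfl⟩
  obtain ⟨g', i, j, l, H⟩ := h
  have T := H.tri
  obtain ⟨hg', ij, jl, il, ea, eb, _, _⟩ := H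
  simp only at ea
  have e1 : k = i := D.type_inj hg hg' ea
  subst e1
  simp only [Set.mem_iUnion]
  refine ⟨j, ?_, ⟨g', hg', eb⟩, ?_⟩
  · rw [Finset.mem_Icc]
    obtain ⟨h1, h2, h3⟩ := ij
    omega
  · have h1 := T.xy
    simp only at h1
    rw [B_comm, h1]
    have := D.t1 k; have := D.t1 j; have := D.t2 k; have := D.t2 j
    nlinarith

/-- the triangulation -/
def T : Triangulation D.Vt where
  G := D.graph
  face a b c := D.Face a.1 b.1 c.1
  adj_iff a b := Iff.rfl
  rotate a b c h := h.rotate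
  opposite a b c h := by
    obtain ⟨d, hd, hd'⟩ := h.opposite
    exact ⟨⟨d, hd'⟩, hd⟩
  unique a b c d h1 h2 := Subtype.ext (h1.unique h2)
  cycle a b c hb hc := by
    obtain ⟨d, hd⟩ := hb
    obtain ⟨e, he⟩ := hc
    have h := D.link_conn hd he
    clear he hd
    have key : ∀ x y : D.Vt, D.Face a.1 x.1 y.1 →
        Relation.ReflTransGen (fun x y : D.Vt => D.Face a.1 x.1 y.1) y x := by
      intro x y hxy
      apply reverse_of_injective (D.graph_locallyFinite a) (fun x y : D.Vt => D.Face a.1 x.1 y.1)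
        _ _ _ (x := x) ⟨y, hxy⟩ hxy
      · rintro x ⟨c, hc⟩
        obtain ⟨d, hd, hd'⟩ := (hc.rotate.rotate).opposite
        exact ⟨c, ⟨⟨d, hd'⟩, hd⟩, hc⟩
      · intro x y y' h1 h2
        exact Subtype.ext (h1.unique h2)
      · intro x x' y h1 h2
        exact Subtype.ext (h1.rotate.rotate.unique h2.rotate.rotate)
    induction h with
    | refl => exact Relation.ReflTransGen.refl
    | tail h1 h2 ih =>
      rcases h2 with h2 | h2
      · exact ih.tail h2
      · exact ih.trans (key _ _ h2)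
  connected := D.graph_connected
  locallyFinite := D.graph_locallyFinite
  infinite := by
    have : Function.Injective (fun k : ℤ => D.vtx 1 D.G.one_mem k) := by
      intro k l h
      exact D.strip.w_inj (congrArg Subtype.val h)
    exact Infinite.of_injective _ this

end Datum

end

end Pool.Agent.H33CP
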