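import Pool.Agent.H33CP.Dihedral

/-! The wall system of the strip, packing facts and the decomposition of the chamber. -/

namespace Pool.Agent.H33CP

open Real

noncomputable section

/-- a disc whose centre is far beyond a wall does not meet the wall -/
theorem disc_wall {z w e : E3} {t : ℝ} (hz : z ∈ Cone) (hzz : B z z = 1) (hw : w ∈ Cone)
    (hww : B w w = t ^ 2 - 1) (he : B e e = -1) (ht : 0 < t) (hwe : B w e < -1)
    (hzw : B z w ≤ t) : B z e < 0 := by
  by_contra hc
  push Not at hc
  set b := - B w e with hb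
  set u := w - b • e with hu
  have hue : B u e = 0 := by
    rw [hu, B_sub_left, B_smul_left, he, hb]; ring
  have huu : B u u = t ^ 2 - 1 + b ^ 2 := by
    rw [hu, B_sub_left, B_sub_right, B_sub_right, B_smul_left, B_smul_right, B_smul_left,
      B_smul_right, he, hww, B_comm e w, hb]; ring
  have hwu : B w u = t ^ 2 - 1 + b ^ 2 := by
    rw [hu, B_sub_right, B_smul_right, hww, hb]; ring
  have hb1 : 1 < b := by linarith
  have hbb : 1 < b ^ 2 := by nlinarith
  have huc : u ∈ Cone := mem_cone_of hw (by rw [huu]; nlinarith) (by rw [hwu]; nlinarith)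
  have h1 : B z w = B z u + b * B z e := by
    have : w = u + b • e := by rw [hu]; abel
    conv_lhs => rw [this]
    rw [B_add_right, B_smul_right]
  have h2 : 0 ≤ b * B z e := mul_nonneg (by linarith) hc
  have h3 := cone_cs hz huc
  rw [hzz, huu, one_mul] at h3
  have h4 := cone_pos hz huc
  have h5 : B z u ≤ t := by linarith
  have h6 : B z u ^ 2 ≤ t ^ 2 := pow_le_pow_left₀ h4.le h5 2
  linarith

theorem disc_sep {w w' e : E3} {t t' : ℝ} (hw : w ∈ Cone) (hw' : w' ∈ Cone)
    (hww : B w w = t ^ 2 - 1) (hww' : B w' w' = t' ^ 2 - 1) (he : B e e = -1) (ht : 0 ≤ t)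
    (ht' : 0 ≤ t') (h1 : 1 ≤ B w e) (h2 : B w' e ≤ -1) : 1 + t * t' ≤ B w w' := by
  set a := B w e with ha
  set b := - B w' e with hb
  set u := w + a • e with hu
  set u' := w' - b • e with hu'
  have huu : B u u = t ^ 2 - 1 + a ^ 2 := by
    rw [hu, B_add_left, B_add_right, B_add_right, B_smul_left, B_smul_right, B_smul_left,
      B_smul_right, he, hww, B_comm e w, ha]; ring
  have huu' : B u' u' = t' ^ 2 - 1 + b ^ 2 := by
    rw [hu', B_sub_left, B_sub_right, B_sub_right, B_smul_left, B_smul_right, B_smul_left,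
      B_smul_right, he, hww', B_comm e w', hb]; ring
  have hwu : B w u = t ^ 2 - 1 + a ^ 2 := by
    rw [hu, B_add_right, B_smul_right, hww, ha]; ring
  have hwu' : B w' u' = t' ^ 2 - 1 + b ^ 2 := by
    rw [hu', B_sub_right, B_smul_right, hww', hb]; ring
  have haa : 1 ≤ a ^ 2 := by nlinarith
  have hbb : 1 ≤ b ^ 2 := by nlinarith
  have hwc := hw.1
  have hwc' := hw'.1
  rw [hww] at hwc
  rw [hww'] at hwc'
  have huc : u ∈ Cone := mem_cone_of hw (by rw [huu]; nlinarith) (by rw [hwu]; nlinarith)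
  have huc' : u' ∈ Cone := mem_cone_of hw' (by rw [huu']; nlinarith) (by rw [hwu']; nlinarith)
  have h3 := cone_cs' huc huc' ht ht' (by rw [huu]; linarith) (by rw [huu']; linarith)
  have h4 : B w w' = B u u' + a * b := by
    rw [hu, hu', B_add_left, B_sub_right, B_sub_right, B_smul_right, B_smul_left, B_smul_left,
      B_smul_right, he, B_comm e w', hb, ← ha]; ring
  nlinarith

theorem escape {w y e : E3} {s : ℝ} (hw : w ∈ Cone) (hy : y ∈ Cone) (he : B e e = -1)
    (hs : 0 ≤ s) (h1 : s ≤ B w e) (h2 : B y w ^ 2 < B y y * s ^ 2) : 0 < B y e := by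
  by_contra hc
  push Not at hc
  set a := B w e with ha
  set u := w + a • e with hu
  have huu : B u u = B w w + a ^ 2 := by
    rw [hu, B_add_left, B_add_right, B_add_right, B_smul_left, B_smul_right, B_smul_left,
      B_smul_right, he, B_comm e w, ha]; ring
  have hwu : B w u = B w w + a ^ 2 := by
    rw [hu, B_add_right, B_smul_right, ha]; ring
  have hw1 := hw.1
  have hy1 := hy.1
  have huc : u ∈ Cone := mem_cone_of hw (by rw [huu]; positivity) (by rw [hwu]; positivity)
  have h3 : B y u = B y w + a * B y e := by rw [hu, B_add_right, B_smul_right]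
  have h4 := cone_pos hy huc
  have h5 : a * B y e ≤ 0 := mul_nonpos_of_nonneg_of_nonpos (by linarith) hc
  have h6 := cone_cs hy huc
  rw [huu] at h6
  have h7 : B y u ^ 2 ≤ B y w ^ 2 := pow_le_pow_left₀ h4.le (by linarith) 2
  have h8 : s ^ 2 ≤ a ^ 2 := pow_le_pow_left₀ hs h1 2
  have h9 : B y y * s ^ 2 ≤ B y y * a ^ 2 := mul_le_mul_of_nonneg_left h8 hy1.le
  have h10 : 0 < B y y * B w w := mul_pos hy1 hw1
  nlinarith

namespace Strip

variable {t : ℤ → ℝ} {w : ℤ → E3} (S : Strip t w)

include S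

theorem pack_lt (k l : ℤ) (h : k < l) : 1 + t k * t l ≤ B (w k) (w l) := by
  by_cases h1 : l = k + 1
  · subst h1; rw [S.one]
  · by_cases h2 : l = k + 2
    · subst h2; rw [S.two]
    · have ht := S.ht
      exact disc_sep (S.cone k) (S.cone l) (S.self k) (S.self l) (S.DD_unit (k + 1))
        (by linarith [(ht k).1]) (by linarith [(ht l).1])
        (by linarith [S.DD_far_bwd (k + 1) k (by omega)])
        (by linarith [S.DD_far_fwd (k + 1) l (by omega)])

theorem pack (k l : ℤ) (h : k ≠ l) : 1 + t k * t l ≤ B (w k) (w l) := by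
  rcases lt_or_gt_of_ne h with h | h
  · exact S.pack_lt k l h
  · rw [B_comm, mul_comm]; exact S.pack_lt l k h

theorem w_inj : Function.Injective w := by
  intro k l h
  by_contra hne
  have h1 := S.pack k l hne
  rw [h] at h1
  rw [S.self] at h1
  have h2 := S.self k
  rw [h, S.self] at h2
  have h3 := (S.ht k).1
  have h4 := (S.ht l).1
  have h5 : t k = t l := by nlinarith
  rw [h5] at h1
  nlinarith

theorem o_le (i : ℤ) : B (w 0 + w 1 + w 2) (EE t w i) ≤ -1 := by
  rw [B_add_left, B_add_left]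
  have h0 := S.EE_le i 0
  have h1 := S.EE_le i 1
  have h2 := S.EE_le i 2
  by_cases h : (1 : ℤ) = i ∨ (1 : ℤ) = i + 2
  · have := S.EE_far i 0 (by omega) (by omega)
    linarith
  · push Not at h
    have := S.EE_far i 1 h.1 h.2
    linarith

/-- the wall system -/
def walls (N : ℤ → ℕ) (hN : ∀ k, 1 ≤ N k) (hA : ∀ k, Ang t k = π / (2 * N k)) :
    WallSystem ℤ where
  e := EE t w
  unit := S.EE_unit
  o := w 0 + w 1 + w 2
  o_cone := cone_add (cone_add (S.cone 0) (S.cone 1)) (S.cone 2)
  δ := 1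
  δ_pos := one_pos
  o_in := S.o_le
  pair := by
    intro i j hij
    by_cases h1 : j = i + 2
    · right
      refine ⟨N j, hN j, ?_⟩
      have := S.dihedral j
      rw [hA j] at this
      rw [show i = j - 2 by omega]
      exact this
    · by_cases h2 : i = j + 2
      · right
        refine ⟨N i, hN i, ?_⟩
        have := S.dihedral i
        rw [hA i] at this
        rw [show j = i - 2 by omega, B_comm]
        exact this
      · left
        rcases lt_or_gt_of_ne hij with h | h
        · exact S.EE_pair_aux i j h h1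
        · rw [B_comm]; exact S.EE_pair_aux j i h h2
  fin := by
    intro x hx
    by_contra hinf
    have hinf' : {i | 0 < B x (EE t w i)}.Infinite := hinf
    obtain ⟨i, hi⟩ := hinf'.nonempty
    have hsub : {i | 0 < B x (EE t w i)} ⊆ ({i - 2, i, i + 2} : Set ℤ) := by
      intro j hj
      by_contra hc
      simp only [Set.mem_insert_iff, Set.mem_singleton_iff, not_or] at hc
      obtain ⟨c1, c2, c3⟩ := hc
      have hb : 1 ≤ B (EE t w i) (EE t w j) := by
        rcases lt_or_gt_of_ne c2 with h | h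
        · rw [B_comm]; exact S.EE_pair_aux j i h (by omega)
        · exact S.EE_pair_aux i j h c3
      exact not_both_aux (cone_add (cone_add (S.cone 0) (S.cone 1)) (S.cone 2)) (S.EE_unit i)
        (S.EE_unit j) (by linarith [S.o_le i]) (by linarith [S.o_le j]) hb hx hi hj
    exact hinf' (Set.Finite.subset (by simp) hsub)

/-- position of a point with respect to the diagonals -/
theorem exists_k {y : E3} (hy : y ∈ Cone) : ∃ k, B y (DD t w k) ≤ 0 ∧ 0 < B y (DD t w (k + 1)) := by
  have hyy := hy.1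
  obtain ⟨n, hn⟩ := pow_unbounded_of_one_lt (B y (w 0) ^ 2 / B y y) (show (1:ℝ) < 17/10 by norm_num)
  have hpow : ∀ m : ℕ, n ≤ m → B y (w 0) ^ 2 < B y y * (9/5 * (17/10) ^ m) ^ 2 := by
    intro m hm
    rw [div_lt_iff₀ hyy] at hn
    have h1 : (1:ℝ) ≤ (17/10) ^ m := one_le_pow₀ (by norm_num)
    have h2 : (17/10 : ℝ) ^ n ≤ (17/10) ^ m := pow_le_pow_right₀ (by norm_num) hm
    have h3 : (17/10 : ℝ) ^ m ≤ (9/5 * (17/10) ^ m) ^ 2 := by nlinarith
    calc B y (w 0) ^ 2 < (17/10) ^ n * B y y := hn
      _ ≤ (9/5 * (17/10) ^ m) ^ 2 * B y y := mul_le_mul_of_nonneg_right (by linarith) hyy.le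
      _ = _ := by ring
  have hup : ∀ k : ℤ, n + 1 ≤ k → 0 < B y (DD t w k) := by
    intro k hk
    obtain ⟨m, hm⟩ := Int.eq_ofNat_of_zero_le (show 0 ≤ k - 1 by omega)
    have h1 := S.DD_bwd k m
    rw [show k + 1 - ((m + 2 : ℕ) : ℤ) = 0 by push_cast; omega] at h1
    exact escape (S.cone 0) hy (S.DD_unit k) (by positivity) h1 (hpow m (by omega))
  have hdown : ∀ k : ℤ, k ≤ -(n + 2) → B y (DD t w k) < 0 := by
    intro k hk
    obtain ⟨m, hm⟩ := Int.eq_ofNat_of_zero_le (show 0 ≤ -k - 2 by omega)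
    have h1 := S.DD_fwd k m
    rw [show k + ((m + 2 : ℕ) : ℤ) = 0 by push_cast; omega] at h1
    have h2 := escape (e := - DD t w k) (S.cone 0) hy
      (by rw [B_neg_left, B_neg_right, neg_neg]; exact S.DD_unit k) (by positivity)
      (by rw [B_neg_right]; exact h1) (hpow m (by omega))
    rw [B_neg_right] at h2
    linarith
  obtain ⟨k, hk1, hk2⟩ := Int.exists_greatest_of_bdd (P := fun k => B y (DD t w k) ≤ 0)
    ⟨n + 1, fun z hz => by
      by_contra hc
      push Not at hc
      have := hup z (by omega)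
      linarith⟩ ⟨-(n + 2), (hdown _ le_rfl).le⟩
  refine ⟨k, hk1, ?_⟩
  by_contra hc
  push Not at hc
  have := hk2 (k + 1) hc
  omega

theorem coords {y : E3} {k : ℤ} (h0 : 0 ≤ B y (DD t w (k + 1))) (h1 : B y (EE t w k) ≤ 0)
    (h2 : B y (DD t w k) ≤ 0) : ∃ a b c : ℝ, 0 ≤ a ∧ 0 ≤ b ∧ 0 ≤ c ∧
      y = a • w k + b • w (k + 1) + c • w (k + 2) := by
  have hd := S.sgn k
  have hd0 : det3 (w k) (w (k + 1)) (w (k + 2)) ≠ 0 := by
    intro h; rw [h] at hd; simp at hd
  have hs := sg_sq k
  have ht := S.ht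
  have key : ∀ num : ℝ, 0 ≤ sg k * num → 0 ≤ num / det3 (w k) (w (k + 1)) (w (k + 2)) := by
    intro num hnum
    have : num / det3 (w k) (w (k + 1)) (w (k + 2)) =
        (sg k * num) / (sg k * det3 (w k) (w (k + 1)) (w (k + 2))) := by
      have hsg : sg k ≠ 0 := by intro h; rw [h] at hs; simp at hs
      field_simp
    rw [this]; positivity
  refine ⟨_, _, _, ?_, ?_, ?_, expand hd0 y⟩
  · apply key
    rw [B_DD, sg_succ, show k + 1 + 1 = k + 2 by ring] at h0
    have hp : 0 < t (k + 1) + t (k + 2) := by linarith [(ht (k + 1)).1, (ht (k + 2)).1]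
    have e : - -sg k / (t (k + 1) + t (k + 2)) * det3 (w (k + 1)) (w (k + 2)) y =
      (sg k * det3 y (w (k + 1)) (w (k + 2))) / (t (k + 1) + t (k + 2)) := by
      simp only [det3]; ring
    rw [e] at h0
    by_contra hc
    push Not at hc
    have := div_neg_of_neg_of_pos hc hp
    linarith
  · apply key
    rw [B_EE] at h1
    have hp : 0 < t k + t (k + 2) := by linarith [(ht k).1, (ht (k + 2)).1]
    have e : sg k / (t k + t (k + 2)) * det3 (w k) (w (k + 2)) y =
      (- (sg k * det3 (w k) y (w (k + 2)))) / (t k + t (k + 2)) := by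
      simp only [det3]; ring
    rw [e] at h1
    by_contra hc
    push Not at hc
    have := div_pos (neg_pos.2 hc) hp
    linarith
  · apply key
    rw [B_DD] at h2
    have hp : 0 < t k + t (k + 1) := by linarith [(ht k).1, (ht (k + 1)).1]
    have e : - sg k / (t k + t (k + 1)) * det3 (w k) (w (k + 1)) y =
      (- (sg k * det3 (w k) (w (k + 1)) y)) / (t k + t (k + 1)) := by
      ring
    rw [e] at h2
    by_contra hc
    push Not at hc
    have := div_pos (neg_pos.2 hc) hp
    linarith

end Strip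

end

end Pool.Agent.H33CP
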