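import Mathlib

/-! Definitions for the statement: triangulations of the plane as oriented combinatorial maps,
circle packings, carrier, Dirichlet energy, and unimodularity. -/

namespace Pool.Agent.H33CP

open MeasureTheory

/-- An infinite, connected, locally finite triangulation without boundary, given as an oriented
combinatorial map on the vertex set `V`. `G` is the underlying simple graph (so there are no loops
and no multiple edges); `face a b c` says that `a, b, c` are, in counterclockwise order, the three
corners of a face. Every edge lies in exactly one face on each of its two sides (`adj_iff`,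
`opposite`, `unique`), so that `face a b c` says that `c` is the neighbour of `a` which follows `b`
in the counterclockwise cyclic order around `a`; `cycle` says that this permutation of the
neighbours of `a` is a single cycle. -/
structure Triangulation (V : Type) where
  G : SimpleGraph V
  face : V → V → V → Prop
  adj_iff : ∀ a b, G.Adj a b ↔ ∃ c, face a b c
  rotate : ∀ a b c, face a b c → face b c a
  opposite : ∀ a b c, face a b c → ∃ d, face b a d
  unique : ∀ a b c d, face a b c → face a b d → c = d
  cycle : ∀ a b c, G.Adj a b → G.Adj a c →
    Relation.ReflTransGen (fun x y => face a x y) b c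
  connected : G.Connected
  locallyFinite : ∀ a, (G.neighborSet a).Finite
  infinite : Infinite V

/-- Isomorphisms of (oriented, unrooted) triangulations. -/
def IsIso {V : Type} (T T' : Triangulation V) (φ : V ≃ V) : Prop :=
  ∀ a b c, T'.face (φ a) (φ b) (φ c) ↔ T.face a b c

/-- The open triangle with corners `x, y, z`. -/
def openTriangle (x y z : ℂ) : Set ℂ :=
  {q | ∃ u v s : ℝ, 0 < u ∧ 0 < v ∧ 0 < s ∧ u + v + s = 1 ∧ q = u • x + v • y + s • z}

/-- A circle packing of `T`: closed round discs `P(v)` with centre `z v` and radius `r v`, with
pairwise disjoint interiors, tangent for adjacent vertices, respecting the orientation and the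
cyclic order of the neighbours (the centres of a face form a positively oriented triangle, and no
neighbour of `a` is seen from `a` strictly between two neighbours `b, c` that are consecutive
around `a`). `planar` says that the straight drawing on the centres is a plane drawing of `T`:
the open centre triangles of two different faces are disjoint. -/
structure CirclePacking {V : Type} (T : Triangulation V) where
  z : V → ℂ
  r : V → ℝ
  r_pos : ∀ v, 0 < r v
  disjoint : ∀ u v, u ≠ v → Disjoint (Metric.ball (z u) (r u)) (Metric.ball (z v) (r v))
  tangent : ∀ u v, T.G.Adj u v → dist (z u) (z v) = r u + r v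
  orient : ∀ a b c, T.face a b c → 0 < (starRingEnd ℂ (z b - z a) * (z c - z a)).im
  cyclic : ∀ a b c, T.face a b c → ∀ d, T.G.Adj a d → ∀ s t : ℝ, 0 < s → 0 < t →
    z d - z a ≠ s • (z b - z a) + t • (z c - z a)
  planar : ∀ a b c a' b' c', T.face a b c → T.face a' b' c' →
    (openTriangle (z a) (z b) (z c) ∩ openTriangle (z a') (z b') (z c')).Nonempty →
    (a' = a ∧ b' = b ∧ c' = c) ∨ (a' = b ∧ b' = c ∧ c' = a) ∨ (a' = c ∧ b' = a ∧ c' = b)

namespace CirclePacking

variable {V : Type} {T : Triangulation V} (P : CirclePacking T)

/-- The union of the closed centre triangles of the faces. -/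
def triangles : Set ℂ :=
  ⋃ (a : V) (b : V) (c : V) (_ : T.face a b c), convexHull ℝ {P.z a, P.z b, P.z c}

/-- The carrier: the union of the discs together with the triangular gaps. (The triangle spanned
by the centres of a face is covered by its three discs and the gap between them, and contains that
gap, so adding the whole triangle is the same as adding the gap.) -/
def carrier : Set ℂ := (⋃ v, Metric.closedBall (P.z v) (P.r v)) ∪ P.triangles

/-- Squared length of an edge in the drawing by centres. -/
noncomputable def edgeSq : Sym2 V → ENNReal :=
  Sym2.lift ⟨fun u v => ENNReal.ofReal (‖P.z u - P.z v‖ ^ 2),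
    fun u v => by simp only [norm_sub_rev (P.z u)]⟩

/-- Dirichlet energy of the centres function: the sum over the (unoriented) edges. -/
noncomputable def energy : ENNReal := ∑' e : T.G.edgeSet, P.edgeSq e

end CirclePacking

/-- The mass-transport principle for the random rooted triangulation `(T, ρ)` defined on the
measure space `(Ω, μ)`. -/
def MassTransport {V Ω : Type} [MeasurableSpace Ω] (μ : Measure Ω) (T : Ω → Triangulation V)
    (ρ : Ω → V) : Prop :=
  ∀ f : Triangulation V → V → V → ENNReal,
    (∀ (T₁ T₂ : Triangulation V) (φ : V ≃ V), IsIso T₁ T₂ φ →
      ∀ u v, f T₂ (φ u) (φ v) = f T₁ u v) →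
    ∫⁻ ω, ∑' v, f (T ω) (ρ ω) v ∂μ = ∫⁻ ω, ∑' v, f (T ω) v (ρ ω) ∂μ

end Pool.Agent.H33CP
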