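import Pool.Agent.H33CP.Walls

/-! Dihedral angles, the wall system of the strip, and the decomposition of the chamber. -/

namespace Pool.Agent.H33CP

open Real

noncomputable section

theorem angle_add {w a b c : E3} {ε φ ψ : ℝ} (hw : 0 < B w w) (hb : B w b = 0)
    (hc : B w c = 0) (hbb : B b b = -1) (hε : ε * ε = 1)
    (h1 : - B a b = cos φ) (h2 : ε * det3 w a b = √(B w w) * sin φ)
    (h3 : - B b c = cos ψ) (h4 : ε * det3 w b c = √(B w w) * sin ψ) :
    - B a c = cos (φ + ψ) ∧ ε * det3 w a c = √(B w w) * sin (φ + ψ) := by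
  have hs : √(B w w) * √(B w w) = B w w := mul_self_sqrt hw.le
  have i1 : det3 w a b * det3 w b c = B w w * (B a b * B b c - B a c * B b b)
      + B w a * (B b w * B b c - B a w * 0) * 0
      - B w b * (B a w * B b c - B a c * B b w)
      + B w c * (B a w * B b b - B a b * B b w) := by
    simp only [det3, B]; ring
  have i2 : det3 w a c * B b b = det3 w a b * B b c + det3 w b c * B a b - det3 a b c * B w b := by
    simp only [det3, B]; ring
  rw [hb, hc, hbb] at i1
  rw [hb, hbb] at i2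
  have e1 : B a b = - cos φ := by linarith
  have e2 : B b c = - cos ψ := by linarith
  rw [e1, e2] at i1 i2
  constructor
  · rw [cos_add]
    have h5 : (ε * det3 w a b) * (ε * det3 w b c) = B w w * (sin φ * sin ψ) := by
      rw [h2, h4]; linear_combination (sin φ * sin ψ) * hs
    have h6 : (ε * det3 w a b) * (ε * det3 w b c) = det3 w a b * det3 w b c := by
      linear_combination (det3 w a b * det3 w b c) * hε
    rw [h6, i1] at h5
    have h7 : B w w * (cos φ * cos ψ + B a c) = B w w * (sin φ * sin ψ) := by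
      rw [← h5]; ring
    have := mul_left_cancel₀ hw.ne' h7
    linarith
  · rw [sin_add]
    linear_combination (-ε) * i2 + cos ψ * h2 + cos φ * h4

theorem angle_one {t s u ε : ℝ} {w x y : E3} (h : Tri3 t s u w x y)
    (ht : 1 < t ∧ t ≤ 11/10) (hs : 1 < s) (hu : 1 < u)
    (hε : ε * ε = 1) (hd : 0 < ε * det3 w x y) :
    - B ((1/(t+s)) • cross w x) ((1/(t+u)) • cross w y) = cos (ang t s u) ∧
    ε * det3 w ((1/(t+s)) • cross w x) ((1/(t+u)) • cross w y) = √(B w w) * sin (ang t s u) := by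
  have h1 : t + s ≠ 0 := by linarith [ht.1]
  have h2 : t + u ≠ 0 := by linarith [ht.1]
  have hc : - B ((1/(t+s)) • cross w x) ((1/(t+u)) • cross w y) = cos (ang t s u) := by
    rw [cos_ang ht.1.le ht.2 hs.le hu.le, B_smul_left, B_smul_right, cross_cross, h.xx, h.yz,
      B_comm x w, h.xy, h.xz]
    field_simp
    ring
  refine ⟨hc, ?_⟩
  have hd1 : det3 w ((1/(t+s)) • cross w x) ((1/(t+u)) • cross w y) =
      (B w w * det3 w x y) / ((t + s) * (t + u)) := by
    have : det3 w ((1/(t+s)) • cross w x) ((1/(t+u)) • cross w y) =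
      (1 / (t+s)) * (1/(t+u)) * det3 w (cross w x) (cross w y) := by
      simp only [det3, Pi.smul_apply, smul_eq_mul]; ring
    rw [this]
    have h3 : det3 w (cross w x) (cross w y) = B w w * det3 w x y := by
      simp [det3, cross, B]; ring
    rw [h3]; field_simp
  have hww : 0 < B w w := h.cx.1
  have hpos : 0 ≤ ε * det3 w ((1/(t+s)) • cross w x) ((1/(t+u)) • cross w y) := by
    rw [hd1]
    have : ε * (B w w * det3 w x y / ((t + s) * (t + u))) =
      B w w * (ε * det3 w x y) / ((t + s) * (t + u)) := by ring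
    rw [this]
    have h4 : 0 < t + s := by linarith [ht.1]
    have h5 : 0 < t + u := by linarith [ht.1]
    positivity
  have hpos2 : 0 ≤ √(B w w) * sin (ang t s u) := mul_nonneg (sqrt_nonneg _) (sin_ang_nonneg _ _ _)
  have hsq : (ε * det3 w ((1/(t+s)) • cross w x) ((1/(t+u)) • cross w y)) ^ 2 =
      (√(B w w) * sin (ang t s u)) ^ 2 := by
    rw [mul_pow, mul_pow, sq_sqrt hww.le, pow_two ε, hε, one_mul, sin_sq, ← hc, det3_sq]
    have o1 : B w ((1/(t+s)) • cross w x) = 0 := by
      rw [B_smul_right, B_cross]; simp only [det3]; ring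
    have o2 : B w ((1/(t+u)) • cross w y) = 0 := by
      rw [B_smul_right, B_cross]; simp only [det3]; ring
    have o3 : B ((1/(t+s)) • cross w x) ((1/(t+s)) • cross w x) = -1 := by
      rw [B_smul_left, B_smul_right, cross_norm h.xx h.yy h.xy]; field_simp
    have o4 : B ((1/(t+u)) • cross w y) ((1/(t+u)) • cross w y) = -1 := by
      rw [B_smul_left, B_smul_right, cross_norm h.xx h.zz h.xz]; field_simp
    rw [o1, o2, o3, o4]; ring
  exact (pow_left_inj₀ hpos hpos2 (by norm_num)).1 hsq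

namespace Strip

variable {t : ℤ → ℝ} {w : ℤ → E3} (S : Strip t w)

include S

theorem tri_a (k : ℤ) : Tri3 (t k) (t (k - 2)) (t (k - 1)) (w k) (w (k - 2)) (w (k - 1)) := by
  have h := S.tri (k - 2)
  rw [show k - 2 + 1 = k - 1 by ring, show k - 2 + 2 = k by ring] at h
  obtain ⟨cx, cy, cz, xx, yy, zz, xy, xz, yz⟩ := h
  exact ⟨cz, cx, cy, zz, xx, yy, by rw [B_comm, xz]; ring, by rw [B_comm, yz]; ring, xy⟩

theorem tri_b (k : ℤ) : Tri3 (t k) (t (k - 1)) (t (k + 1)) (w k) (w (k - 1)) (w (k + 1)) := by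
  have h := S.tri (k - 1)
  rw [show k - 1 + 1 = k by ring, show k - 1 + 2 = k + 1 by ring] at h
  obtain ⟨cx, cy, cz, xx, yy, zz, xy, xz, yz⟩ := h
  exact ⟨cy, cx, cz, yy, xx, zz, by rw [B_comm, xy]; ring, yz, xz⟩

theorem dihedral (k : ℤ) : B (EE t w (k - 2)) (EE t w k) = cos (Ang t k) := by
  have ht := S.ht
  have d0 := S.sgn (k - 2)
  have d1 := S.sgn (k - 1)
  have d2 := S.sgn k
  have s1 := sg_succ (k - 2)
  have s2 := sg_succ (k - 1)
  rw [show k - 2 + 1 = k - 1 by ring] at s1
  rw [show k - 1 + 1 = k by ring] at s2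
  rw [show k - 2 + 1 = k - 1 by ring, show k - 2 + 2 = k by ring] at d0
  rw [show k - 1 + 1 = k by ring, show k - 1 + 2 = k + 1 by ring] at d1
  have e1 : sg (k - 2) = sg k := by rw [s2, s1]; ring
  have a0 := angle_one (ε := sg k) (S.tri_a k) (ht k) (ht _).1 (ht _).1 (sg_sq k) (by
    rw [e1] at d0
    have : det3 (w k) (w (k - 2)) (w (k - 1)) = det3 (w (k - 2)) (w (k - 1)) (w k) := by
      simp only [det3]; ring
    rw [this]; exact d0)
  have a1 := angle_one (ε := sg k) (S.tri_b k) (ht k) (ht _).1 (ht _).1 (sg_sq k) (by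
    have : sg k * det3 (w k) (w (k - 1)) (w (k + 1)) =
        sg (k - 1) * det3 (w (k - 1)) (w k) (w (k + 1)) := by
      rw [s2]; simp only [det3]; ring
    rw [this]; exact d1)
  have a2 := angle_one (ε := sg k) (S.tri k) (ht k) (ht _).1 (ht _).1 (sg_sq k) d2
  have hww : 0 < B (w k) (w k) := (S.cone k).1
  have orth : ∀ c : ℝ, ∀ x, B (w k) (c • cross (w k) x) = 0 := by
    intro c x
    rw [B_smul_right, B_cross]; simp only [det3]; ring
  have unit : ∀ j, B (w k) (w k) = t k ^ 2 - 1 → B (w j) (w j) = t j ^ 2 - 1 →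
      B (w k) (w j) = 1 + t k * t j →
      B ((1 / (t k + t j)) • cross (w k) (w j)) ((1 / (t k + t j)) • cross (w k) (w j)) = -1 := by
    intro j h1 h2 h3
    have h4 : t k + t j ≠ 0 := by linarith [(ht k).1, (ht j).1]
    rw [B_smul_left, B_smul_right, cross_norm h1 h2 h3]; field_simp
  have b1 := angle_add hww (orth _ _) (orth _ _)
    (unit (k - 1) (S.tri_b k).xx (S.tri_b k).yy (S.tri_b k).xy) (sg_sq k) a0.1 a0.2 a1.1 a1.2
  have b2 := angle_add hww (orth _ _) (orth _ _)
    (unit (k + 1) (S.tri k).xx (S.tri k).yy (S.tri k).xy) (sg_sq k) b1.1 b1.2 a2.1 a2.2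
  unfold Ang
  rw [← b2.1]
  unfold EE
  rw [show k - 2 + 2 = k by ring, e1]
  have hc : cross (w (k - 2)) (w k) = - cross (w k) (w (k - 2)) := by
    funext i; fin_cases i <;> simp [cross] <;> ring
  rw [hc]
  simp only [B_smul_left, B_smul_right, B_neg_left]
  have := sg_sq k
  have h1 : t k + t (k + 2) ≠ 0 := by linarith [(ht k).1, (ht (k + 2)).1]
  have h2 : t (k - 2) + t k ≠ 0 := by linarith [(ht k).1, (ht (k - 2)).1]
  have h3 : t k + t (k - 2) ≠ 0 := by linarith [(ht k).1, (ht (k - 2)).1]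
  field_simp
  linear_combination (-1) * B (cross (w k) (w (k - 2))) (cross (w k) (w (k + 2))) * (t k + t (k - 2)) * this

end Strip

end

end Pool.Agent.H33CP
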