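import Pool.Agent.H33CP.Build

/-! The circle packing and its carrier. -/

namespace Pool.Agent.H33CP

open Real

/-- linear independence from orientation -/
theorem lin_indep {x y z : ℂ} (h : 0 < (starRingEnd ℂ (y - x) * (z - x)).im) {p q : ℝ}
    (e : p • (y - x) + q • (z - x) = 0) : p = 0 ∧ q = 0 := by
  have hr : p * (y - x).re + q * (z - x).re = 0 := by
    have := congrArg Complex.re e
    simpa using this
  have hi : p * (y - x).im + q * (z - x).im = 0 := by
    have := congrArg Complex.im e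
    simpa using this
  rw [Complex.mul_im, Complex.conj_re, Complex.conj_im] at h
  generalize (y - x).re = a at *
  generalize (y - x).im = b at *
  generalize (z - x).re = c at *
  generalize (z - x).im = d at *
  have h1 : q * (a * d + -b * c) = 0 := by linear_combination a * hi - b * hr
  have h2 : p * (a * d + -b * c) = 0 := by linear_combination d * hr - c * hi
  exact ⟨(mul_eq_zero.1 h2).resolve_right h.ne', (mul_eq_zero.1 h1).resolve_right h.ne'⟩

theorem bary_unique {x y z : ℂ} (h : 0 < (starRingEnd ℂ (y - x) * (z - x)).im)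
    {u v s u' v' s' : ℝ} (h1 : u + v + s = 1) (h2 : u' + v' + s' = 1)
    (e : u • x + v • y + s • z = u' • x + v' • y + s' • z) : u = u' ∧ v = v' ∧ s = s' := by
  have : (v - v') • (y - x) + (s - s') • (z - x) = 0 := by
    have hu : u = 1 - v - s := by linarith
    have hu' : u' = 1 - v' - s' := by linarith
    rw [hu, hu'] at e
    have e2 : (v - v') • (y - x) + (s - s') • (z - x) =
      ((1 - v - s) • x + v • y + s • z) - ((1 - v' - s') • x + v' • y + s' • z) := by module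
    rw [e2, e, sub_self]
  obtain ⟨h3, h4⟩ := lin_indep h this
  refine ⟨by linarith, by linarith, by linarith⟩

noncomputable section

namespace Datum

variable (D : Datum)

/-- the minimum index of a face -/
theorem FD.exists_min {D : Datum} {x y z : E3} {g : E3 ≃ₗ[ℝ] E3} {i j l : ℤ} (h : D.FD x y z g i j l) :
    ∃ k, (∀ m, (m = k ∨ m = k + 1 ∨ m = k + 2) ↔ (m = i ∨ m = j ∨ m = l)) := by
  obtain ⟨hg, ⟨a1, a2, a3⟩, ⟨b1, b2, b3⟩, ⟨c1, c2, c3⟩, _, _, _, _⟩ := h
  refine ⟨min i (min j l), fun m => ?_⟩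
  omega

theorem DD_le {k m : ℤ} (h : k ≤ m) : B (D.w m) (DD D.t D.w k) ≤ 0 := by
  by_cases h1 : m = k
  · subst h1; rw [Strip.DD_0]
  · by_cases h2 : m = k + 1
    · subst h2; rw [Strip.DD_1]
    · linarith [D.strip.DD_far_fwd k m (by omega)]

theorem DD_ge {k m : ℤ} (h : m ≤ k + 1) : 0 ≤ B (D.w m) (DD D.t D.w k) := by
  by_cases h1 : m = k
  · subst h1; rw [Strip.DD_0]
  · by_cases h2 : m = k + 1
    · subst h2; rw [Strip.DD_1]
    · linarith [D.strip.DD_far_bwd k m (by omega)]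

/-- a closed face cone meets no closed disc of another vertex -/
theorem face_far {x y z : E3} (h : D.Face x y z) {v : E3} (hv : v ∈ Cone) {α β γ : ℝ}
    (hα : 0 ≤ α) (hβ : 0 ≤ β) (hγ : 0 ≤ γ) (e : v = α • x + β • y + γ • z) (u : D.Vt)
    (hx : u.1 ≠ x) (hy : u.1 ≠ y) (hz : u.1 ≠ z) : tau u.1 * √(B v v) < B v u.1 := by
  obtain ⟨g, i, j, l, H⟩ := h
  obtain ⟨k, hk⟩ := H.exists_min
  obtain ⟨hg, ij, jl, il, rfl, rfl, rfl, _⟩ := H
  obtain ⟨u, h, hh, m, rfl⟩ := u
  simp only at hx hy hz ⊢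
  rw [D.Vt_tau hh]
  have hvv := hv.1
  set s := √(B v v) with hs
  have hs0 : 0 < s := sqrt_pos.2 hvv
  have hss : s * s = B v v := mul_self_sqrt hvv.le
  set v' := g⁻¹ ((1/s) • v) with hv'
  have hgi := D.G.inv_mem hg
  have hv'c : v' ∈ Cone := D.sys.W_cone hgi (cone_smul hv (by positivity))
  have e' : v' = (α/s) • D.w i + (β/s) • D.w j + (γ/s) • D.w l := by
    rw [hv', map_smul, e]
    simp only [map_add, map_smul, inv_apply_apply]
    module
  have hv'v' : B v' v' = 1 := by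
    rw [hv', D.sys.W_B hgi, B_smul_left, B_smul_right, ← hss]; field_simp
  have hα' : 0 ≤ α / s := by positivity
  have hβ' : 0 ≤ β / s := by positivity
  have hγ' : 0 ≤ γ / s := by positivity
  have hF : v' ∈ D.sys.F := by
    refine ⟨hv'c, fun n => ?_⟩
    rw [e', D.sys_e]
    simp only [B_add_left, B_smul_left]
    have f1 := mul_nonpos_of_nonneg_of_nonpos hα' (D.strip.EE_le n i)
    have f2 := mul_nonpos_of_nonneg_of_nonpos hβ' (D.strip.EE_le n j)
    have f3 := mul_nonpos_of_nonneg_of_nonpos hγ' (D.strip.EE_le n l)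
    linarith
  have ki := (hk i).2 (Or.inl rfl)
  have kj := (hk j).2 (Or.inr (Or.inl rfl))
  have kl := (hk l).2 (Or.inr (Or.inr rfl))
  have h1 : B v' (DD D.t D.w k) ≤ 0 := by
    rw [e']
    simp only [B_add_left, B_smul_left]
    have f1 := mul_nonpos_of_nonneg_of_nonpos hα' (D.DD_le (k := k) (m := i) (by omega))
    have f2 := mul_nonpos_of_nonneg_of_nonpos hβ' (D.DD_le (k := k) (m := j) (by omega))
    have f3 := mul_nonpos_of_nonneg_of_nonpos hγ' (D.DD_le (k := k) (m := l) (by omega))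
    linarith
  have h2 : 0 ≤ B v' (DD D.t D.w (k + 1)) := by
    rw [e']
    simp only [B_add_left, B_smul_left]
    have f1 := mul_nonneg hα' (D.DD_ge (k := k + 1) (m := i) (by omega))
    have f2 := mul_nonneg hβ' (D.DD_ge (k := k + 1) (m := j) (by omega))
    have f3 := mul_nonneg hγ' (D.DD_ge (k := k + 1) (m := l) (by omega))
    linarith
  have hne : ∀ p, (p = k ∨ p = k + 1 ∨ p = k + 2) → (g⁻¹ * h) (D.w m) ≠ D.w p := by
    intro p hp hc
    have hc2 : h (D.w m) = g (D.w p) := by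
      rw [← hc, LinearEquiv.mul_apply, apply_inv_apply]
    rcases (hk p).1 hp with rfl | rfl | rfl
    · exact hx hc2
    · exact hy hc2
    · exact hz hc2
  have h3 := D.far_disc hF hv'v' h1 h2 (D.G.mul_mem hgi hh) (hne k (Or.inl rfl))
    (hne (k + 1) (Or.inr (Or.inl rfl))) (hne (k + 2) (Or.inr (Or.inr rfl)))
  have h4 : B v' ((g⁻¹ * h) (D.w m)) = (1/s) * B v (h (D.w m)) := by
    rw [hv', LinearEquiv.mul_apply, D.sys.W_B hgi, B_smul_left]
  rw [h4] at h3
  have h5 : (1/s) * B v (h (D.w m)) = B v (h (D.w m)) / s := by ring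
  rw [h5, lt_div_iff₀ hs0] at h3
  exact h3

theorem sqrt_U {q : ℂ} (hq : Complex.normSq q < 1) : √(B (U q) (U q)) = 1 - Complex.normSq q := by
  rw [U_self, sqrt_sq (by linarith)]

/-- a point of a face triangle (outside the three open discs) is at positive distance from the
closed discs of the other vertices -/
theorem face_far' {x y z : D.Vt} (h : D.Face x.1 y.1 z.1) {q : ℂ} (hq : Complex.normSq q < 1)
    {α β γ : ℝ} (hα : 0 ≤ α) (hβ : 0 ≤ β) (hγ : 0 ≤ γ) (e : U q = α • x.1 + β • y.1 + γ • z.1)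
    (u : D.Vt) (hx : u ≠ x) (hy : u ≠ y) (hz : u ≠ z) : rad u.1 < dist q (zc u.1) := by
  have h1 := D.face_far h (U_cone hq) hα hβ hγ e u (fun h => hx (Subtype.ext h))
    (fun h => hy (Subtype.ext h)) (fun h => hz (Subtype.ext h))
  rw [sqrt_U hq] at h1
  have h2 := B_U (D.Vt_cone u) q
  have h3 : 0 < (u.1 0 + tau u.1) * (dist q (zc u.1) ^ 2 - rad u.1 ^ 2) := by linarith
  have h4 : 0 < u.1 0 + tau u.1 := by linarith [(D.Vt_cone u).2, tau_pos (D.Vt_cone u)]
  have h5 := (mul_pos_iff_of_pos_left h4).1 h3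
  apply lt_of_pow_lt_pow_left₀ 2 dist_nonneg
  linarith

theorem dist_ge (u v : D.Vt) (h : u ≠ v) : rad u.1 + rad v.1 ≤ dist (zc u.1) (zc v.1) :=
  rad_le_dist (D.Vt_cone u) (D.Vt_cone v) (D.Vt_pack u v h)

theorem Face.facts {D : Datum} {x y z : E3} (h : D.Face x y z) : ∃ p a b, 1 < p ∧ 1 < a ∧ 1 < b ∧
    Tri3 p a b x y z ∧ 0 < det3 x y z := by
  obtain ⟨g, i, j, l, H⟩ := h
  exact ⟨_, _, _, D.t1 i, D.t1 j, D.t1 l, H.tri, H.pos⟩

theorem Face.ne {D : Datum} {x y z : E3} (h : D.Face x y z) : x ≠ y := by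
  obtain ⟨_, _, _, _, _, _, _, hd⟩ := h.facts
  rintro rfl
  have : det3 x x z = 0 := by simp only [det3]; ring
  linarith

theorem adj_dist {u v : D.Vt} (h : D.graph.Adj u v) : dist (zc u.1) (zc v.1) = rad u.1 + rad v.1 := by
  obtain ⟨c, hc⟩ := h
  obtain ⟨p, a, b, hp, ha, hb, T, _⟩ := hc.facts
  apply rad_eq_dist T.cx T.cy
  rw [T.xy, tau_eq T.xx (by linarith), tau_eq T.yy (by linarith)]

theorem face_orient {a b c : D.Vt} (h : D.Face a.1 b.1 c.1) :
    0 < (starRingEnd ℂ (zc b.1 - zc a.1) * (zc c.1 - zc a.1)).im := by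
  obtain ⟨p, a', b', hp, ha, hb, T, hd⟩ := h.facts
  exact orient_pos T hp ha hb hd

theorem cyclic {a b c d : D.Vt} (h : D.Face a.1 b.1 c.1) (hd : D.graph.Adj a d) {s t : ℝ}
    (hs : 0 < s) (ht : 0 < t) :
    zc d.1 - zc a.1 ≠ s • (zc b.1 - zc a.1) + t • (zc c.1 - zc a.1) := by
  intro he
  have ho := D.face_orient h
  have hdb : d ≠ b := by
    rintro rfl
    have := lin_indep ho (p := 1 - s) (q := -t) (by
      have : (1 - s) • (zc d.1 - zc a.1) + (-t) • (zc c.1 - zc a.1) =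
        (zc d.1 - zc a.1) - (s • (zc d.1 - zc a.1) + t • (zc c.1 - zc a.1)) := by module
      rw [this, ← he, sub_self])
    linarith [this.2]
  have hdc : d ≠ c := by
    rintro rfl
    have := lin_indep ho (p := -s) (q := 1 - t) (by
      have : (-s) • (zc b.1 - zc a.1) + (1 - t) • (zc d.1 - zc a.1) =
        (zc d.1 - zc a.1) - (s • (zc b.1 - zc a.1) + t • (zc d.1 - zc a.1)) := by module
      rw [this, ← he, sub_self])
    linarith [this.1]
  have hda : d ≠ a := hd.ne'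
  obtain ⟨p, a', b', hp, ha, hb, T, _⟩ := h.facts
  obtain ⟨q, hq, hqd, _, hJ⟩ := sector_aux T hp ha hb (D.Vt_cone d) (D.adj_dist hd)
    (D.dist_ge b d hdb.symm) (D.dist_ge c d hdc.symm) hs ht he
  obtain ⟨α, β, γ, hα, hβ, hγ, e⟩ := hull_coords T hp ha hb hq hJ
  have := D.face_far' h hq hα hβ hγ e d hda hdb hdc
  linarith

theorem near_face_vt {g : E3 ≃ₗ[ℝ] E3} (hg : g ∈ D.G) (k : ℤ) :
    D.Face (D.vtx g hg k).1 (D.vtx g hg (k + 1)).1 (D.vtx g hg (k + 2)).1 ∨
      D.Face (D.vtx g hg k).1 (D.vtx g hg (k + 2)).1 (D.vtx g hg (k + 1)).1 :=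
  D.near_face hg (by unfold Near; omega) (by unfold Near; omega) (by unfold Near; omega)

/-- every point of the disc lies in a closed hyperbolic face triangle -/
theorem exists_face {q : ℂ} (hq : Complex.normSq q < 1) :
    ∃ x y z : D.Vt, D.Face x.1 y.1 z.1 ∧ ∃ α β γ : ℝ, 0 ≤ α ∧ 0 ≤ β ∧ 0 ≤ γ ∧
      U q = α • x.1 + β • y.1 + γ • z.1 := by
  obtain ⟨g, hg, y, hy, e⟩ := D.sys.exists_chamber (U_cone hq)
  obtain ⟨k, h1, h2⟩ := D.strip.exists_k hy.1
  obtain ⟨α, β, γ, hα, hβ, hγ, e2⟩ := D.strip.coords h2.le (hy.2 k) h1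
  have e3 : U q = α • (D.vtx g hg k).1 + β • (D.vtx g hg (k + 1)).1 + γ • (D.vtx g hg (k + 2)).1 := by
    rw [e, e2, map_add, map_add, map_smul, map_smul, map_smul]; rfl
  rcases D.near_face_vt hg k with h | h
  · exact ⟨_, _, _, h, α, β, γ, hα, hβ, hγ, e3⟩
  · exact ⟨_, _, _, h, α, γ, β, hα, hγ, hβ, by rw [e3]; abel⟩

end Datum

end

end Pool.Agent.H33CP
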