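import Pool.Agent.H33CP.Mtp

/-! Infinite Dirichlet energy. -/

namespace Pool.Agent.H33CP

open Real MeasureTheory
open scoped ENNReal

noncomputable section

namespace Datum

variable (D : Datum)

theorem growth : ∃ C : ℝ, 0 < C ∧ ∀ k : ℕ, D.w k 0 ≤ C * 4 ^ k := by
  have hpos : ∀ k, 0 < D.w k 0 := fun k => (D.strip.cone k).2
  refine ⟨D.w 0 0 + D.w 1 0 + D.w 2 0, by linarith [hpos 0, hpos 1, hpos 2], ?_⟩
  set C := D.w 0 0 + D.w 1 0 + D.w 2 0 with hC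
  have h0 := hpos 0
  have h1 := hpos 1
  have h2 := hpos 2
  have key : ∀ k : ℕ, D.w k 0 ≤ C * 4 ^ k ∧ D.w (k + 1 : ℕ) 0 ≤ C * 4 ^ (k + 1) ∧
      D.w (k + 2 : ℕ) 0 ≤ C * 4 ^ (k + 2) := by
    intro k
    induction k with
    | zero =>
      refine ⟨?_, ?_, ?_⟩
      · simp only [Nat.cast_zero, pow_zero, mul_one]; linarith
      · simp only [Nat.cast_one, zero_add, pow_one]; linarith
      · simp only [zero_add, Nat.cast_ofNat]; linarith
    | succ k ih =>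
      obtain ⟨i0, i1, i2⟩ := ih
      refine ⟨i1, i2, ?_⟩
      obtain ⟨α, β, γ, hc, h⟩ := D.strip.rel k
      have e : D.w ((k + 1 + 2 : ℕ) : ℤ) 0 = -α * D.w k 0 + β * D.w (k + 1 : ℕ) 0 + γ * D.w (k + 2 : ℕ) 0 := by
        have := congrFun h 0
        simp only [Pi.add_apply, Pi.smul_apply, smul_eq_mul] at this
        push_cast
        rw [show (k:ℤ) + 1 + 2 = k + 3 by ring]
        exact this
      rw [e]
      have a0 := hpos k
      have a1 := hpos (k + 1 : ℕ)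
      have a2 := hpos (k + 2 : ℕ)
      have b1 : β * D.w (k + 1 : ℕ) 0 ≤ 22/10 * D.w (k + 1 : ℕ) 0 :=
        mul_le_mul_of_nonneg_right hc.b3 a1.le
      have b2 : γ * D.w (k + 2 : ℕ) 0 ≤ 22/10 * D.w (k + 2 : ℕ) 0 :=
        mul_le_mul_of_nonneg_right hc.g3 a2.le
      have b0 : 0 ≤ α * D.w k 0 := mul_nonneg (by linarith [hc.a1]) a0.le
      have hp : 0 < C * 4 ^ k := by positivity
      have e1 : C * 4 ^ (k + 1) = 4 * (C * 4 ^ k) := by ring
      have e2 : C * 4 ^ (k + 2) = 16 * (C * 4 ^ k) := by ring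
      have e3 : C * 4 ^ (k + 1 + 2) = 64 * (C * 4 ^ k) := by ring
      rw [e1] at i1
      rw [e2] at i2
      rw [e3]
      linarith
  exact fun k => (key k).1

theorem rad_lower : ∃ c : ℝ, 0 < c ∧ ∀ k : ℕ, c ≤ 4 ^ k * rad (D.w k) := by
  obtain ⟨C, hC, h⟩ := D.growth
  refine ⟨1 / (C + 2), by positivity, fun k => ?_⟩
  have h1 : tau (D.w k) = D.t k := tau_eq (D.strip.self k) (by linarith [D.t1 k])
  have h2 := (D.strip.cone k).2
  have h3 : (1:ℝ) ≤ 4 ^ k := one_le_pow₀ (by norm_num)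
  have h4 : 0 < D.w k 0 + tau (D.w k) := by rw [h1]; linarith [D.t1 k]
  unfold rad
  rw [mul_one_div, div_le_div_iff₀ (by positivity) h4, h1]
  have := h k
  have := D.t2 k
  nlinarith

/-- neighbours of `w k` of type `k + 1` -/
def nb (k : ℤ) (n : ℕ) : D.Vt := D.vtx (D.aa k n) (D.K_le k (D.aa_mem k n)) (k + 1)

theorem nb_adj (k : ℤ) (n : ℕ) : D.graph.Adj (D.base k) (D.nb k n) := by
  have h := D.adj_near (D.K_le k (D.aa_mem k n)) (i := k) (j := k + 1) (by unfold Near; omega)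
  have e : D.vtx (D.aa k n) (D.K_le k (D.aa_mem k n)) k = D.base k := by
    apply Subtype.ext
    exact D.K_fix k (D.aa_mem k n)
  rw [e] at h
  exact h

theorem nb_inj (k : ℤ) {m n : ℕ} (hm : m ≤ 2 * D.N k) (hn : n ≤ 2 * D.N k)
    (e : D.nb k m = D.nb k n) : m = n := by
  have h1 := D.strip.EE_far (k - 2) (k + 1) (by omega) (by omega)
  have h2 := D.strip.EE_far k (k + 1) (by omega) (by omega)
  exact D.aa_inj k (by linarith) (by linarith) hm hn (congrArg Subtype.val e)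

/-- edges used for the lower bound -/
def edg (p : Σ k : ℕ, Fin (2 * D.N k)) : D.T.G.edgeSet :=
  ⟨s(D.base p.1, D.nb p.1 p.2), D.nb_adj p.1 p.2⟩

theorem edg_inj : Function.Injective D.edg := by
  rintro ⟨k, m⟩ ⟨l, n⟩ e
  have e1 : s(D.base k, D.nb k m) = s(D.base l, D.nb l n) := congrArg Subtype.val e
  have hg : ∀ (k : ℤ) (n : ℕ), D.aa k n ∈ D.G := fun k n => D.K_le k (D.aa_mem k n)
  have tb : ∀ k l : ℤ, D.base k = D.base l → k = l := by
    intro k l h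
    exact D.strip.w_inj (congrArg Subtype.val h)
  rw [Sym2.eq_iff] at e1
  rcases e1 with ⟨h1, h2⟩ | ⟨h1, h2⟩
  · have h3 : (k : ℤ) = l := tb k l h1
    have h4 : k = l := by exact_mod_cast h3
    subst h4
    have h5 := D.nb_inj k (by omega) (by omega) h2
    have h6 : m = n := Fin.ext h5
    rw [h6]
  · exfalso
    have h3 : (k : ℤ) = l + 1 := by
      have : (1 : E3 ≃ₗ[ℝ] E3) (D.w k) = D.aa l n (D.w (l + 1)) := congrArg Subtype.val h1
      exact D.type_inj D.G.one_mem (hg _ _) this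
    have h4 : (k : ℤ) + 1 = l := by
      have : D.aa k m (D.w (k + 1)) = (1 : E3 ≃ₗ[ℝ] E3) (D.w l) := congrArg Subtype.val h2
      exact D.type_inj (hg _ _) D.G.one_mem this
    omega

theorem edg_ge (p : Σ k : ℕ, Fin (2 * D.N k)) :
    ENNReal.ofReal (rad (D.w p.1) ^ 2) ≤ D.P.edgeSq (D.edg p) := by
  obtain ⟨k, n⟩ := p
  have h : D.P.edgeSq (D.edg ⟨k, n⟩) =
      ENNReal.ofReal (‖zc (D.base k).1 - zc (D.nb k n).1‖ ^ 2) := rfl
  rw [h]
  apply ENNReal.ofReal_le_ofReal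
  have h1 := D.adj_dist (D.nb_adj k n)
  rw [Complex.dist_eq] at h1
  rw [h1, base_val]
  have h2 := rad_pos (D.strip.cone k)
  have h3 := rad_pos (D.Vt_cone (D.nb k n))
  apply pow_le_pow_left₀ h2.le
  linarith

theorem energy_top (hN : ∀ k : ℕ, 100 ^ k ≤ D.N k) : D.P.energy = ⊤ := by
  obtain ⟨c, hc, hr⟩ := D.rad_lower
  have h1 : ∑' p : (Σ k : ℕ, Fin (2 * D.N k)), D.P.edgeSq (D.edg p) ≤ D.P.energy := by
    have := ENNReal.tsum_comp_le_tsum_of_injective D.edg_inj (fun e : D.T.G.edgeSet => D.P.edgeSq e)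
    exact this
  have h2 : ∑' p : (Σ k : ℕ, Fin (2 * D.N k)), ENNReal.ofReal (rad (D.w p.1) ^ 2) ≤
      ∑' p : (Σ k : ℕ, Fin (2 * D.N k)), D.P.edgeSq (D.edg p) :=
    ENNReal.tsum_le_tsum D.edg_ge
  have h3 : ∑' p : (Σ k : ℕ, Fin (2 * D.N k)), ENNReal.ofReal (rad (D.w p.1) ^ 2) =
      ∑' k : ℕ, (2 * D.N k : ℝ≥0∞) * ENNReal.ofReal (rad (D.w k) ^ 2) := by
    rw [ENNReal.tsum_sigma']
    congr 1
    funext k
    simp only [tsum_fintype, Finset.sum_const, nsmul_eq_mul, Finset.card_univ, Fintype.card_fin]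
    push_cast
    rfl
  have h4 : ∑' _ : ℕ, ENNReal.ofReal (c ^ 2) ≤
      ∑' k : ℕ, (2 * D.N k : ℝ≥0∞) * ENNReal.ofReal (rad (D.w k) ^ 2) := by
    apply ENNReal.tsum_le_tsum
    intro k
    have e : (2 * D.N k : ℝ≥0∞) * ENNReal.ofReal (rad (D.w k) ^ 2) =
        ENNReal.ofReal (2 * (D.N k : ℝ) * rad (D.w k) ^ 2) := by
      rw [ENNReal.ofReal_mul (by positivity), ENNReal.ofReal_mul (by norm_num),
        ENNReal.ofReal_natCast, ENNReal.ofReal_ofNat]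
    rw [e]
    apply ENNReal.ofReal_le_ofReal
    have a1 := hr k
    have a2 : (100:ℝ) ^ k ≤ D.N k := by exact_mod_cast hN k
    have a3 := rad_pos (D.strip.cone k)
    have a4 : c ^ 2 ≤ (4 ^ k * rad (D.w k)) ^ 2 := pow_le_pow_left₀ hc.le a1 2
    have a5 : (4 ^ k * rad (D.w k)) ^ 2 = 16 ^ k * rad (D.w k) ^ 2 := by
      rw [mul_pow, ← pow_mul, mul_comm k 2, pow_mul]; norm_num
    have a6 : (16:ℝ) ^ k ≤ 100 ^ k := pow_le_pow_left₀ (by norm_num) (by norm_num) k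
    rw [a5] at a4
    have a7 : 16 ^ k * rad (D.w k) ^ 2 ≤ 2 * (D.N k : ℝ) * rad (D.w k) ^ 2 := by
      apply mul_le_mul_of_nonneg_right _ (by positivity)
      have : (0:ℝ) ≤ D.N k := by positivity
      linarith
    linarith
  have h5 : ∑' _ : ℕ, ENNReal.ofReal (c ^ 2) = ⊤ := by
    apply ENNReal.tsum_const_eq_top_of_ne_zero
    rw [ne_eq, ENNReal.ofReal_eq_zero, not_le]
    positivity
  rw [eq_top_iff]
  calc ⊤ = ∑' _ : ℕ, ENNReal.ofReal (c ^ 2) := h5.symm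
    _ ≤ _ := h4
    _ = _ := h3.symm
    _ ≤ _ := h2
    _ ≤ _ := h1

theorem Z_ne_top (hN : ∀ k : ℤ, 2 ^ k.natAbs ≤ D.N k) : D.Z ≠ ⊤ := by
  unfold Z
  have h1 : ∀ k : ℤ, (D.ord k : ℝ≥0∞)⁻¹ ≤ ((2:ℝ≥0∞)⁻¹) ^ k.natAbs := by
    intro k
    rw [← ENNReal.inv_pow]
    apply ENNReal.inv_le_inv.2
    have := (hN k).trans (D.St_card k)
    exact_mod_cast this
  have h2 : ∑' k : ℤ, ((2:ℝ≥0∞)⁻¹) ^ k.natAbs ≠ ⊤ := by
    have h3 : ∑' k : ℤ, ((2:ℝ≥0∞)⁻¹) ^ k.natAbs ≤ ∑' n : ℕ, ((2:ℝ≥0∞)⁻¹) ^ n + ∑' n : ℕ, ((2:ℝ≥0∞)⁻¹) ^ n := by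
      have e := tsum_of_nat_of_neg_add_one (f := fun k : ℤ => ((2:ℝ≥0∞)⁻¹) ^ k.natAbs)
        ENNReal.summable ENNReal.summable
      rw [e]
      apply add_le_add
      · apply le_of_eq; rfl
      · apply ENNReal.tsum_le_tsum
        intro n
        have : (-((n:ℤ) + 1)).natAbs = n + 1 := by omega
        rw [this, pow_succ]
        calc ((2:ℝ≥0∞)⁻¹) ^ n * 2⁻¹ ≤ ((2:ℝ≥0∞)⁻¹) ^ n * 1 := by
              gcongr
              rw [ENNReal.inv_le_one]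
              norm_num
          _ = _ := mul_one _
    have h4 : ∑' n : ℕ, ((2:ℝ≥0∞)⁻¹) ^ n = 2 := by
      rw [ENNReal.tsum_geometric, ENNReal.one_sub_inv_two, inv_inv]
    rw [h4] at h3
    exact ne_top_of_le_ne_top (by norm_num) h3
  exact ne_top_of_le_ne_top h2 (ENNReal.tsum_le_tsum h1)

end Datum

/-- existence of the data -/
theorem exists_datum : ∃ D : Datum, (∀ k : ℕ, 100 ^ k ≤ D.N k) ∧ (∀ k : ℤ, 2 ^ k.natAbs ≤ D.N k) := by
  obtain ⟨t, ht, hA⟩ := exists_radii (fun k => 2 * (2 * 100 ^ k.natAbs)) (by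
    intro k
    have : 1 ≤ 100 ^ k.natAbs := Nat.one_le_pow _ _ (by norm_num)
    omega)
  obtain ⟨w, hw⟩ := exists_strip t ht
  refine ⟨⟨t, w, fun k => 2 * 100 ^ k.natAbs, ?_, hw, ?_⟩, ?_, ?_⟩
  · intro k
    change 1 ≤ 2 * 100 ^ k.natAbs
    have : 1 ≤ 100 ^ k.natAbs := Nat.one_le_pow _ _ (by norm_num)
    omega
  · intro k
    rw [hA]
    push_cast
    rfl
  · intro k
    change 100 ^ k ≤ 2 * 100 ^ (k : ℤ).natAbs
    simp only [Int.natAbs_natCast]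
    omega
  · intro k
    change 2 ^ k.natAbs ≤ 2 * 100 ^ k.natAbs
    have : 2 ^ k.natAbs ≤ 100 ^ k.natAbs := Nat.pow_le_pow_left (by norm_num) _
    omega

end

end Pool.Agent.H33CP
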