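import Pool.Agent.H33CP.Chamber

/-! Euclidean discs of the circles and the geometry of a tangent triple. -/

namespace Pool.Agent.H33CP

open Real

noncomputable section

/-- the parameter `t = coth r` of a circle vector -/
def tau (x : E3) : ℝ := √(1 + B x x)

/-- Euclidean centre in the Poincare disc -/
def zc (x : E3) : ℂ := ⟨x 1 / (x 0 + tau x), x 2 / (x 0 + tau x)⟩

/-- Euclidean radius -/
def rad (x : E3) : ℝ := 1 / (x 0 + tau x)

theorem tau_eq {x : E3} {t : ℝ} (h : B x x = t ^ 2 - 1) (ht : 0 ≤ t) : tau x = t := by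
  unfold tau
  rw [h, show 1 + (t ^ 2 - 1) = t ^ 2 by ring, sqrt_sq ht]

theorem tau_pos {x : E3} (hx : x ∈ Cone) : 1 < tau x := by
  have h := hx.1
  have : √1 < tau x := sqrt_lt_sqrt (by norm_num) (by linarith)
  simpa using this

theorem tau_sq {x : E3} (hx : x ∈ Cone) : B x x = tau x ^ 2 - 1 := by
  have h := hx.1
  unfold tau
  rw [sq_sqrt (by linarith)]; ring

theorem rad_pos {x : E3} (hx : x ∈ Cone) : 0 < rad x := by
  have h1 := hx.2
  have h2 := tau_pos hx
  unfold rad; positivity

theorem dist_sq {x y : E3} (hx : x ∈ Cone) (hy : y ∈ Cone) :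
    dist (zc x) (zc y) ^ 2 = (rad x + rad y) ^ 2 +
      2 * (B x y - 1 - tau x * tau y) / ((x 0 + tau x) * (y 0 + tau y)) := by
  have hx1 := tau_sq hx
  have hy1 := tau_sq hy
  have hx2 := tau_pos hx
  have hy2 := tau_pos hy
  have h1 : x 0 + tau x ≠ 0 := by linarith [hx.2]
  have h2 : y 0 + tau y ≠ 0 := by linarith [hy.2]
  rw [Complex.dist_eq, Complex.sq_norm, Complex.normSq_apply]
  unfold zc rad
  simp only [Complex.sub_re, Complex.sub_im]
  generalize tau x = t at *
  generalize tau y = s at *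
  unfold B at *
  field_simp
  linear_combination (-(y 0 + s) ^ 2) * hx1 + (-(x 0 + t) ^ 2) * hy1

theorem rad_le_dist {x y : E3} (hx : x ∈ Cone) (hy : y ∈ Cone) (h : 1 + tau x * tau y ≤ B x y) :
    rad x + rad y ≤ dist (zc x) (zc y) := by
  have h1 := dist_sq hx hy
  have h2 := rad_pos hx
  have h3 := rad_pos hy
  have h4 : 0 < x 0 + tau x := by linarith [hx.2, tau_pos hx]
  have h5 : 0 < y 0 + tau y := by linarith [hy.2, tau_pos hy]
  have h6 : 0 ≤ 2 * (B x y - 1 - tau x * tau y) / ((x 0 + tau x) * (y 0 + tau y)) := by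
    apply div_nonneg
    · linarith
    · positivity
  apply le_of_sq_le_sq _ dist_nonneg
  linarith

theorem rad_eq_dist {x y : E3} (hx : x ∈ Cone) (hy : y ∈ Cone) (h : B x y = 1 + tau x * tau y) :
    dist (zc x) (zc y) = rad x + rad y := by
  have h1 := dist_sq hx hy
  rw [h, show 2 * (1 + tau x * tau y - 1 - tau x * tau y) = 0 by ring, zero_div, add_zero] at h1
  exact (pow_left_inj₀ dist_nonneg (by linarith [rad_pos hx, rad_pos hy]) (by norm_num)).1 h1

/-- lift of a point of the disc -/
def U (p : ℂ) : E3 := ![1 + Complex.normSq p, 2 * p.re, 2 * p.im]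

theorem U_self (p : ℂ) : B (U p) (U p) = (1 - Complex.normSq p) ^ 2 := by
  simp [B, U, Complex.normSq_apply]; ring

theorem U_cone {p : ℂ} (hp : Complex.normSq p < 1) : U p ∈ Cone := by
  refine ⟨?_, ?_⟩
  · rw [U_self]; have : 0 < 1 - Complex.normSq p := by linarith
    positivity
  · simp only [U, Matrix.cons_val_zero]
    linarith [Complex.normSq_nonneg p]

theorem B_U {x : E3} (hx : x ∈ Cone) (p : ℂ) :
    B (U p) x - tau x * (1 - Complex.normSq p) = (x 0 + tau x) * (dist p (zc x) ^ 2 - rad x ^ 2) := by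
  have hx1 := tau_sq hx
  have hx2 := tau_pos hx
  have h1 : x 0 + tau x ≠ 0 := by linarith [hx.2]
  rw [Complex.dist_eq, Complex.sq_norm, Complex.normSq_apply, Complex.normSq_apply]
  unfold zc rad
  simp only [Complex.sub_re, Complex.sub_im]
  simp only [B, U, Matrix.cons_val_zero, Matrix.cons_val_one, Matrix.cons_val,
    Complex.normSq_apply] at *
  generalize tau x = t at *
  field_simp
  linear_combination hx1

/-- closed discs lie in the open unit disc -/
theorem zc_add_rad {x : E3} (hx : x ∈ Cone) : ‖zc x‖ + rad x < 1 := by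
  have hx1 := tau_sq hx
  have hx2 := tau_pos hx
  have h0 := hx.2
  have h1 : 0 < x 0 + tau x := by linarith
  have h2 : ‖zc x‖ < 1 - rad x := by
    apply lt_of_pow_lt_pow_left₀ 2
    · unfold rad
      rw [sub_nonneg, div_le_one h1]; linarith
    · rw [Complex.sq_norm, Complex.normSq_apply]
      unfold zc rad
      simp only
      generalize tau x = t at *
      unfold B at hx1
      rw [← sub_pos]
      have e : (1 - 1 / (x 0 + t)) ^ 2 - (x 1 / (x 0 + t) * (x 1 / (x 0 + t)) +
          x 2 / (x 0 + t) * (x 2 / (x 0 + t))) = (t - 1) * 2 / (x 0 + t) := by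
        field_simp
        linear_combination hx1
      rw [e]
      apply div_pos _ h1
      linarith
  linarith

/-- real lemma -/
theorem coord_nonneg {α β γ p a b : ℝ} (hp : 0 < p) (ha : 0 < a) (hb : 0 < b)
    (hQ : 0 ≤ 2 * α * β + 2 * α * γ + 2 * β * γ - α ^ 2 - β ^ 2 - γ ^ 2)
    (hL : 0 < α * p + β * a + γ * b) : 0 ≤ α := by
  by_contra hα
  push Not at hα
  have h1 : β + γ < 0 := by
    by_contra hc
    push Not at hc
    nlinarith [sq_nonneg (β - γ), mul_nonpos_of_nonpos_of_nonneg hα.le hc, mul_pos_of_neg_of_neg hα hα]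
  have h2 : β ≤ 0 := by
    by_contra hc
    push Not at hc
    have h3 : α + γ < 0 := by linarith
    have h4 : β * (α + γ) < 0 := mul_neg_of_pos_of_neg hc h3
    nlinarith [sq_nonneg (α - γ), sq_nonneg β]
  have h3 : γ ≤ 0 := by
    by_contra hc
    push Not at hc
    have h3 : α + β < 0 := by linarith
    have h4 : γ * (α + β) < 0 := mul_neg_of_pos_of_neg hc h3
    nlinarith [sq_nonneg (α - β), sq_nonneg γ]
  have h4 : α * p < 0 := mul_neg_of_neg_of_pos hα hp
  have h5 : β * a ≤ 0 := mul_nonpos_of_nonpos_of_nonneg h2 ha.le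
  have h6 : γ * b ≤ 0 := mul_nonpos_of_nonpos_of_nonneg h3 hb.le
  linarith

/-- the incircle vector -/
def JJ (p a b : ℝ) (x y z : E3) : E3 :=
  (1 / (2 * (1 + p * a + p * b + a * b))) • ((a + b) • x + (p + b) • y + (p + a) • z)

section triple

variable {p a b : ℝ} {x y z : E3} (h : Tri3 p a b x y z) (hp : 1 < p) (ha : 1 < a) (hb : 1 < b)

include h hp ha hb

theorem JJ_x : B x (JJ p a b x y z) = p := by
  have : 0 < 1 + p * a + p * b + a * b := by positivity
  unfold JJ
  simp only [B_smul_right, B_add_right]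
  rw [h.xx, h.xy, h.xz]
  field_simp; ring

theorem JJ_y : B y (JJ p a b x y z) = a := by
  have : 0 < 1 + p * a + p * b + a * b := by positivity
  unfold JJ
  simp only [B_smul_right, B_add_right]
  rw [B_comm y x, h.xy, h.yy, h.yz]
  field_simp; ring

theorem JJ_z : B z (JJ p a b x y z) = b := by
  have : 0 < 1 + p * a + p * b + a * b := by positivity
  unfold JJ
  simp only [B_smul_right, B_add_right]
  rw [B_comm z x, B_comm z y, h.xz, h.yz, h.zz]
  field_simp; ring

theorem JJ_cone : JJ p a b x y z ∈ Cone := by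
  have : 0 < 1 + p * a + p * b + a * b := by positivity
  unfold JJ
  exact cone_smul (cone_add (cone_add (cone_smul h.cx (by positivity)) (cone_smul h.cy (by positivity)))
    (cone_smul h.cz (by positivity))) (by positivity)

theorem tri_det_ne : det3 x y z ≠ 0 := by
  have h1 := det3_tri h
  have : 0 < 1 + p * a + p * b + a * b := by positivity
  intro h0
  rw [h0] at h1
  linarith

/-- a vector inside the incircle has nonnegative coordinates -/
theorem in_cone_of_Q {v : E3} (hQ : B v (JJ p a b x y z) ^ 2 ≤ B v v)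
    (hL : 0 < B v (JJ p a b x y z)) :
    ∃ α β γ : ℝ, 0 ≤ α ∧ 0 ≤ β ∧ 0 ≤ γ ∧ v = α • x + β • y + γ • z := by
  have hd := tri_det_ne h hp ha hb
  have e := expand hd v
  set α := det3 v y z / det3 x y z
  set β := det3 x v z / det3 x y z
  set γ := det3 x y v / det3 x y z
  have h1 : B v (JJ p a b x y z) = α * p + β * a + γ * b := by
    conv_lhs => rw [e]
    simp only [B_add_left, B_smul_left]
    rw [JJ_x h hp ha hb, JJ_y h hp ha hb, JJ_z h hp ha hb]
  have h2 : B v v = α ^ 2 * (p ^ 2 - 1) + β ^ 2 * (a ^ 2 - 1) + γ ^ 2 * (b ^ 2 - 1)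
      + 2 * α * β * (1 + p * a) + 2 * α * γ * (1 + p * b) + 2 * β * γ * (1 + a * b) := by
    conv_lhs => rw [e]
    simp only [B_add_left, B_smul_left, B_add_right, B_smul_right]
    rw [B_comm y x, B_comm z x, B_comm z y, h.xx, h.yy, h.zz, h.xy, h.xz, h.yz]
    ring
  rw [h1, h2] at hQ
  rw [h1] at hL
  refine ⟨α, β, γ, ?_, ?_, ?_, e⟩
  · exact coord_nonneg (p := p) (a := a) (b := b) (β := β) (γ := γ)
      (by linarith) (by linarith) (by linarith) (by linarith) hL
  · exact coord_nonneg (p := a) (a := p) (b := b) (β := α) (γ := γ)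
      (by linarith) (by linarith) (by linarith) (by linarith) (by linarith)
  · exact coord_nonneg (p := b) (a := p) (b := a) (β := α) (γ := β)
      (by linarith) (by linarith) (by linarith) (by linarith) (by linarith)

omit h hp ha hb in
/-- the affine lift adapted to `J` -/
theorem lift_facts {J : E3} (hJ : J ∈ Cone) (q : ℂ) (hq : Complex.normSq q < 1) :
    ∃ X : E3, X 1 = q.re ∧ X 2 = q.im ∧
      X 0 = 1 - (J 0 - J 1 * q.re - J 2 * q.im) / (1 + J 0) ∧
      B X J = 1 - X 0 ∧ 0 < B X J ∧
      B X X - B X J ^ 2 = 1 - Complex.normSq q - 2 * (1 - X 0) ∧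
      (B (U q) J ≤ 1 - Complex.normSq q ↔ B X J ^ 2 ≤ B X X) := by
  set L := (J 0 - J 1 * q.re - J 2 * q.im) / (1 + J 0) with hL
  have hJ0 := hJ.2
  have h1 : 1 + J 0 ≠ 0 := by linarith
  have hLL : L * (1 + J 0) = J 0 - J 1 * q.re - J 2 * q.im := by rw [hL]; field_simp
  have hpos : 0 < L := by
    have h2 : (![1, q.re, q.im] : E3) ∈ Cone := by
      refine ⟨?_, by simp⟩
      simp only [B, Matrix.cons_val_zero, Matrix.cons_val_one, Matrix.cons_val]
      rw [Complex.normSq_apply] at hq
      linarith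
    have h3 := cone_pos h2 hJ
    simp only [B, Matrix.cons_val_zero, Matrix.cons_val_one, Matrix.cons_val] at h3
    rw [hL]
    apply div_pos <;> linarith
  refine ⟨![1 - L, q.re, q.im], rfl, rfl, rfl, ?_, ?_, ?_, ?_⟩
  · simp only [B, Matrix.cons_val_zero, Matrix.cons_val_one, Matrix.cons_val]
    linear_combination (-1) * hLL
  · simp only [B, Matrix.cons_val_zero, Matrix.cons_val_one, Matrix.cons_val]
    have : (1 - L) * J 0 - q.re * J 1 - q.im * J 2 = L := by linear_combination (-1) * hLL
    rw [this]; exact hpos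
  · have hBJ : B (![1 - L, q.re, q.im] : E3) J = L := by
      simp only [B, Matrix.cons_val_zero, Matrix.cons_val_one, Matrix.cons_val]
      linear_combination (-1) * hLL
    rw [hBJ, Complex.normSq_apply]
    simp only [B, Matrix.cons_val_zero, Matrix.cons_val_one, Matrix.cons_val]
    ring
  · have hBJ : B (![1 - L, q.re, q.im] : E3) J = L := by
      simp only [B, Matrix.cons_val_zero, Matrix.cons_val_one, Matrix.cons_val]
      linear_combination (-1) * hLL
    have e1 : B (![1 - L, q.re, q.im] : E3) (![1 - L, q.re, q.im] : E3) - L ^ 2 =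
        1 - Complex.normSq q - 2 * L := by
      rw [Complex.normSq_apply]
      simp only [B, Matrix.cons_val_zero, Matrix.cons_val_one, Matrix.cons_val]
      ring
    have e2 : B (U q) J - (1 - Complex.normSq q) = (1 + J 0) * (2 * L - (1 - Complex.normSq q)) := by
      simp only [B, U, Matrix.cons_val_zero, Matrix.cons_val_one, Matrix.cons_val]
      linear_combination (-2) * hLL
    rw [hBJ]
    constructor
    · intro h3
      have h4 : (1 + J 0) * (2 * L - (1 - Complex.normSq q)) ≤ 0 := by linarith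
      have h5 : 2 * L - (1 - Complex.normSq q) ≤ 0 := by
        by_contra hc
        push Not at hc
        have : 0 < (1 + J 0) * (2 * L - (1 - Complex.normSq q)) := by positivity
        linarith
      linarith
    · intro h3
      have h5 : 2 * L - (1 - Complex.normSq q) ≤ 0 := by linarith
      have : (1 + J 0) * (2 * L - (1 - Complex.normSq q)) ≤ 0 :=
        mul_nonpos_of_nonneg_of_nonpos (by linarith) h5
      linarith

/-- the incircle is contained in the Euclidean triangle -/
theorem in_hull {q : ℂ} (hq : Complex.normSq q < 1)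
    (h1 : B (U q) (JJ p a b x y z) ≤ 1 - Complex.normSq q) :
    ∃ u v s : ℝ, 0 ≤ u ∧ 0 ≤ v ∧ 0 ≤ s ∧ u + v + s = 1 ∧ q = u • zc x + v • zc y + s • zc z := by
  obtain ⟨X, X1, X2, X0, hXJ, hpos, _, hiff⟩ := lift_facts (JJ_cone h hp ha hb) q hq
  obtain ⟨α, β, γ, hα, hβ, hγ, e⟩ := in_cone_of_Q h hp ha hb (hiff.1 h1) hpos
  have tx := tau_eq h.xx (by linarith)
  have ty := tau_eq h.yy (by linarith)
  have tz := tau_eq h.zz (by linarith)
  have x0 := h.cx.2
  have y0 := h.cy.2
  have z0 := h.cz.2
  have n1 : x 0 + p ≠ 0 := by linarith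
  have n2 : y 0 + a ≠ 0 := by linarith
  have n3 : z 0 + b ≠ 0 := by linarith
  have hJ : B X (JJ p a b x y z) = α * p + β * a + γ * b := by
    conv_lhs => rw [e]
    simp only [B_add_left, B_smul_left]
    rw [JJ_x h hp ha hb, JJ_y h hp ha hb, JJ_z h hp ha hb]
  have e0 : X 0 = α * x 0 + β * y 0 + γ * z 0 := by rw [e]; rfl
  have e1 : X 1 = α * x 1 + β * y 1 + γ * z 1 := by rw [e]; rfl
  have e2 : X 2 = α * x 2 + β * y 2 + γ * z 2 := by rw [e]; rfl
  refine ⟨α * (x 0 + p), β * (y 0 + a), γ * (z 0 + b), by positivity, by positivity, by positivity,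
    ?_, ?_⟩
  · rw [hXJ] at hJ
    linarith
  · apply Complex.ext
    · simp only [Complex.add_re, Complex.real_smul, Complex.mul_re, Complex.ofReal_re,
        Complex.ofReal_im, zero_mul, sub_zero, zc, tx, ty, tz]
      rw [← X1, e1]; field_simp
    · simp only [Complex.add_im, Complex.real_smul, Complex.mul_im, Complex.ofReal_re,
        Complex.ofReal_im, zero_mul, add_zero, zc, tx, ty, tz]
      rw [← X2, e2]; field_simp

/-- points of the Euclidean triangle outside the three discs lie in the hyperbolic triangle -/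
theorem hull_lift {q : ℂ} (hq : Complex.normSq q < 1) {u v s : ℝ} (hu : 0 ≤ u) (hv : 0 ≤ v)
    (hs : 0 ≤ s) (hsum : u + v + s = 1) (hqe : q = u • zc x + v • zc y + s • zc z)
    (dx : rad x ≤ dist q (zc x)) (dy : rad y ≤ dist q (zc y)) (dz : rad z ≤ dist q (zc z)) :
    B (U q) (JJ p a b x y z) ≤ 1 - Complex.normSq q := by
  obtain ⟨X, X1, X2, X0, hXJ, hpos, hXX, hiff⟩ := lift_facts (JJ_cone h hp ha hb) q hq
  rw [hiff]
  have hJc := JJ_cone h hp ha hb
  have jx := JJ_x h hp ha hb
  have jy := JJ_y h hp ha hb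
  have jz := JJ_z h hp ha hb
  set J := JJ p a b x y z with hJdef
  have J0 := hJc.2
  have key : ∀ w : E3, w ∈ Cone → B w J = tau w → 0 ≤ dist q (zc w) ^ 2 - rad w ^ 2 →
      dist q (zc w) ^ 2 - rad w ^ 2 = Complex.normSq q - 2 * (q.re * (zc w).re + q.im * (zc w).im)
        + 1 - 2 * (tau w * rad w) ∧
      J 0 - J 1 * (zc w).re - J 2 * (zc w).im = (1 + J 0) * (tau w * rad w) := by
    intro w hw hwJ _
    have hw1 := tau_sq hw
    have hw2 := tau_pos hw
    have h1 : w 0 + tau w ≠ 0 := by linarith [hw.2]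
    constructor
    · rw [Complex.dist_eq, Complex.sq_norm, Complex.normSq_apply, Complex.normSq_apply]
      unfold zc rad
      simp only [Complex.sub_re, Complex.sub_im]
      generalize tau w = t at *
      unfold B at hw1
      field_simp
      linear_combination (-1) * hw1
    · unfold zc rad
      simp only
      unfold B at hwJ
      field_simp
      linear_combination hwJ
  have sq : ∀ w : E3, w ∈ Cone → rad w ≤ dist q (zc w) → 0 ≤ dist q (zc w) ^ 2 - rad w ^ 2 := by
    intro w hw hd
    have := rad_pos hw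
    nlinarith
  have tx := tau_eq h.xx (by linarith)
  have ty := tau_eq h.yy (by linarith)
  have tz := tau_eq h.zz (by linarith)
  have sx := sq x h.cx dx
  have sy := sq y h.cy dy
  have sz := sq z h.cz dz
  obtain ⟨kx1, kx2⟩ := key x h.cx (by rw [jx, tx]) sx
  obtain ⟨ky1, ky2⟩ := key y h.cy (by rw [jy, ty]) sy
  obtain ⟨kz1, kz2⟩ := key z h.cz (by rw [jz, tz]) sz
  have hre : q.re = u * (zc x).re + v * (zc y).re + s * (zc z).re := by
    rw [hqe]; simp
  have him : q.im = u * (zc x).im + v * (zc y).im + s * (zc z).im := by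
    rw [hqe]; simp
  have hL : (1 + J 0) * (1 - X 0) = J 0 - J 1 * q.re - J 2 * q.im := by
    rw [X0]; field_simp; ring
  have hL2 : 1 - X 0 = u * (tau x * rad x) + v * (tau y * rad y) + s * (tau z * rad z) := by
    have h2 : (1 + J 0) * (1 - X 0) = (1 + J 0) *
        (u * (tau x * rad x) + v * (tau y * rad y) + s * (tau z * rad z)) := by
      rw [hL, hre, him]
      linear_combination u * kx2 + v * ky2 + s * kz2 - J 0 * hsum
    exact mul_left_cancel₀ (by linarith) h2
  have hsumD : u * (dist q (zc x) ^ 2 - rad x ^ 2) + v * (dist q (zc y) ^ 2 - rad y ^ 2)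
      + s * (dist q (zc z) ^ 2 - rad z ^ 2) = 1 - Complex.normSq q - 2 * (1 - X 0) := by
    rw [kx1, ky1, kz1, hL2, Complex.normSq_apply]
    have : u = 1 - v - s := by linarith
    linear_combination (q.re * q.re + q.im * q.im + 1) * hsum + 2 * q.re * hre + 2 * q.im * him
  have : 0 ≤ u * (dist q (zc x) ^ 2 - rad x ^ 2) + v * (dist q (zc y) ^ 2 - rad y ^ 2)
      + s * (dist q (zc z) ^ 2 - rad z ^ 2) := by positivity
  linarith

theorem hull_coords {q : ℂ} (hq : Complex.normSq q < 1)
    (h1 : B (U q) (JJ p a b x y z) ≤ 1 - Complex.normSq q) :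
    ∃ α β γ : ℝ, 0 ≤ α ∧ 0 ≤ β ∧ 0 ≤ γ ∧ U q = α • x + β • y + γ • z := by
  have hpos := cone_pos (U_cone hq) (JJ_cone h hp ha hb)
  apply in_cone_of_Q h hp ha hb _ hpos
  rw [U_self]
  exact pow_le_pow_left₀ hpos.le h1 2

/-- points of the hyperbolic triangle outside the three discs lie in the incircle -/
theorem tri_in {q : ℂ} (hq : Complex.normSq q < 1) {α β γ : ℝ} (hα : 0 ≤ α) (hβ : 0 ≤ β)
    (hγ : 0 ≤ γ) (e : U q = α • x + β • y + γ • z) (dx : rad x ≤ dist q (zc x))
    (dy : rad y ≤ dist q (zc y)) (dz : rad z ≤ dist q (zc z)) :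
    B (U q) (JJ p a b x y z) ≤ 1 - Complex.normSq q := by
  have tx := tau_eq h.xx (by linarith)
  have ty := tau_eq h.yy (by linarith)
  have tz := tau_eq h.zz (by linarith)
  have key : ∀ w : E3, w ∈ Cone → rad w ≤ dist q (zc w) →
      tau w * (1 - Complex.normSq q) ≤ B (U q) w := by
    intro w hw hd
    have h1 := B_U hw q
    have h2 := rad_pos hw
    have h3 : 0 ≤ (w 0 + tau w) * (dist q (zc w) ^ 2 - rad w ^ 2) := by
      apply mul_nonneg
      · linarith [hw.2, tau_pos hw]
      · nlinarith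
    linarith
  have kx := key x h.cx dx
  have ky := key y h.cy dy
  have kz := key z h.cz dz
  rw [tx] at kx
  rw [ty] at ky
  rw [tz] at kz
  have hJ : B (U q) (JJ p a b x y z) = α * p + β * a + γ * b := by
    conv_lhs => rw [e]
    simp only [B_add_left, B_smul_left]
    rw [JJ_x h hp ha hb, JJ_y h hp ha hb, JJ_z h hp ha hb]
  have hUU : B (U q) (U q) = α * B (U q) x + β * B (U q) y + γ * B (U q) z := by
    conv_lhs => rhs; rw [e]
    simp only [B_add_right, B_smul_right]
  have hd : 0 < 1 - Complex.normSq q := by linarith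
  have h1 := mul_le_mul_of_nonneg_left kx hα
  have h2 := mul_le_mul_of_nonneg_left ky hβ
  have h3 := mul_le_mul_of_nonneg_left kz hγ
  rw [U_self] at hUU
  have h4 : (B (U q) (JJ p a b x y z)) * (1 - Complex.normSq q) ≤ (1 - Complex.normSq q) * (1 - Complex.normSq q) := by
    rw [hJ]
    nlinarith
  exact le_of_mul_le_mul_right h4 hd

theorem orient_formula : (starRingEnd ℂ (zc y - zc x) * (zc z - zc x)).im =
    (1 + (JJ p a b x y z) 0) * (det3 x y z * (rad x * rad y * rad z)) := by
  have jx := JJ_x h hp ha hb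
  have jy := JJ_y h hp ha hb
  have jz := JJ_z h hp ha hb
  have tx := tau_eq h.xx (by linarith)
  have ty := tau_eq h.yy (by linarith)
  have tz := tau_eq h.zz (by linarith)
  set J := JJ p a b x y z with hJdef
  have n1 : x 0 + tau x ≠ 0 := by linarith [h.cx.2]
  have n2 : y 0 + tau y ≠ 0 := by linarith [h.cy.2]
  have n3 : z 0 + tau z ≠ 0 := by linarith [h.cz.2]
  rw [← tx] at jx
  rw [← ty] at jy
  rw [← tz] at jz
  unfold B at jx jy jz
  simp only [Complex.mul_im, Complex.conj_re, Complex.conj_im, Complex.sub_re, Complex.sub_im, zc,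
    rad]
  have hX : x 0 + tau x = x 0 * (1 + J 0) - x 1 * J 1 - x 2 * J 2 := by rw [← jx]; ring
  have hY : y 0 + tau y = y 0 * (1 + J 0) - y 1 * J 1 - y 2 * J 2 := by rw [← jy]; ring
  have hZ : z 0 + tau z = z 0 * (1 + J 0) - z 1 * J 1 - z 2 * J 2 := by rw [← jz]; ring
  generalize x 0 + tau x = X at *
  generalize y 0 + tau y = Y at *
  generalize z 0 + tau z = Z at *
  have e1 : (y 1 / Y - x 1 / X) * (z 2 / Z - x 2 / X) + -(y 2 / Y - x 2 / X) * (z 1 / Z - x 1 / X)
      = (X * (y 1 * z 2 - y 2 * z 1) - Y * (x 1 * z 2 - x 2 * z 1) + Z * (x 1 * y 2 - x 2 * y 1)) /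
        (X * Y * Z) := by
    field_simp; ring
  have e2 : (1 + J 0) * det3 x y z =
      X * (y 1 * z 2 - y 2 * z 1) - Y * (x 1 * z 2 - x 2 * z 1) + Z * (x 1 * y 2 - x 2 * y 1) := by
    rw [hX, hY, hZ]; simp only [det3]; ring
  rw [e1, ← e2]
  field_simp

theorem orient_pos (hd : 0 < det3 x y z) :
    0 < (starRingEnd ℂ (zc y - zc x) * (zc z - zc x)).im := by
  rw [orient_formula h hp ha hb]
  have := (JJ_cone h hp ha hb).2
  have := rad_pos h.cx
  have := rad_pos h.cy
  have := rad_pos h.cz
  positivity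

/-- key step for the cyclic order: a tangent disc inside the sector meets the triangle -/
theorem sector_aux {d : E3} (hd : d ∈ Cone) (hxd : dist (zc x) (zc d) = rad x + rad d)
    (hyd : rad y + rad d ≤ dist (zc y) (zc d)) (hzd : rad z + rad d ≤ dist (zc z) (zc d))
    {s t : ℝ} (hs : 0 < s) (ht : 0 < t)
    (he : zc d - zc x = s • (zc y - zc x) + t • (zc z - zc x)) :
    ∃ q : ℂ, Complex.normSq q < 1 ∧ dist q (zc d) = rad d ∧ dist q (zc x) = rad x ∧
      B (U q) (JJ p a b x y z) ≤ 1 - Complex.normSq q := by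
  have tx := tau_eq h.xx (by linarith)
  have ty := tau_eq h.yy (by linarith)
  have tz := tau_eq h.zz (by linarith)
  have rx := rad_pos h.cx
  have ry := rad_pos h.cy
  have rz := rad_pos h.cz
  have rd := rad_pos hd
  have exy := rad_eq_dist h.cx h.cy (by rw [h.xy, tx, ty])
  have exz := rad_eq_dist h.cx h.cz (by rw [h.xz, tx, tz])
  have eyz := rad_eq_dist h.cy h.cz (by rw [h.yz, ty, tz])
  set ρ := rad x / (rad x + rad d) with hρ
  have hρ0 : 0 < ρ := by positivity
  have hρ1 : 1 - ρ = rad d / (rad x + rad d) := by rw [hρ]; field_simp; ring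
  set q := zc x + ρ • (zc d - zc x) with hq
  have q1 : dist q (zc x) = rad x := by
    rw [Complex.dist_eq, hq, add_sub_cancel_left, norm_smul, Real.norm_eq_abs, abs_of_pos hρ0,
      ← Complex.dist_eq, dist_comm, hxd, hρ]
    field_simp
  have q2 : dist q (zc d) = rad d := by
    have : q - zc d = (1 - ρ) • (zc x - zc d) := by rw [hq]; module
    rw [Complex.dist_eq, this, norm_smul, Real.norm_eq_abs, hρ1, abs_of_pos (by positivity),
      ← Complex.dist_eq, hxd]
    field_simp
  have q3 : Complex.normSq q < 1 := by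
    have h1 := zc_add_rad hd
    have h2 : ‖q‖ < 1 := by
      have : ‖q‖ ≤ ‖zc d‖ + ‖q - zc d‖ := by
        have := norm_add_le (zc d) (q - zc d)
        rwa [add_sub_cancel] at this
      rw [← Complex.dist_eq, q2] at this
      linarith
    rw [← Complex.sq_norm]
    nlinarith [norm_nonneg q]
  refine ⟨q, q3, q2, q1, ?_⟩
  set σ := ρ * s + ρ * t with hσ
  have hσ0 : 0 < σ := by positivity
  have hqe : q = zc x + (ρ * s) • (zc y - zc x) + (ρ * t) • (zc z - zc x) := by
    rw [hq, he]; module
  -- the point on the side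
  have hσ1 : σ ≤ 1 := by
    set q' := (ρ * s / σ) • zc y + (ρ * t / σ) • zc z with hq'
    have hsum : ρ * s / σ + ρ * t / σ = 1 := by rw [hσ]; field_simp
    have e1 : q' - zc x = (1 / σ) • (q - zc x) := by
      have h1 : q' - zc x = (ρ * s / σ) • zc y + (ρ * t / σ) • zc z
        - (ρ * s / σ + ρ * t / σ) • zc x := by rw [hsum, hq', one_smul]
      rw [h1, hqe]
      module
    have e2 : q' - zc y = (ρ * t / σ) • (zc z - zc y) := by
      have h1 : q' - zc y = (ρ * s / σ) • zc y + (ρ * t / σ) • zc z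
        - (ρ * s / σ + ρ * t / σ) • zc y := by rw [hsum, hq', one_smul]
      rw [h1]; module
    have e3 : q' - zc z = (ρ * s / σ) • (zc y - zc z) := by
      have h1 : q' - zc z = (ρ * s / σ) • zc y + (ρ * t / σ) • zc z
        - (ρ * s / σ + ρ * t / σ) • zc z := by rw [hsum, hq', one_smul]
      rw [h1]; module
    have f1 : dist (zc x) q' = rad x / σ := by
      rw [dist_comm, Complex.dist_eq, e1, norm_smul, Real.norm_eq_abs, abs_of_pos (by positivity),
        ← Complex.dist_eq, q1]
      ring
    have f2 : dist q' (zc y) = ρ * t / σ * (rad y + rad z) := by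
      rw [Complex.dist_eq, e2, norm_smul, Real.norm_eq_abs, abs_of_pos (by positivity),
        ← Complex.dist_eq, dist_comm, eyz]
    have f3 : dist q' (zc z) = ρ * s / σ * (rad y + rad z) := by
      rw [Complex.dist_eq, e3, norm_smul, Real.norm_eq_abs, abs_of_pos (by positivity),
        ← Complex.dist_eq, eyz]
    have hlast : rad x ≤ rad x / σ := by
      by_cases hc : ρ * t / σ * (rad y + rad z) ≤ rad y
      · have := dist_triangle (zc x) q' (zc y)
        rw [exy, f1, f2] at this
        linarith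
      · push Not at hc
        have h5 : ρ * s / σ * (rad y + rad z) ≤ rad z := by
          have h6 : (ρ * s / σ + ρ * t / σ) * (rad y + rad z) = rad y + rad z := by
            rw [hsum, one_mul]
          linarith
        have := dist_triangle (zc x) q' (zc z)
        rw [exz, f1, f3] at this
        linarith
    rw [le_div_iff₀ hσ0] at hlast
    by_contra hc
    push Not at hc
    nlinarith
  apply hull_lift h hp ha hb q3 (u := 1 - σ) (v := ρ * s) (s := ρ * t) (by linarith) (by positivity)
    (by positivity) (by rw [hσ]; ring) (by rw [hqe, hσ]; module) (by rw [q1])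
  · have := dist_triangle (zc y) q (zc d)
    rw [q2, dist_comm (zc y) q] at this
    linarith
  · have := dist_triangle (zc z) q (zc d)
    rw [q2, dist_comm (zc z) q] at this
    linarith

end triple

end

end Pool.Agent.H33CP
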