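import Pool.Agent.H33CP.Mink

/-! Abstract folding for systems of walls in the hyperbolic plane (hyperboloid / cone model). -/

namespace Pool.Agent.H33CP

open Real

noncomputable section

/-- A system of walls. -/
structure WallSystem (ι : Type) where
  e : ι → E3
  unit : ∀ i, B (e i) (e i) = -1
  o : E3
  o_cone : o ∈ Cone
  δ : ℝ
  δ_pos : 0 < δ
  o_in : ∀ i, B o (e i) ≤ -δ
  pair : ∀ i j, i ≠ j →
    (1 ≤ B (e i) (e j)) ∨ ∃ N : ℕ, 1 ≤ N ∧ B (e i) (e j) = Real.cos (Real.pi / (2 * N))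
  fin : ∀ x ∈ Cone, {i | 0 < B x (e i)}.Finite

/-- alternating vectors -/
def alt (e f : E3) (m : ℕ) : E3 := if Even m then e else f

def uu (θ a b : ℝ) (n : ℕ) : ℝ := (a * sin ((n + 1) * θ) + b * sin (n * θ)) / sin θ

def xs (x e f : E3) (u : ℕ → ℝ) (n : ℕ) : E3 := x + ∑ m ∈ Finset.range n, (2 * u m) • alt e f m

theorem alt_succ_prod {e f : E3} {c : ℝ} (hef : B e f = c) (m : ℕ) :
    B (alt e f m) (alt e f (m + 1)) = c := by
  unfold alt
  by_cases h : Even m
  · have : ¬ Even (m + 1) := by simpa [Nat.even_add_one] using h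
    simp [h, this, hef]
  · have : Even (m + 1) := by simpa [Nat.even_add_one] using h
    simp [h, this, B_comm f e, hef]

theorem alt_self_prod {e f : E3} (he : B e e = -1) (hf : B f f = -1) (m : ℕ) :
    B (alt e f m) (alt e f m) = -1 := by
  unfold alt; split_ifs <;> assumption

theorem alt_add_two (e f : E3) (m : ℕ) : alt e f (m + 2) = alt e f m := by
  unfold alt
  have : Even (m + 2) ↔ Even m := by simp [Nat.even_add]
  simp [this]

theorem xs_succ (x e f : E3) (u : ℕ → ℝ) (n : ℕ) :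
    xs x e f u (n + 1) = xs x e f u n + (2 * u n) • alt e f n := by
  unfold xs; rw [Finset.sum_range_succ]; abel

theorem xs_prod {x e f : E3} {θ a b : ℝ} (hs : sin θ ≠ 0) (he : B e e = -1) (hf : B f f = -1)
    (hef : B e f = cos θ) (ha : B x e = a) (hb : B x f = b) (n : ℕ) :
    B (xs x e f (uu θ a b) n) (alt e f n) = uu θ a b n ∧
    B (xs x e f (uu θ a b) n) (alt e f (n + 1)) =
      - ((a * sin (n * θ) + b * sin (((n:ℝ) - 1) * θ)) / sin θ) := by
  induction n with
  | zero =>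
    constructor
    · simp only [xs, Finset.range_zero, Finset.sum_empty, add_zero, alt, Even.zero, if_true, ha, uu]
      simp only [Nat.cast_zero, zero_add, one_mul, zero_mul, sin_zero, mul_zero, add_zero]
      field_simp
    · have h1 : ¬ Even (0 + 1) := by decide
      simp only [xs, Finset.range_zero, Finset.sum_empty, add_zero, alt, h1, if_false, hb]
      simp only [Nat.cast_zero, zero_mul, sin_zero, mul_zero, zero_add, zero_sub, neg_mul, one_mul, sin_neg]
      field_simp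
  | succ n ih =>
    obtain ⟨ih1, ih2⟩ := ih
    constructor
    · rw [xs_succ, B_add_left, B_smul_left, alt_succ_prod hef, ih2]
      have h3 : sin (((n:ℝ) + 1 + 1) * θ) = 2 * cos θ * sin (((n:ℝ) + 1) * θ) - sin (n * θ) := by
        have e1 : ((n:ℝ) + 1 + 1) * θ = ((n:ℝ) + 1) * θ + θ := by ring
        have e2 : (n:ℝ) * θ = ((n:ℝ) + 1) * θ - θ := by ring
        rw [e1, e2, sin_add, sin_sub]; ring
      have h4 : sin (((n:ℝ) + 1) * θ) = 2 * cos θ * sin ((n:ℝ) * θ) - sin (((n:ℝ) - 1) * θ) := by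
        have e1 : ((n:ℝ) + 1) * θ = (n:ℝ) * θ + θ := by ring
        have e2 : ((n:ℝ) - 1) * θ = (n:ℝ) * θ - θ := by ring
        rw [e1, e2, sin_add, sin_sub]; ring
      have h5 : uu θ a b (n + 1) = (a * sin (((n:ℝ) + 1 + 1) * θ) + b * sin (((n:ℝ) + 1) * θ)) / sin θ := by
        unfold uu; push_cast; rfl
      rw [h5, h3]
      unfold uu
      rw [show sin (((n:ℝ) - 1) * θ) = 2 * cos θ * sin ((n:ℝ) * θ) - sin (((n:ℝ) + 1) * θ) by rw [h4]; ring]
      field_simp
      ring
    · rw [alt_add_two, xs_succ, B_add_left, B_smul_left, alt_self_prod he hf, ih1]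
      unfold uu
      push_cast
      rw [show ((n:ℝ) + 1 - 1) = n by ring]
      ring

theorem xs_succ_refl {x e f : E3} {θ a b : ℝ} (hs : sin θ ≠ 0) (he : B e e = -1) (hf : B f f = -1)
    (hef : B e f = cos θ) (ha : B x e = a) (hb : B x f = b) (n : ℕ) :
    xs x e f (uu θ a b) (n + 1) = refl (alt e f n) (xs x e f (uu θ a b) n) := by
  rw [refl_apply, (xs_prod hs he hf hef ha hb n).1, xs_succ]

/-- positivity of the coefficients -/
theorem uu_pos {N : ℕ} (hN : 1 ≤ N) {a b : ℝ} (ha : 0 < a) (hb : 0 < b) {n : ℕ} (hn : n < 2 * N) :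
    0 < uu (π / (2 * N)) a b n := by
  have hN' : (0:ℝ) < 2 * N := by positivity
  have hθ : 0 < π / (2 * N) := by positivity
  have hθ1 : π / (2 * N) < π := by
    rw [div_lt_iff₀ hN']
    have : (1:ℝ) ≤ N := by exact_mod_cast hN
    nlinarith [pi_pos]
  have hsin : 0 < sin (π / (2 * N)) := sin_pos_of_pos_of_lt_pi hθ hθ1
  have hNθ : (2 * (N:ℝ)) * (π / (2 * N)) = π := by field_simp
  unfold uu
  apply div_pos _ hsin
  have h1 : 0 ≤ sin (((n:ℝ) + 1) * (π / (2 * N))) := by
    apply sin_nonneg_of_nonneg_of_le_pi (by positivity)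
    have : ((n:ℝ) + 1) ≤ 2 * N := by exact_mod_cast hn
    calc ((n:ℝ) + 1) * (π / (2 * N)) ≤ (2 * N) * (π / (2 * N)) := by
          apply mul_le_mul_of_nonneg_right this hθ.le
      _ = π := hNθ
  have hnle : (n:ℝ) < 2 * N := by exact_mod_cast hn
  have h2 : 0 ≤ sin ((n:ℝ) * (π / (2 * N))) := by
    apply sin_nonneg_of_nonneg_of_le_pi (by positivity)
    calc (n:ℝ) * (π / (2 * N)) ≤ (2 * N) * (π / (2 * N)) := by
          apply mul_le_mul_of_nonneg_right hnle.le hθ.le
      _ = π := hNθ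
  rcases Nat.eq_zero_or_pos n with h0 | h0
  · subst h0
    simp only [Nat.cast_zero, zero_add, one_mul, zero_mul, sin_zero, mul_zero, add_zero]
    positivity
  · have h3 : 0 < sin ((n:ℝ) * (π / (2 * N))) := by
      apply sin_pos_of_pos_of_lt_pi
      · have : (0:ℝ) < n := by exact_mod_cast h0
        positivity
      · calc (n:ℝ) * (π / (2 * N)) < (2 * N) * (π / (2 * N)) := by
              apply mul_lt_mul_of_pos_right hnle hθ
          _ = π := hNθ
    have := mul_nonneg ha.le h1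
    have := mul_pos hb h3
    linarith

theorem uu_reflect {N : ℕ} (hN : 1 ≤ N) (a b : ℝ) {m : ℕ} (hm : m < 2 * N) :
    uu (π / (2 * N)) b a (2 * N - 1 - m) = uu (π / (2 * N)) a b m := by
  have hN' : (0:ℝ) < 2 * N := by positivity
  have hc : ((2 * N - 1 - m : ℕ) : ℝ) = 2 * N - 1 - m := by
    rw [Nat.cast_sub (by omega), Nat.cast_sub (by omega)]; push_cast; ring
  unfold uu
  rw [hc]
  have e1 : (2 * (N:ℝ) - 1 - m + 1) * (π / (2 * N)) = π - m * (π / (2 * N)) := by field_simp; ring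
  have e2 : (2 * (N:ℝ) - 1 - m) * (π / (2 * N)) = π - (m + 1) * (π / (2 * N)) := by field_simp; ring
  rw [e1, e2, sin_pi_sub, sin_pi_sub]
  ring

theorem alt_reflect {N : ℕ} (hN : 1 ≤ N) (e f : E3) {m : ℕ} (hm : m < 2 * N) :
    alt f e (2 * N - 1 - m) = alt e f m := by
  unfold alt
  have : Even (2 * N - 1 - m) ↔ ¬ Even m := by
    constructor
    · intro h h2
      obtain ⟨k, hk⟩ := h
      obtain ⟨l, hl⟩ := h2
      omega
    · intro h
      rw [Nat.not_even_iff_odd] at h
      obtain ⟨l, hl⟩ := h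
      exact ⟨N - 1 - l, by omega⟩
  by_cases h : Even m
  · simp [this, h]
  · simp [this, h]

theorem xs_end {N : ℕ} (hN : 1 ≤ N) (x e f : E3) (a b : ℝ) :
    xs x e f (uu (π / (2 * N)) a b) (2 * N) = xs x f e (uu (π / (2 * N)) b a) (2 * N) := by
  unfold xs
  congr 1
  rw [← Finset.sum_range_reflect]
  apply Finset.sum_congr rfl
  intro m hm
  rw [Finset.mem_range] at hm
  have h1 := uu_reflect hN b a hm
  have h2 := alt_reflect hN f e hm
  rw [h1, h2]

/-- No point is beyond two disjoint walls. -/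
theorem not_both_aux {o e f x : E3} (ho : o ∈ Cone) (he : B e e = -1) (hf : B f f = -1)
    (hoe : B o e < 0) (hof : B o f < 0) (hef : 1 ≤ B e f) (hx : x ∈ Cone)
    (hi : 0 < B x e) (hj : 0 < B x f) : False := by
  set y := - (e + f) with hy
  have hyy : 0 ≤ B y y := by
    rw [hy, B_neg_left, B_neg_right, B_add_left, B_add_right, B_add_right, he, hf, B_comm f e]
    linarith
  have hoy : 0 < B o y := by
    rw [hy, B_neg_right, B_add_right]
    linarith
  have hxy : B x y < 0 := by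
    rw [hy, B_neg_right, B_add_right]; linarith
  have hxo : 0 < B x o := cone_pos hx ho
  set t : ℝ := - B x y / (2 * B x o) with ht
  have htpos : 0 < t := by rw [ht]; apply div_pos <;> linarith
  have hc : y + t • o ∈ Cone := by
    refine mem_cone_of ho ?_ ?_
    · rw [B_add_left, B_add_right, B_add_right, B_smul_left, B_smul_right, B_smul_left, B_smul_right,
        B_comm y o]
      have h1 := ho.1
      have h2 : 0 < t * B o y := mul_pos htpos hoy
      have h3 : 0 < t * (t * B o o) := by positivity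
      linarith
    · rw [B_add_right, B_smul_right]
      have h1 := ho.1
      have : 0 < t * B o o := by positivity
      linarith
  have := cone_pos hx hc
  rw [B_add_right, B_smul_right, ht] at this
  have h5 : - B x y / (2 * B x o) * B x o = - B x y / 2 := by field_simp
  rw [h5] at this
  linarith

namespace WallSystem

variable {ι : Type} (S : WallSystem ι)

def Normal (y : E3) : Prop := ∀ i, B y (S.e i) ≤ 0

/-- The fundamental chamber (open cone over it). -/
def F : Set E3 := {x | x ∈ Cone ∧ S.Normal x}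

def Step (x y : E3) : Prop := ∃ i, 0 < B x (S.e i) ∧ y = refl (S.e i) x

def R : ℕ → E3 → E3 → Prop
  | 0, x, y => x = y
  | n + 1, x, y => ∃ z, S.Step x z ∧ R n z y

theorem R_trans {m n : ℕ} {x y z : E3} (h1 : S.R m x y) (h2 : S.R n y z) : S.R (m + n) x z := by
  induction m generalizing x with
  | zero => rw [Nat.zero_add]; cases h1; exact h2
  | succ m ih =>
    obtain ⟨w, hw, hR⟩ := h1
    rw [Nat.succ_add]
    exact ⟨w, hw, ih hR⟩

theorem R_one {x y : E3} (h : S.Step x y) : S.R 1 x y := ⟨y, h, rfl⟩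

theorem R_last {n : ℕ} {x y : E3} (h : S.R (n + 1) x y) : ∃ z, S.R n x z ∧ S.Step z y := by
  induction n generalizing x with
  | zero => obtain ⟨z, hz, rfl⟩ := h; exact ⟨x, rfl, hz⟩
  | succ n ih =>
    obtain ⟨w, hw, hR⟩ := h
    obtain ⟨z, hz1, hz2⟩ := ih hR
    exact ⟨z, ⟨w, hw, hz1⟩, hz2⟩

theorem Step_cone {x y : E3} (hx : x ∈ Cone) (h : S.Step x y) : y ∈ Cone := by
  obtain ⟨i, _, rfl⟩ := h
  exact refl_cone (S.unit i) hx

theorem R_cone {n : ℕ} {x y : E3} (hx : x ∈ Cone) (h : S.R n x y) : y ∈ Cone := by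
  induction n generalizing x with
  | zero => cases h; exact hx
  | succ n ih => obtain ⟨w, hw, hR⟩ := h; exact ih (S.Step_cone hx hw) hR

theorem not_both {i j : ι} (hij : 1 ≤ B (S.e i) (S.e j)) {x : E3} (hx : x ∈ Cone)
    (hi : 0 < B x (S.e i)) (hj : 0 < B x (S.e j)) : False := by
  have h1 := S.o_in i
  have h2 := S.o_in j
  have h3 := S.δ_pos
  exact not_both_aux S.o_cone (S.unit i) (S.unit j) (by linarith) (by linarith) hij hx hi hj

theorem peak_aux {i j : ι} {N : ℕ} (hN : 1 ≤ N)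
    (hc : B (S.e i) (S.e j) = cos (π / (2 * N))) {x : E3}
    (hi : 0 < B x (S.e i)) (hj : 0 < B x (S.e j)) (k m : ℕ) (hkm : k + m ≤ 2 * N) :
    S.R m (xs x (S.e i) (S.e j) (uu (π / (2 * N)) (B x (S.e i)) (B x (S.e j))) k)
      (xs x (S.e i) (S.e j) (uu (π / (2 * N)) (B x (S.e i)) (B x (S.e j))) (k + m)) := by
  have hN' : (0:ℝ) < 2 * N := by positivity
  have hθ : 0 < π / (2 * N) := by positivity
  have hθ1 : π / (2 * N) < π := by
    rw [div_lt_iff₀ hN']
    have : (1:ℝ) ≤ N := by exact_mod_cast hN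
    nlinarith [pi_pos]
  have hsin : 0 < sin (π / (2 * N)) := sin_pos_of_pos_of_lt_pi hθ hθ1
  induction m generalizing k with
  | zero => exact rfl
  | succ m ih =>
    refine ⟨_, ?_, by
      have := ih (k + 1) (by omega)
      rwa [show k + 1 + m = k + (m + 1) by ring] at this⟩
    have hp := (xs_prod hsin.ne' (S.unit i) (S.unit j) hc rfl rfl k (x := x)).1
    have hu := uu_pos hN hi hj (n := k) (by omega)
    have hr := xs_succ_refl hsin.ne' (S.unit i) (S.unit j) hc rfl rfl k (x := x)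
    unfold alt at hp hr
    by_cases hk : Even k
    · simp only [hk, if_true] at hp hr
      exact ⟨i, by rw [hp]; exact hu, hr⟩
    · simp only [hk, if_false] at hp hr
      exact ⟨j, by rw [hp]; exact hu, hr⟩

theorem peak {i j : ι} (hij : i ≠ j) {x : E3} (hx : x ∈ Cone)
    (hi : 0 < B x (S.e i)) (hj : 0 < B x (S.e j)) :
    ∃ m z, S.R m (refl (S.e i) x) z ∧ S.R m (refl (S.e j) x) z := by
  rcases S.pair i j hij with h | ⟨N, hN, hc⟩
  · exact (S.not_both h hx hi hj).elim
  · refine ⟨2 * N - 1, xs x (S.e i) (S.e j) (uu (π / (2 * N)) (B x (S.e i)) (B x (S.e j))) (2 * N), ?_, ?_⟩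
    · have h := S.peak_aux hN hc hi hj 1 (2 * N - 1) (by omega)
      rw [show 1 + (2 * N - 1) = 2 * N by omega] at h
      convert h using 1
      rw [refl_apply]
      unfold xs uu alt
      have hN' : (0:ℝ) < 2 * N := by positivity
      have hθ : 0 < π / (2 * N) := by positivity
      have hθ1 : π / (2 * N) < π := by
        rw [div_lt_iff₀ hN']
        have : (1:ℝ) ≤ N := by exact_mod_cast hN
        nlinarith [pi_pos]
      have hsin : sin (π / (2 * N)) ≠ 0 := (sin_pos_of_pos_of_lt_pi hθ hθ1).ne'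
      simp [hsin]
    · rw [xs_end hN]
      have h := S.peak_aux hN (by rw [B_comm]; exact hc) hj hi 1 (2 * N - 1) (by omega)
      rw [show 1 + (2 * N - 1) = 2 * N by omega] at h
      convert h using 1
      rw [refl_apply]
      unfold xs uu alt
      have hN' : (0:ℝ) < 2 * N := by positivity
      have hθ : 0 < π / (2 * N) := by positivity
      have hθ1 : π / (2 * N) < π := by
        rw [div_lt_iff₀ hN']
        have : (1:ℝ) ≤ N := by exact_mod_cast hN
        nlinarith [pi_pos]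
      have hsin : sin (π / (2 * N)) ≠ 0 := (sin_pos_of_pos_of_lt_pi hθ hθ1).ne'
      simp [hsin]

theorem descent (n : ℕ) : ∀ x ∈ Cone, ∀ y, S.Normal y → ∀ x', S.R n x y → S.Step x x' →
    ∃ m, n = m + 1 ∧ S.R m x' y := by
  induction n using Nat.strong_induction_on with
  | _ n ih =>
    intro x hx y hy x' hR hstep
    cases n with
    | zero =>
      cases hR
      obtain ⟨i, hi, _⟩ := hstep
      exact absurd (hy i) (not_le.mpr hi)
    | succ n =>
      obtain ⟨x1, h1, hR1⟩ := hR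
      have multi : ∀ m k a, a ∈ Cone → k ≤ n → S.R k a y → ∀ z, S.R m a z →
          ∃ l, k = l + m ∧ S.R l z y := by
        intro m
        induction m with
        | zero => intro k a _ _ hk z hz; cases hz; exact ⟨k, rfl, hk⟩
        | succ m ihm =>
          intro k a ha hkn hk z hz
          obtain ⟨b, hb, hbz⟩ := hz
          obtain ⟨k', hk', hR'⟩ := ih k (by omega) a ha y hy b hk hb
          obtain ⟨l, hl, hl'⟩ := ihm k' b (S.Step_cone ha hb) (by omega) hR' z hbz
          exact ⟨l, by omega, hl'⟩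
      obtain ⟨i, hi, rfl⟩ := h1
      obtain ⟨j, hj, rfl⟩ := hstep
      by_cases hij : i = j
      · subst hij; exact ⟨n, rfl, hR1⟩
      · obtain ⟨m, z, hz1, hz2⟩ := S.peak hij hx hi hj
        obtain ⟨l, hl, hl'⟩ := multi m n _ (refl_cone (S.unit i) hx) le_rfl hR1 z hz1
        refine ⟨n, rfl, ?_⟩
        have := S.R_trans hz2 hl'
        rw [hl, add_comm l m]; exact this

theorem R_unique {n m : ℕ} {x y z : E3} (hx : x ∈ Cone) (hy : S.Normal y) (hz : S.Normal z)
    (h1 : S.R n x y) (h2 : S.R m x z) : y = z := by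
  induction m generalizing n x with
  | zero =>
    cases h2
    cases n with
    | zero => exact h1.symm
    | succ n =>
      obtain ⟨w, ⟨i, hi, _⟩, _⟩ := h1
      exact absurd (hz i) (not_le.mpr hi)
  | succ m ih =>
    obtain ⟨w, hw, hR⟩ := h2
    obtain ⟨k, _, hk⟩ := S.descent n x hx y hy w h1 hw
    exact ih (S.Step_cone hx hw) hk hR

/-- `x` folds to `y`. -/
def Red (x y : E3) : Prop := S.Normal y ∧ ∃ n, S.R n x y

theorem Red_self {x : E3} (h : S.Normal x) : S.Red x x := ⟨h, 0, rfl⟩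

theorem Red_unique {x y z : E3} (hx : x ∈ Cone) (h1 : S.Red x y) (h2 : S.Red x z) : y = z := by
  obtain ⟨hy, n, hn⟩ := h1
  obtain ⟨hz, m, hm⟩ := h2
  exact S.R_unique hx hy hz hn hm

theorem Red_refl (i : ι) {x y : E3} (hx : x ∈ Cone) (h : S.Red x y) : S.Red (refl (S.e i) x) y := by
  obtain ⟨hy, n, hn⟩ := h
  rcases lt_trichotomy (B x (S.e i)) 0 with h | h | h
  · refine ⟨hy, n + 1, x, ⟨i, ?_, ?_⟩, hn⟩
    · rw [refl_B_e (S.unit i)]; linarith
    · rw [refl_refl (S.unit i)]
  · rw [refl_fix h]; exact ⟨hy, n, hn⟩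
  · obtain ⟨m, _, hm⟩ := S.descent n x hx y hy _ hn ⟨i, h, rfl⟩
    exact ⟨hy, m, hm⟩

/-- reflections as linear equivalences -/
def s (i : ι) : E3 ≃ₗ[ℝ] E3 := LinearEquiv.ofInvolutive (refl (S.e i)) (refl_refl (S.unit i))

@[simp] theorem s_apply (i : ι) (x : E3) : S.s i x = refl (S.e i) x := rfl

theorem s_mul_s (i : ι) : S.s i * S.s i = 1 := by
  apply LinearEquiv.ext; intro x
  exact refl_refl (S.unit i) x

theorem s_inv (i : ι) : (S.s i)⁻¹ = S.s i := inv_eq_of_mul_eq_one_left (S.s_mul_s i)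

/-- The reflection group. -/
def W : Subgroup (E3 ≃ₗ[ℝ] E3) := Subgroup.closure (Set.range S.s)

theorem s_mem (i : ι) : S.s i ∈ S.W := Subgroup.subset_closure ⟨i, rfl⟩

theorem W_B {g : E3 ≃ₗ[ℝ] E3} (hg : g ∈ S.W) (x y : E3) : B (g x) (g y) = B x y := by
  induction hg using Subgroup.closure_induction generalizing x y with
  | mem g hg => obtain ⟨i, rfl⟩ := hg; exact refl_B (S.unit i) x y
  | one => rfl
  | mul g h _ _ ihg ihh => simp only [LinearEquiv.mul_apply]; rw [ihg, ihh]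
  | inv g _ ih =>
    have := ih (g⁻¹ x) (g⁻¹ y)
    rw [← this]
    simp only [← LinearEquiv.mul_apply, mul_inv_cancel, LinearEquiv.coe_one, id_eq]

theorem W_cone {g : E3 ≃ₗ[ℝ] E3} (hg : g ∈ S.W) {x : E3} (hx : x ∈ Cone) : g x ∈ Cone := by
  have key : ∀ x, x ∈ Cone ↔ g x ∈ Cone := by
    clear hx x
    induction hg using Subgroup.closure_induction with
    | mem g hg =>
      obtain ⟨i, rfl⟩ := hg
      intro x
      refine ⟨fun h => refl_cone (S.unit i) h, fun h => ?_⟩
      have := refl_cone (S.unit i) h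
      change refl (S.e i) (refl (S.e i) x) ∈ Cone at this
      rwa [refl_refl (S.unit i)] at this
    | one => intro x; rfl
    | mul g h _ _ ihg ihh => intro x; rw [ihh x, ihg (h x)]; rfl
    | inv g _ ih =>
      intro x
      rw [ih (g⁻¹ x)]
      simp only [← LinearEquiv.mul_apply, mul_inv_cancel, LinearEquiv.coe_one, id_eq]
  exact (key x).1 hx

theorem W_det {g : E3 ≃ₗ[ℝ] E3} (hg : g ∈ S.W) :
    (∀ x y z, det3 (g x) (g y) (g z) = det3 x y z) ∨
    (∀ x y z, det3 (g x) (g y) (g z) = - det3 x y z) := by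
  induction hg using Subgroup.closure_induction with
  | mem g hg => obtain ⟨i, rfl⟩ := hg; right; intro x y z; exact det3_refl (S.unit i) x y z
  | one => left; intro x y z; rfl
  | mul g h _ _ ihg ihh =>
    rcases ihg with ihg | ihg <;> rcases ihh with ihh | ihh
    · left; intro x y z; simp only [LinearEquiv.mul_apply]; rw [ihg, ihh]
    · right; intro x y z; simp only [LinearEquiv.mul_apply]; rw [ihg, ihh]
    · right; intro x y z; simp only [LinearEquiv.mul_apply]; rw [ihg, ihh]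
    · left; intro x y z; simp only [LinearEquiv.mul_apply]; rw [ihg, ihh]; ring
  | inv g _ ih =>
    have hh : ∀ x, g (g⁻¹ x) = x := by
      intro x
      simp only [← LinearEquiv.mul_apply, mul_inv_cancel, LinearEquiv.coe_one, id_eq]
    rcases ih with ih | ih
    · left; intro x y z
      have := ih (g⁻¹ x) (g⁻¹ y) (g⁻¹ z)
      rw [hh, hh, hh] at this; exact this.symm
    · right; intro x y z
      have := ih (g⁻¹ x) (g⁻¹ y) (g⁻¹ z)
      rw [hh, hh, hh] at this; linarith

theorem Red_smul {g : E3 ≃ₗ[ℝ] E3} (hg : g ∈ S.W) {x y : E3} (hx : x ∈ Cone) (h : S.Red x y) :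
    S.Red (g x) y := by
  have key : ∀ x, x ∈ Cone → (S.Red x y ↔ S.Red (g x) y) := by
    clear hx h x
    induction hg using Subgroup.closure_induction with
    | mem g hg =>
      obtain ⟨i, rfl⟩ := hg
      intro x hx
      refine ⟨fun h => S.Red_refl i hx h, fun h => ?_⟩
      have := S.Red_refl i (refl_cone (S.unit i) hx) h
      change S.Red (refl (S.e i) (refl (S.e i) x)) y at this
      rwa [refl_refl (S.unit i)] at this
    | one => intro x _; rfl
    | mul g h _ hh ihg ihh =>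
      intro x hx
      rw [ihh x hx, ihg (h x) (S.W_cone hh hx)]; rfl
    | inv g hg' ih =>
      intro x hx
      rw [ih (g⁻¹ x) (S.W_cone (S.W.inv_mem hg') hx)]
      simp only [← LinearEquiv.mul_apply, mul_inv_cancel, LinearEquiv.coe_one, id_eq]
  exact (key x hx).1 h

/-- folding of a point of a chamber -/
theorem Red_chamber {g : E3 ≃ₗ[ℝ] E3} (hg : g ∈ S.W) {y : E3} (hy : y ∈ S.F) : S.Red (g y) y :=
  S.Red_smul hg hy.1 (S.Red_self hy.2)

/-- strict fundamental domain -/
theorem eq_of_smul {g h : E3 ≃ₗ[ℝ] E3} (hg : g ∈ S.W) (hh : h ∈ S.W) {x y : E3}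
    (hx : x ∈ S.F) (hy : y ∈ S.F) (hxy : g x = h y) : x = y := by
  have h1 := S.Red_chamber hg hx
  have h2 := S.Red_chamber hh hy
  rw [← hxy] at h2
  exact S.Red_unique (S.W_cone hg hx.1) h1 h2

theorem R_le {n : ℕ} {x y f : E3} (hf : S.Normal f) (h : S.R n x y) : B f y ≤ B f x := by
  induction n generalizing x with
  | zero => cases h; exact le_rfl
  | succ n ih =>
    obtain ⟨w, ⟨i, hi, rfl⟩, hR⟩ := h
    have := ih hR
    rw [refl_B_right] at this
    have h2 := hf i
    nlinarith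

theorem R_last_le {n : ℕ} {x y f : E3} (hf : S.Normal f) (h : S.R (n + 1) x y) :
    ∃ i, B y (S.e i) < 0 ∧ B f (refl (S.e i) y) ≤ B f x := by
  obtain ⟨z, hz, i, hi, rfl⟩ := S.R_last h
  refine ⟨i, ?_, ?_⟩
  · rw [refl_B_e (S.unit i)]; linarith
  · rw [refl_refl (S.unit i)]; exact S.R_le hf hz

/-- distance inequality: `B f y ≤ B f (g y)` for `f, y` in the chamber -/
theorem B_le_smul {g : E3 ≃ₗ[ℝ] E3} (hg : g ∈ S.W) {f y : E3} (hf : S.Normal f) (hy : y ∈ S.F) :
    B f y ≤ B f (g y) := by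
  obtain ⟨_, n, hn⟩ := S.Red_chamber hg hy
  exact S.R_le hf hn

theorem B_smul_cases {g : E3 ≃ₗ[ℝ] E3} (hg : g ∈ S.W) {f y : E3} (hf : S.Normal f) (hy : y ∈ S.F) :
    g y = y ∨ ∃ i, B y (S.e i) < 0 ∧ B f y + 2 * B f (S.e i) * B y (S.e i) ≤ B f (g y) := by
  obtain ⟨_, n, hn⟩ := S.Red_chamber hg hy
  cases n with
  | zero => left; exact hn
  | succ n =>
    right
    obtain ⟨i, hi, h⟩ := S.R_last_le hf hn
    refine ⟨i, hi, ?_⟩
    rw [refl_B_right] at h; exact h

end WallSystem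

/-- A separated bounded set of timelike vectors is finite. -/
theorem finite_sep {x : E3} (hx : x ∈ Cone) {q ε K : ℝ} (hq : 0 < q) (hε : 0 < ε) {T : Set E3}
    (hT : ∀ u ∈ T, B u u = q ∧ 0 < u 0 ∧ B u x ≤ K)
    (hsep : ∀ u ∈ T, ∀ v ∈ T, u ≠ v → q + ε ≤ B u v) : T.Finite := by
  -- bound
  set ρ := Real.sqrt (x 1 ^ 2 + x 2 ^ 2) with hρ
  have hρ0 : 0 ≤ ρ := Real.sqrt_nonneg _
  have hρ2 : ρ ^ 2 = x 1 ^ 2 + x 2 ^ 2 := Real.sq_sqrt (by positivity)
  have hρx : ρ < x 0 := by
    have h1 := hx.1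
    have h2 := hx.2
    unfold B at h1
    apply lt_of_pow_lt_pow_left₀ 2 h2.le
    rw [hρ2]; nlinarith
  have hb0 : ∀ u ∈ T, u 0 * (x 0 - ρ) ≤ K := by
    intro u hu
    obtain ⟨h1, h2, h3⟩ := hT u hu
    unfold B at h1 h3
    have h4 : u 1 * x 1 + u 2 * x 2 ≤ u 0 * ρ := by
      have h5 : (u 1 * x 1 + u 2 * x 2)^2 ≤ (u 0 * ρ)^2 := by
        rw [mul_pow, hρ2]
        have h6 : (u 1 * x 1 + u 2 * x 2)^2 ≤ (u 1 ^2 + u 2 ^2) * (x 1 ^ 2 + x 2 ^ 2) := by
          nlinarith [sq_nonneg (u 1 * x 2 - u 2 * x 1)]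
        have h7 : (u 1 ^2 + u 2 ^2) * (x 1 ^ 2 + x 2 ^ 2) ≤ (u 0)^2 * (x 1 ^ 2 + x 2 ^ 2) := by
          apply mul_le_mul_of_nonneg_right _ (by positivity)
          nlinarith
        linarith
      exact (abs_le_of_sq_le_sq' h5 (by positivity)).2
    nlinarith
  set C := K / (x 0 - ρ) with hC
  have hd : 0 < x 0 - ρ := by linarith
  have hb : ∀ u ∈ T, ∀ i, |u i| ≤ C := by
    intro u hu i
    obtain ⟨h1, h2, h3⟩ := hT u hu
    have h4 : u 0 ≤ C := by rw [hC, le_div_iff₀ hd]; exact hb0 u hu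
    have h5 : |u i| ≤ u 0 := by
      unfold B at h1
      apply abs_le_of_sq_le_sq _ h2.le
      fin_cases i
      · simp
      · simp only [Fin.mk_one]; nlinarith [sq_nonneg (u 2)]
      · simp only [Fin.reduceFinMk]; nlinarith [sq_nonneg (u 1)]
    linarith
  by_contra hinf
  have hinf' : T.Infinite := hinf
  let f := hinf'.natEmbedding
  have hCn : 0 ≤ C := by
    have := hb (f 0) (f 0).2 0
    exact le_trans (abs_nonneg _) this
  have hbdd : Bornology.IsBounded T := by
    rw [isBounded_iff_forall_norm_le]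
    exact ⟨C, fun u hu => (pi_norm_le_iff_of_nonneg hCn).2 (fun i => by
      rw [Real.norm_eq_abs]; exact hb u hu i)⟩
  obtain ⟨a, _, φ, hφ, hlim⟩ := tendsto_subseq_of_bounded hbdd (x := fun n => ((f n : T) : E3))
    (fun n => (f n).2)
  have hcau := hlim.cauchySeq
  rw [Metric.cauchySeq_iff'] at hcau
  obtain ⟨N, hN⟩ := hcau (Real.sqrt ε) (Real.sqrt_pos.2 hε)
  have h1 := hN (N + 1) (by omega)
  simp only [Function.comp] at h1
  set u : E3 := ((f (φ (N + 1)) : T) : E3) with hu_def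
  set v : E3 := ((f (φ N) : T) : E3) with hv_def
  have huv : u ≠ v := by
    intro h
    have h2 : f (φ (N + 1)) = f (φ N) := Subtype.ext h
    have h3 := hφ.injective (f.injective h2)
    omega
  have hu := hT u (f (φ (N + 1))).2
  have hv := hT v (f (φ N)).2
  have hs := hsep u (f (φ (N + 1))).2 v (f (φ N)).2 huv
  have hd1 : |u 1 - v 1| < Real.sqrt ε := by
    have := dist_le_pi_dist u v 1
    rw [Real.dist_eq] at this; linarith
  have hd2 : |u 2 - v 2| < Real.sqrt ε := by
    have := dist_le_pi_dist u v 2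
    rw [Real.dist_eq] at this; linarith
  have hsq := Real.sq_sqrt hε.le
  have e1 : (u 1 - v 1)^2 < ε := by
    rw [← hsq, ← sq_abs]; exact pow_lt_pow_left₀ hd1 (abs_nonneg _) (by norm_num)
  have e2 : (u 2 - v 2)^2 < ε := by
    rw [← hsq, ← sq_abs]; exact pow_lt_pow_left₀ hd2 (abs_nonneg _) (by norm_num)
  obtain ⟨hu1, _, _⟩ := hu
  obtain ⟨hv1, _, _⟩ := hv
  unfold B at hu1 hv1 hs
  nlinarith [sq_nonneg (u 0 - v 0)]

namespace WallSystem

variable {ι : Type} (S : WallSystem ι)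

theorem orbit_sep {g h : E3 ≃ₗ[ℝ] E3} (hg : g ∈ S.W) (hh : h ∈ S.W) (hne : g S.o ≠ h S.o) :
    B S.o S.o + 2 * S.δ ^ 2 ≤ B (g S.o) (h S.o) := by
  have hoF : S.o ∈ S.F := ⟨S.o_cone, fun i => by have := S.o_in i; have := S.δ_pos; linarith⟩
  have hgi : g⁻¹ ∈ S.W := S.W.inv_mem hg
  have e1 : B (g S.o) (h S.o) = B S.o ((g⁻¹ * h) S.o) := by
    rw [← S.W_B hgi (g S.o) (h S.o)]
    simp only [← LinearEquiv.mul_apply, inv_mul_cancel, LinearEquiv.coe_one, id_eq]
  rw [e1]
  rcases S.B_smul_cases (S.W.mul_mem hgi hh) hoF.2 hoF with h1 | ⟨i, hi, h1⟩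
  · exfalso; apply hne
    have h2 := congrArg g h1
    rw [← LinearEquiv.mul_apply, mul_inv_cancel_left] at h2
    exact h2.symm
  · have h2 := S.o_in i
    have h3 := S.δ_pos
    have : S.δ ^ 2 ≤ B S.o (S.e i) * B S.o (S.e i) := by nlinarith
    nlinarith

/-- every point is equivalent to a point of the chamber -/
theorem exists_mem_F {x : E3} (hx : x ∈ Cone) : ∃ g ∈ S.W, g x ∈ S.F := by
  set T : Set E3 := {u | (∃ g ∈ S.W, u = g S.o) ∧ B u x ≤ B S.o x} with hTdef
  have hfin : T.Finite := by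
    apply finite_sep hx S.o_cone.1 (ε := 2 * S.δ ^ 2) (K := B S.o x)
      (by have := S.δ_pos; positivity)
    · rintro u ⟨⟨g, hg, rfl⟩, hu⟩
      exact ⟨S.W_B hg _ _, (S.W_cone hg S.o_cone).2, hu⟩
    · rintro u ⟨⟨g, hg, rfl⟩, _⟩ v ⟨⟨h, hh, rfl⟩, _⟩ huv
      exact S.orbit_sep hg hh huv
  have hne : T.Nonempty := ⟨S.o, ⟨1, S.W.one_mem, rfl⟩, le_rfl⟩
  obtain ⟨u, ⟨⟨g, hg, rfl⟩, hu⟩, hmin⟩ := Set.exists_min_image T (fun u => B u x) hfin hne
  have hgi : g⁻¹ ∈ S.W := S.W.inv_mem hg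
  refine ⟨g⁻¹, hgi, S.W_cone hgi hx, fun i => ?_⟩
  have hxe : ∀ z, B (g z) x = B z (g⁻¹ x) := by
    intro z
    rw [← S.W_B hgi (g z) x]
    simp only [← LinearEquiv.mul_apply, inv_mul_cancel, LinearEquiv.coe_one, id_eq]
  have hle : B (g S.o) x ≤ B ((g * S.s i) S.o) x := by
    by_cases hc : B ((g * S.s i) S.o) x ≤ B S.o x
    · exact hmin _ ⟨⟨g * S.s i, S.W.mul_mem hg (S.s_mem i), rfl⟩, hc⟩
    · linarith
  rw [hxe, LinearEquiv.mul_apply, hxe, s_apply, refl_apply, B_add_left, B_smul_left,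
    B_comm (S.e i)] at hle
  have h2 := S.o_in i
  have h3 := S.δ_pos
  nlinarith

theorem exists_chamber {x : E3} (hx : x ∈ Cone) : ∃ g ∈ S.W, ∃ y ∈ S.F, x = g y := by
  obtain ⟨g, hg, h⟩ := S.exists_mem_F hx
  refine ⟨g⁻¹, S.W.inv_mem hg, g x, h, ?_⟩
  simp only [← LinearEquiv.mul_apply, inv_mul_cancel, LinearEquiv.coe_one, id_eq]

/-- trivial stabilizers of interior points -/
theorem stab_trivial {g : E3 ≃ₗ[ℝ] E3} (hg : g ∈ S.W) {q : E3} (hq : q ∈ Cone)
    (hqi : ∀ i, B q (S.e i) < 0) (hgq : g q = q) {y : E3} (hy : y ∈ S.F) : g y = y := by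
  have hgy : g y ∈ Cone := S.W_cone hg hy.1
  have hfin := S.fin (g y) hgy
  -- choose ε
  have hε : ∃ ε : ℝ, 0 < ε ∧ ε < 1 ∧ ∀ i, B ((1 - ε) • q + ε • g y) (S.e i) ≤ 0 := by
    have h1 : ∀ i ∈ {i | 0 < B (g y) (S.e i)}, ∃ η : ℝ, 0 < η ∧ ∀ ε, 0 < ε → ε < η → ε < 1 →
        B ((1 - ε) • q + ε • g y) (S.e i) ≤ 0 := by
      intro i hi
      rw [Set.mem_ofPred_eq] at hi
      refine ⟨- B q (S.e i) / (B (g y) (S.e i) - B q (S.e i)), ?_, ?_⟩
      · have := hqi i
        apply div_pos <;> linarith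
      · intro ε h0 h1 _
        rw [B_add_left, B_smul_left, B_smul_left]
        have h2 := hqi i
        rw [lt_div_iff₀ (by linarith)] at h1
        nlinarith
    choose! η hη1 hη2 using h1
    by_cases hemp : {i | 0 < B (g y) (S.e i)}.Nonempty
    · obtain ⟨i0, hi0, hmin⟩ := Set.exists_min_image _ η hfin hemp
      refine ⟨min (η i0) 1 / 2, ?_, ?_, ?_⟩
      · have := hη1 i0 hi0
        positivity
      · have := min_le_right (η i0) 1
        linarith
      · intro i
        have hpos : 0 < min (η i0) 1 := lt_min (hη1 i0 hi0) one_pos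
        have hle1 := min_le_left (η i0) 1
        have hle2 := min_le_right (η i0) 1
        by_cases hi : 0 < B (g y) (S.e i)
        · apply hη2 i hi _ (by positivity) _ (by linarith)
          have := hmin i hi
          linarith
        · rw [B_add_left, B_smul_left, B_smul_left]
          push Not at hi
          have h2 := hqi i
          have h3 : (1 - min (η i0) 1 / 2) * B q (S.e i) ≤ 0 :=
            mul_nonpos_of_nonneg_of_nonpos (by linarith) h2.le
          have h4 : (min (η i0) 1 / 2) * B (g y) (S.e i) ≤ 0 :=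
            mul_nonpos_of_nonneg_of_nonpos (by linarith) hi
          linarith
    · refine ⟨1 / 2, by norm_num, by norm_num, fun i => ?_⟩
      have hi : ¬ 0 < B (g y) (S.e i) := fun h => hemp ⟨i, h⟩
      push Not at hi
      rw [B_add_left, B_smul_left, B_smul_left]
      have h2 := hqi i
      nlinarith
  obtain ⟨ε, h0, h1, hε⟩ := hε
  set a := (1 - ε) • q + ε • y with ha
  have haF : a ∈ S.F := by
    refine ⟨cone_add (cone_smul hq (by linarith)) (cone_smul hy.1 h0), fun i => ?_⟩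
    rw [ha, B_add_left, B_smul_left, B_smul_left]
    have h2 := hqi i
    have h3 := hy.2 i
    nlinarith
  have hga : g a = (1 - ε) • q + ε • g y := by
    rw [ha, map_add, map_smul, map_smul, hgq]
  have hgaF : g a ∈ S.F := ⟨S.W_cone hg haF.1, by rw [hga]; exact hε⟩
  have h5 : a = g a := S.eq_of_smul hg S.W.one_mem haF hgaF rfl
  rw [hga, ha] at h5
  have h6 : ε • y = ε • g y := add_left_cancel h5
  have h7 := smul_right_injective E3 h0.ne' h6
  exact h7.symm

end WallSystem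

end

end Pool.Agent.H33CP
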