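import Mathlib

/-! Existence of the radii (Perron method) for the strip with prescribed angle sums. -/

namespace Pool.Agent.H33CP

open Real

noncomputable section

/-- Angle at the vertex with parameter `t` in the triangle of three mutually tangent
hyperbolic circles, `t = coth r`. -/
def ang (t s u : ℝ) : ℝ := arccos (1 - 2 * (t ^ 2 - 1) / ((t + s) * (t + u)))

theorem ang_anti {t s u s' u' : ℝ} (ht : 1 ≤ t) (hs : 1 ≤ s) (hu : 1 ≤ u) (hs' : s ≤ s')
    (hu' : u ≤ u') : ang t s' u' ≤ ang t s u := by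
  unfold ang
  apply arccos_le_arccos
  have h1 : 0 < (t + s) * (t + u) := by nlinarith
  have h2 : (t + s) * (t + u) ≤ (t + s') * (t + u') := by
    apply mul_le_mul <;> linarith
  have h3 : 0 ≤ 2 * (t ^ 2 - 1) := by nlinarith
  have := div_le_div_of_nonneg_left h3 h1 h2
  linarith

theorem ang_cont {s u : ℝ} (hs : 1 ≤ s) (hu : 1 ≤ u) :
    ContinuousOn (fun t => ang t s u) (Set.Icc 1 (11/10)) := by
  unfold ang
  apply continuous_arccos.comp_continuousOn
  apply ContinuousOn.sub continuousOn_const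
  apply ContinuousOn.div
  · fun_prop
  · fun_prop
  · intro x hx
    have := hx.1
    have h1 : 0 < (x + s) * (x + u) := by
      apply mul_pos <;> linarith
    exact h1.ne'

theorem ang_one (s u : ℝ) : ang 1 s u = 0 := by
  unfold ang; simp

theorem ang_nonneg (t s u : ℝ) : 0 ≤ ang t s u := arccos_nonneg _

theorem ang_frac {t s u : ℝ} (ht : 1 ≤ t) (ht' : t ≤ 11/10) (hs : 1 ≤ s) (hu : 1 ≤ u) :
    0 ≤ 2 * (t ^ 2 - 1) / ((t + s) * (t + u)) ∧ 2 * (t ^ 2 - 1) / ((t + s) * (t + u)) ≤ 21/200 := by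
  have h1 : 4 ≤ (t + s) * (t + u) := by nlinarith
  constructor
  · apply div_nonneg <;> nlinarith
  · rw [div_le_iff₀ (by linarith)]; nlinarith

theorem cos_ang {t s u : ℝ} (ht : 1 ≤ t) (ht' : t ≤ 11/10) (hs : 1 ≤ s) (hu : 1 ≤ u) :
    cos (ang t s u) = 1 - 2 * (t ^ 2 - 1) / ((t + s) * (t + u)) := by
  obtain ⟨h1, h2⟩ := ang_frac ht ht' hs hu
  unfold ang
  rw [cos_arccos] <;> linarith

theorem sin_ang_nonneg (t s u : ℝ) : 0 ≤ sin (ang t s u) := by
  unfold ang
  exact sin_nonneg_of_nonneg_of_le_pi (arccos_nonneg _) (arccos_le_pi _)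

/-- the angle sum at `k` -/
def Ang (t : ℤ → ℝ) (k : ℤ) : ℝ :=
  ang (t k) (t (k - 2)) (t (k - 1)) + ang (t k) (t (k - 1)) (t (k + 1))
    + ang (t k) (t (k + 1)) (t (k + 2))

theorem ang_tau : π / 12 ≤ ang (11/10) (11/10) (11/10) := by
  unfold ang
  rw [← arccos_cos (x := π / 12) (by positivity) (by linarith [pi_pos])]
  apply arccos_le_arccos
  have h1 := one_sub_sq_div_two_le_cos (x := π / 12)
  have h2 := pi_lt_d2
  have h3 := pi_pos
  have h4 : (π / 12) ^ 2 ≤ (3.15 / 12) ^ 2 := by
    apply pow_le_pow_left₀ (by positivity); linarith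
  norm_num at *
  linarith

theorem exists_radii (M : ℤ → ℕ) (hM : ∀ k, 4 ≤ M k) :
    ∃ t : ℤ → ℝ, (∀ k, 1 < t k ∧ t k ≤ 11/10) ∧ ∀ k, Ang t k = π / M k := by
  classical
  set S : Set (ℤ → ℝ) := {t | ∀ k, (1 ≤ t k ∧ t k ≤ 11/10) ∧ π / M k ≤ Ang t k} with hS
  have hMpos : ∀ k, (0:ℝ) < M k := fun k => by
    have : 0 < M k := by linarith [hM k]
    exact_mod_cast this
  have hne : (fun _ => (11/10 : ℝ)) ∈ S := by
    intro k
    refine ⟨by norm_num, ?_⟩
    have h1 : π / M k ≤ π / 4 := by
      apply div_le_div_of_nonneg_left pi_pos.le (by norm_num)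
      exact_mod_cast hM k
    have h2 := ang_tau
    unfold Ang
    linarith
  set T : ℤ → ℝ := fun k => sInf ((fun t : ℤ → ℝ => t k) '' S) with hT
  have hbdd : ∀ k, BddBelow ((fun t : ℤ → ℝ => t k) '' S) := by
    intro k
    refine ⟨1, ?_⟩
    rintro _ ⟨t, ht, rfl⟩
    exact (ht k).1.1
  have hnek : ∀ k, ((fun t : ℤ → ℝ => t k) '' S).Nonempty := fun k => ⟨_, _, hne, rfl⟩
  have hTle : ∀ t ∈ S, ∀ k, T k ≤ t k := fun t ht k => csInf_le (hbdd k) ⟨t, ht, rfl⟩
  have hT1 : ∀ k, 1 ≤ T k := by
    intro k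
    apply le_csInf (hnek k)
    rintro _ ⟨t, ht, rfl⟩
    exact (ht k).1.1
  have hT2 : ∀ k, T k ≤ 11/10 := fun k => hTle _ hne k
  -- continuity in one coordinate
  have hcont : ∀ k, ContinuousOn (fun x => ang x (T (k - 2)) (T (k - 1)) + ang x (T (k - 1)) (T (k + 1))
    + ang x (T (k + 1)) (T (k + 2))) (Set.Icc 1 (11/10)) := by
    intro k
    exact ((ang_cont (hT1 _) (hT1 _)).add (ang_cont (hT1 _) (hT1 _))).add (ang_cont (hT1 _) (hT1 _))
  have hTS : T ∈ S := by
    intro k
    refine ⟨⟨hT1 k, hT2 k⟩, ?_⟩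
    -- closed set
    have hclosed : IsClosed {x | x ∈ Set.Icc (1:ℝ) (11/10) ∧ π / M k ≤ ang x (T (k - 2)) (T (k - 1))
        + ang x (T (k - 1)) (T (k + 1)) + ang x (T (k + 1)) (T (k + 2))} := by
      have := (hcont k).preimage_isClosed_of_isClosed isClosed_Icc (isClosed_Ici (a := π / M k))
      exact this
    have hsub : ((fun t : ℤ → ℝ => t k) '' S) ⊆ {x | x ∈ Set.Icc (1:ℝ) (11/10) ∧
        π / M k ≤ ang x (T (k - 2)) (T (k - 1))
        + ang x (T (k - 1)) (T (k + 1)) + ang x (T (k + 1)) (T (k + 2))} := by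
      rintro _ ⟨t, ht, rfl⟩
      refine ⟨(ht k).1, le_trans (ht k).2 ?_⟩
      unfold Ang
      have a1 := ang_anti (ht k).1.1 (hT1 (k - 2)) (hT1 (k - 1)) (hTle t ht (k - 2)) (hTle t ht (k - 1))
      have a2 := ang_anti (ht k).1.1 (hT1 (k - 1)) (hT1 (k + 1)) (hTle t ht (k - 1)) (hTle t ht (k + 1))
      have a3 := ang_anti (ht k).1.1 (hT1 (k + 1)) (hT1 (k + 2)) (hTle t ht (k + 1)) (hTle t ht (k + 2))
      linarith
    have hmem := csInf_mem_closure (hnek k) (hbdd k)
    have := closure_minimal hsub hclosed hmem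
    exact this.2
  have heq : ∀ k, Ang T k = π / M k := by
    intro k
    by_contra hne'
    have hlt : π / M k < Ang T k := lt_of_le_of_ne (hTS k).2 (Ne.symm hne')
    have hpos : 0 < π / M k := div_pos pi_pos (hMpos k)
    have hTk : 1 < T k := by
      rcases (hT1 k).lt_or_eq with h | h
      · exact h
      · exfalso
        unfold Ang at hlt
        rw [← h, ang_one, ang_one, ang_one] at hlt
        linarith
    -- lower the coordinate
    have hc := hcont k (T k) ⟨hT1 k, hT2 k⟩
    have hev : ∀ᶠ x in nhdsWithin (T k) (Set.Icc 1 (11/10)), π / M k <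
        ang x (T (k - 2)) (T (k - 1)) + ang x (T (k - 1)) (T (k + 1)) + ang x (T (k + 1)) (T (k + 2)) :=
      hc.eventually (lt_mem_nhds hlt)
    rw [Filter.Eventually, Metric.mem_nhdsWithin_iff] at hev
    obtain ⟨ε, hε, hball⟩ := hev
    set x := max 1 (T k - ε / 2) with hx
    have hx1 : 1 ≤ x := le_max_left _ _
    have hx2 : x < T k := max_lt hTk (by linarith)
    have hxm : π / M k < ang x (T (k - 2)) (T (k - 1)) + ang x (T (k - 1)) (T (k + 1))
        + ang x (T (k + 1)) (T (k + 2)) := by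
      apply hball
      refine ⟨?_, hx1, by linarith [hT2 k]⟩
      rw [Metric.mem_ball, Real.dist_eq, abs_lt]
      have : T k - ε / 2 ≤ x := le_max_right _ _
      constructor <;> linarith
    have hnew : Function.update T k x ∈ S := by
      intro j
      by_cases hj : j = k
      · subst hj
        refine ⟨?_, ?_⟩
        · rw [Function.update_self]
          exact ⟨hx1, by linarith [hT2 j]⟩
        · unfold Ang
          rw [Function.update_self, Function.update_of_ne (by omega), Function.update_of_ne (by omega),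
            Function.update_of_ne (by omega), Function.update_of_ne (by omega)]
          exact hxm.le
      · have hle : ∀ i, Function.update T k x i ≤ T i := by
          intro i
          by_cases hi : i = k
          · subst hi; rw [Function.update_self]; exact hx2.le
          · rw [Function.update_of_ne hi]
        have hge : ∀ i, 1 ≤ Function.update T k x i := by
          intro i
          by_cases hi : i = k
          · subst hi; rw [Function.update_self]; exact hx1
          · rw [Function.update_of_ne hi]; exact hT1 i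
        refine ⟨⟨hge j, le_trans (hle j) (hT2 j)⟩, le_trans (hTS j).2 ?_⟩
        unfold Ang
        rw [Function.update_of_ne hj]
        have a1 := ang_anti (hT1 j) (hge (j - 2)) (hge (j - 1)) (hle (j - 2)) (hle (j - 1))
        have a2 := ang_anti (hT1 j) (hge (j - 1)) (hge (j + 1)) (hle (j - 1)) (hle (j + 1))
        have a3 := ang_anti (hT1 j) (hge (j + 1)) (hge (j + 2)) (hle (j + 1)) (hle (j + 2))
        linarith
    have := hTle _ hnew k
    rw [Function.update_self] at this
    linarith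
  refine ⟨T, fun k => ⟨?_, hT2 k⟩, heq⟩
  rcases (hT1 k).lt_or_eq with h | h
  · exact h
  · exfalso
    have h2 := heq k
    unfold Ang at h2
    rw [← h, ang_one, ang_one, ang_one] at h2
    have hpos : 0 < π / M k := div_pos pi_pos (hMpos k)
    linarith

end

end Pool.Agent.H33CP
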