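import Pool.Agent.H33CP.Fold
import Pool.Agent.H33CP.Radii

/-! The strip of mutually tangent circles, its walls and diagonals. -/

namespace Pool.Agent.H33CP

open Real

noncomputable section

/-- Lorentzian cross product. -/
def cross (x y : E3) : E3 :=
  ![x 1 * y 2 - x 2 * y 1, x 0 * y 2 - x 2 * y 0, x 1 * y 0 - x 0 * y 1]

theorem B_cross (x y z : E3) : B z (cross x y) = det3 x y z := by
  simp [B, cross, det3]; ring

theorem cross_cross (x y u v : E3) :
    B (cross x y) (cross u v) = B x u * B y v - B x v * B y u := by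
  simp [B, cross]; ring

/-- Bounds for the coefficients of the recursion. -/
structure Coef (α β γ : ℝ) : Prop where
  a1 : 40/41 ≤ α
  a2 : α ≤ 41/40
  b1 : 17/10 ≤ β
  g1 : 17/10 ≤ γ
  b2 : 17/10 * α ≤ β
  g2 : 17/10 * α ≤ γ
  b3 : β ≤ 22/10
  g3 : γ ≤ 22/10
  b4 : β ≤ 22/10 * α
  g4 : γ ≤ 22/10 * α

theorem Coef.rev {α β γ : ℝ} (h : Coef α β γ) : Coef (1/α) (γ/α) (β/α) := by
  have ha : 0 < α := by linarith [h.a1]
  obtain ⟨a1, a2, b1, g1, b2, g2, b3, g3, b4, g4⟩ := h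
  constructor
  · rw [le_div_iff₀ ha]; linarith
  · rw [div_le_iff₀ ha]; linarith
  · rw [le_div_iff₀ ha]; linarith
  · rw [le_div_iff₀ ha]; linarith
  · rw [le_div_iff₀ ha]; field_simp; linarith
  · rw [le_div_iff₀ ha]; field_simp; linarith
  · rw [div_le_iff₀ ha]; linarith
  · rw [div_le_iff₀ ha]; linarith
  · rw [div_le_iff₀ ha]; field_simp; linarith
  · rw [div_le_iff₀ ha]; field_simp; linarith

/-- A mutually tangent triple. -/
structure Tri3 (p a b : ℝ) (x y z : E3) : Prop where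
  cx : x ∈ Cone
  cy : y ∈ Cone
  cz : z ∈ Cone
  xx : B x x = p ^ 2 - 1
  yy : B y y = a ^ 2 - 1
  zz : B z z = b ^ 2 - 1
  xy : B x y = 1 + p * a
  xz : B x z = 1 + p * b
  yz : B y z = 1 + a * b

theorem Tri3.rev {p a b : ℝ} {x y z : E3} (h : Tri3 p a b x y z) : Tri3 b a p z y x := by
  obtain ⟨cx, cy, cz, xx, yy, zz, xy, xz, yz⟩ := h
  constructor <;> try assumption
  · rw [B_comm, yz]; ring
  · rw [B_comm, xz]; ring
  · rw [B_comm, xy]; ring

/-- the coefficients -/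
def cα (p a b q : ℝ) : ℝ := √((1 + q * a + q * b + a * b) / (1 + p * a + p * b + a * b))
def cβ (p a b q : ℝ) : ℝ := ((q * a + q * b + 2 + a * b - b ^ 2) +
  cα p a b q * (p * a + p * b + 2 + a * b - b ^ 2)) / (a + b) ^ 2
def cγ (p a b q : ℝ) : ℝ := ((q * a + q * b + 2 + a * b - a ^ 2) +
  cα p a b q * (p * a + p * b + 2 + a * b - a ^ 2)) / (a + b) ^ 2

theorem cα_sq {p a b q : ℝ} (hp : 1 < p) (ha : 1 < a) (hb : 1 < b) (hq : 1 < q) :
    0 < cα p a b q ∧
    cα p a b q ^ 2 * (1 + p * a + p * b + a * b) = 1 + q * a + q * b + a * b := by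
  have h1 : 0 < 1 + p * a + p * b + a * b := by positivity
  have h2 : 0 < 1 + q * a + q * b + a * b := by positivity
  unfold cα
  constructor
  · positivity
  · rw [sq_sqrt (by positivity)]; field_simp

theorem coef_low {n α X Y : ℝ} (hn : 2 ≤ n) (hn' : n ≤ 22/10) (h1 : 40/41 ≤ α) (h2 : α ≤ 41/40)
    (hX : n * (19/10) ≤ X) (hY : n * (19/10) ≤ Y) :
    17/10 ≤ (X + α * Y) / n ^ 2 ∧ 17/10 * α ≤ (X + α * Y) / n ^ 2 := by
  have hN : 0 < n ^ 2 := by positivity
  have hα0 : 0 < α := by linarith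
  have hn0 : 0 < n := by linarith
  have g1 : α * (n * (19/10)) ≤ α * Y := mul_le_mul_of_nonneg_left hY hα0.le
  have g2 : 40/41 * n ≤ α * n := mul_le_mul_of_nonneg_right h1 hn0.le
  have g3 : α * n ≤ 41/40 * n := mul_le_mul_of_nonneg_right h2 hn0.le
  have g4 : n * n ≤ 22/10 * n := mul_le_mul_of_nonneg_right hn' hn0.le
  have g5 : (α * n) * n ≤ (α * n) * (22/10) := mul_le_mul_of_nonneg_left hn' (by positivity)
  constructor
  · rw [le_div_iff₀ hN, pow_two]; linarith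
  · rw [le_div_iff₀ hN, pow_two]; linarith

theorem coef_up {n α X Y : ℝ} (hn : 2 ≤ n) (h1 : 40/41 ≤ α) (h2 : α ≤ 41/40)
    (hX : X ≤ n * (211/100)) (hY : Y ≤ n * (211/100)) :
    (X + α * Y) / n ^ 2 ≤ 22/10 ∧ (X + α * Y) / n ^ 2 ≤ 22/10 * α := by
  have hN : 0 < n ^ 2 := by positivity
  have hα0 : 0 < α := by linarith
  have hn0 : 0 < n := by linarith
  have g1 : α * Y ≤ α * (n * (211/100)) := mul_le_mul_of_nonneg_left hY hα0.le
  have g2 : 40/41 * n ≤ α * n := mul_le_mul_of_nonneg_right h1 hn0.le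
  have g3 : α * n ≤ 41/40 * n := mul_le_mul_of_nonneg_right h2 hn0.le
  have g4 : 2 * n ≤ n * n := mul_le_mul_of_nonneg_right hn hn0.le
  have g5 : (α * n) * 2 ≤ (α * n) * n := mul_le_mul_of_nonneg_left hn (by positivity)
  constructor
  · rw [div_le_iff₀ hN, pow_two]; linarith
  · rw [div_le_iff₀ hN, pow_two]; linarith

theorem coef_key {a b s r : ℝ} (ha : 1 < a) (ha' : a ≤ 11/10) (hb : 1 < b) (hb' : b ≤ 11/10)
    (hs1 : 1 < s) (hs2 : s ≤ 11/10) (hr1 : 1 < r) (hr2 : r ≤ 11/10) :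
      (a + b) * (19/10) ≤ s * a + s * b + 2 + 2 * (a * b) - r * (a + b) ∧
      s * a + s * b + 2 + 2 * (a * b) - r * (a + b) ≤ (a + b) * (211/100) := by
  have hab : 0 ≤ (a - 1) * (b - 1) := mul_nonneg (by linarith) (by linarith)
  have hab2 : (a - 1) * (b - 1) ≤ (1/10) * (1/10) := mul_le_mul (by linarith) (by linarith)
    (by linarith) (by norm_num)
  have hn : 0 < a + b := by linarith
  have h1 : s * (a + b) ≤ 11/10 * (a + b) := mul_le_mul_of_nonneg_right hs2 hn.le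
  have h2 : 1 * (a + b) ≤ s * (a + b) := mul_le_mul_of_nonneg_right hs1.le hn.le
  have h3 : r * (a + b) ≤ 11/10 * (a + b) := mul_le_mul_of_nonneg_right hr2 hn.le
  have h4 : 1 * (a + b) ≤ r * (a + b) := mul_le_mul_of_nonneg_right hr1.le hn.le
  constructor <;> linarith

theorem coef_alpha {p q c s α : ℝ} (hp : 1 < p ∧ p ≤ 11/10) (hq : 1 < q ∧ q ≤ 11/10)
    (hs : 0 < s) (hc : s ≤ c) (hα0 : 0 < α) (hα : α ^ 2 * (c + p * s) = c + q * s) :
    40/41 ≤ α ∧ α ≤ 41/40 := by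
  have h1 : p * s ≤ 11/10 * s := mul_le_mul_of_nonneg_right hp.2 hs.le
  have h2 : q * s ≤ 11/10 * s := mul_le_mul_of_nonneg_right hq.2 hs.le
  have h3 : 1 * s ≤ p * s := mul_le_mul_of_nonneg_right hp.1.le hs.le
  have h4 : 1 * s ≤ q * s := mul_le_mul_of_nonneg_right hq.1.le hs.le
  have hP : 0 < c + p * s := by linarith
  constructor
  · by_contra hc'
    push Not at hc'
    have h1 : α ^ 2 < (40/41) ^ 2 := pow_lt_pow_left₀ hc' hα0.le (by norm_num)
    have h2 := mul_lt_mul_of_pos_right h1 hP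
    rw [hα] at h2
    linarith
  · by_contra hc'
    push Not at hc'
    have h1 : (41/40) ^ 2 < α ^ 2 := pow_lt_pow_left₀ hc' (by norm_num) (by norm_num)
    have h2 := mul_lt_mul_of_pos_right h1 hP
    rw [hα] at h2
    linarith

theorem coef {p a b q : ℝ} (hp : 1 < p ∧ p ≤ 11/10) (ha : 1 < a ∧ a ≤ 11/10)
    (hb : 1 < b ∧ b ≤ 11/10) (hq : 1 < q ∧ q ≤ 11/10) :
    Coef (cα p a b q) (cβ p a b q) (cγ p a b q) := by
  obtain ⟨hα0, hα⟩ := cα_sq hp.1 ha.1 hb.1 hq.1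
  have hab : 0 ≤ (a - 1) * (b - 1) := mul_nonneg (by linarith [ha.1]) (by linarith [hb.1])
  obtain ⟨hα1, hα2⟩ := coef_alpha (c := 1 + a * b) (s := a + b) hp hq (by linarith [ha.1, hb.1])
    (by linarith) hα0 (by linear_combination hα)
  unfold cβ cγ
  generalize cα p a b q = α at *
  have hs1 : a + b ≤ 22/10 := by linarith [ha.2, hb.2]
  have hs2 : 2 ≤ a + b := by linarith [ha.1, hb.1]
  obtain ⟨l1, u1⟩ := coef_key ha.1 ha.2 hb.1 hb.2 hq.1 hq.2 hb.1 hb.2
  obtain ⟨l2, u2⟩ := coef_key ha.1 ha.2 hb.1 hb.2 hp.1 hp.2 hb.1 hb.2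
  obtain ⟨l3, u3⟩ := coef_key ha.1 ha.2 hb.1 hb.2 hq.1 hq.2 ha.1 ha.2
  obtain ⟨l4, u4⟩ := coef_key ha.1 ha.2 hb.1 hb.2 hp.1 hp.2 ha.1 ha.2
  have e1 : q * a + q * b + 2 + a * b - b ^ 2 = q * a + q * b + 2 + 2 * (a * b) - b * (a + b) := by ring
  have e2 : p * a + p * b + 2 + a * b - b ^ 2 = p * a + p * b + 2 + 2 * (a * b) - b * (a + b) := by ring
  have e3 : q * a + q * b + 2 + a * b - a ^ 2 = q * a + q * b + 2 + 2 * (a * b) - a * (a + b) := by ring
  have e4 : p * a + p * b + 2 + a * b - a ^ 2 = p * a + p * b + 2 + 2 * (a * b) - a * (a + b) := by ring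
  rw [e1, e2, e3, e4]
  exact ⟨hα1, hα2, (coef_low hs2 hs1 hα1 hα2 l1 l2).1, (coef_low hs2 hs1 hα1 hα2 l3 l4).1,
    (coef_low hs2 hs1 hα1 hα2 l1 l2).2, (coef_low hs2 hs1 hα1 hα2 l3 l4).2,
    (coef_up hs2 hα1 hα2 u1 u2).1, (coef_up hs2 hα1 hα2 u3 u4).1,
    (coef_up hs2 hα1 hα2 u1 u2).2, (coef_up hs2 hα1 hα2 u3 u4).2⟩

theorem step3 {p a b q : ℝ} (hp : 1 < p ∧ p ≤ 11/10) (ha : 1 < a ∧ a ≤ 11/10)
    (hb : 1 < b ∧ b ≤ 11/10) (hq : 1 < q ∧ q ≤ 11/10) {x y z : E3} (h : Tri3 p a b x y z) :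
    ∃ v, Tri3 a b q y z v ∧ ∃ α β γ, Coef α β γ ∧ v = (-α) • x + β • y + γ • z := by
  obtain ⟨cx, cy, cz, xx, yy, zz, xy, xz, yz⟩ := h
  refine ⟨(-cα p a b q) • x + cβ p a b q • y + cγ p a b q • z, ?_, _, _, _,
    coef hp ha hb hq, rfl⟩
  obtain ⟨hα0, hα⟩ := cα_sq hp.1 ha.1 hb.1 hq.1
  have hab : a + b ≠ 0 := by linarith [ha.1, hb.1]
  set v := (-cα p a b q) • x + cβ p a b q • y + cγ p a b q • z with hv
  have hyv : B y v = 1 + a * q := by
    rw [hv]
    simp only [B_add_right, B_smul_right]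
    rw [B_comm y x, xy, yy, yz]
    unfold cβ cγ
    field_simp
    ring
  have hzv : B z v = 1 + b * q := by
    rw [hv]
    simp only [B_add_right, B_smul_right]
    rw [B_comm z x, B_comm z y, xz, zz, yz]
    unfold cβ cγ
    field_simp
    ring
  have hxv : B x v = - cα p a b q * (p ^ 2 - 1) + cβ p a b q * (1 + p * a)
      + cγ p a b q * (1 + p * b) := by
    rw [hv]
    simp only [B_add_right, B_smul_right]
    rw [xx, xy, xz]
  have hvv : B v v = q ^ 2 - 1 := by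
    have h1 : B v v = - cα p a b q * B x v + cβ p a b q * B y v + cγ p a b q * B z v := by
      conv_lhs => rw [hv]
      simp only [B_add_left, B_smul_left]
      rfl
    rw [h1, hxv, hyv, hzv]
    have h2 : - cα p a b q * (- cα p a b q * (p ^ 2 - 1) + cβ p a b q * (1 + p * a)
      + cγ p a b q * (1 + p * b)) + cβ p a b q * (1 + a * q) + cγ p a b q * (1 + b * q)
      = q ^ 2 - 1 + 4 * ((1 + q * a + q * b + a * b) - cα p a b q ^ 2 * (1 + p * a + p * b + a * b))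
        / (a + b) ^ 2 := by
      unfold cβ cγ
      field_simp
      ring
    rw [h2, hα]; ring
  have hcv : v ∈ Cone := by
    apply mem_cone_of cy
    · rw [hvv]; nlinarith [hq.1]
    · rw [hyv]; nlinarith [hq.1, ha.1]
  exact ⟨cy, cz, hcv, yy, zz, hvv, yz, hyv, hzv⟩

/-- initial triple -/
theorem init3 {p a b : ℝ} (hp : 1 < p) (ha : 1 < a) (hb : 1 < b) :
    ∃ x y z, Tri3 p a b x y z ∧ 0 < det3 x y z := by
  have hs : 0 < p ^ 2 - 1 := by nlinarith
  set s := √(p ^ 2 - 1) with hsdef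
  have hs0 : 0 < s := sqrt_pos.2 hs
  have hs2 : s ^ 2 = p ^ 2 - 1 := sq_sqrt hs.le
  have hr : 0 < 1 + p * a + p * b + a * b := by positivity
  set r := √(1 + p * a + p * b + a * b) with hrdef
  have hr0 : 0 < r := sqrt_pos.2 hr
  have hr2 : r ^ 2 = 1 + p * a + p * b + a * b := sq_sqrt hr.le
  have hpa : 0 < p + a := by positivity
  set x : E3 := ![s, 0, 0] with hx
  set y : E3 := ![(1 + p * a) / s, (p + a) / s, 0] with hy
  set z : E3 := ![(1 + p * b) / s, (2 + p * a + p * b + a * b - p ^ 2) / ((p + a) * s),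
    2 * r / (p + a)] with hz
  have xx : B x x = p ^ 2 - 1 := by
    simp [B, hx]; nlinarith
  have xy : B x y = 1 + p * a := by
    simp [B, hx, hy]; field_simp
  have xz : B x z = 1 + p * b := by
    simp [B, hx, hz]; field_simp
  have yy : B y y = a ^ 2 - 1 := by
    simp only [B, hy, Matrix.cons_val_zero, Matrix.cons_val_one, Matrix.cons_val]
    field_simp
    rw [hs2]; ring
  have yz : B y z = 1 + a * b := by
    simp only [B, hy, hz, Matrix.cons_val_zero, Matrix.cons_val_one, Matrix.cons_val]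
    field_simp
    rw [hs2]; ring
  have zz : B z z = b ^ 2 - 1 := by
    simp only [B, hz, Matrix.cons_val_zero, Matrix.cons_val_one, Matrix.cons_val]
    field_simp
    rw [hs2, hr2]; ring
  have cx : x ∈ Cone := ⟨by rw [xx]; exact hs, by simpa [hx] using hs0⟩
  refine ⟨x, y, z, ⟨cx, ?_, ?_, xx, yy, zz, xy, xz, yz⟩, ?_⟩
  · apply mem_cone_of cx
    · rw [yy]; nlinarith
    · rw [xy]; positivity
  · apply mem_cone_of cx
    · rw [zz]; nlinarith
    · rw [xz]; positivity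
  · have : det3 x y z = 2 * r := by
      simp only [det3, hx, hy, hz, Matrix.cons_val_zero, Matrix.cons_val_one, Matrix.cons_val]
      field_simp
      ring
    rw [this]; positivity

/-- two-sided dependent choice -/
theorem two_sided {X : Type} (P : ℤ → X → Prop) (Q : ℤ → X → X → Prop) (x0 : X) (h0 : P 0 x0)
    (fwd : ∀ k x, P k x → ∃ y, P (k + 1) y ∧ Q k x y)
    (bwd : ∀ k y, P (k + 1) y → ∃ x, P k x ∧ Q k x y) :
    ∃ s : ℤ → X, s 0 = x0 ∧ ∀ k, P k (s k) ∧ Q k (s k) (s (k + 1)) := by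
  choose! F hF1 hF2 using fwd
  choose! G hG1 hG2 using bwd
  let f : ℕ → X := fun n => Nat.rec x0 (fun n x => F n x) n
  let g : ℕ → X := fun n => Nat.rec x0 (fun n x => G (-(n + 1 : ℤ)) x) n
  have hf : ∀ n : ℕ, P n (f n) := by
    intro n
    induction n with
    | zero => exact h0
    | succ n ih => exact_mod_cast hF1 n (f n) ih
  have hg : ∀ n : ℕ, P (-(n : ℤ)) (g n) := by
    intro n
    induction n with
    | zero =>
      have e : -((0 : ℕ) : ℤ) = 0 := by simp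
      rw [e]; exact h0
    | succ n ih =>
      have := hG1 (-(n + 1 : ℤ)) (g n) (by
        have e : -(n + 1 : ℤ) + 1 = -(n : ℤ) := by ring
        rw [e]; exact ih)
      push_cast
      exact this
  let s : ℤ → X := fun k => if 0 ≤ k then f k.toNat else g (-k).toNat
  have hs1 : ∀ n : ℕ, s n = f n := by
    intro n
    simp [s]
  have hs2 : ∀ n : ℕ, s (-(n : ℤ)) = g n := by
    intro n
    cases n with
    | zero => simp [s, f, g]
    | succ n =>
      have h1 : ¬ (0 ≤ (-((n + 1 : ℕ) : ℤ))) := by push_cast; omega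
      have h2 : (-(-((n + 1 : ℕ) : ℤ))).toNat = n + 1 := by simp
      simp only [s, h1, if_false, h2]
  refine ⟨s, by simpa [f] using hs1 0, fun k => ?_⟩
  rcases le_or_gt 0 k with hk | hk
  · obtain ⟨n, rfl⟩ := Int.eq_ofNat_of_zero_le hk
    have e : s ((n : ℤ) + 1) = f (n + 1) := by
      have := hs1 (n + 1)
      push_cast at this
      exact this
    rw [hs1, e]
    exact ⟨hf n, hF2 n (f n) (hf n)⟩
  · obtain ⟨n, hn⟩ := Int.eq_ofNat_of_zero_le (show 0 ≤ -k - 1 by omega)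
    have hk' : k = -((n + 1 : ℕ) : ℤ) := by push_cast; omega
    have hk'' : k + 1 = -(n : ℤ) := by omega
    rw [hk'', hs2, hk', hs2]
    refine ⟨hg (n + 1), ?_⟩
    have := hG2 (-(n + 1 : ℤ)) (g n) (by
        have e : -(n + 1 : ℤ) + 1 = -(n : ℤ) := by ring
        rw [e]; exact hg n)
    push_cast
    exact this

/-- sign -/
def sg (k : ℤ) : ℝ := if Even k then 1 else -1

theorem sg_sq (k : ℤ) : sg k * sg k = 1 := by unfold sg; split_ifs <;> norm_num

theorem sg_succ (k : ℤ) : sg (k + 1) = - sg k := by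
  unfold sg
  by_cases h : Even k
  · have : ¬ Even (k + 1) := by simpa [Int.even_add_one] using h
    simp [h, this]
  · have : Even (k + 1) := by simpa [Int.even_add_one] using h
    simp [h, this]

structure Strip (t : ℤ → ℝ) (w : ℤ → E3) : Prop where
  ht : ∀ k, 1 < t k ∧ t k ≤ 11/10
  tri : ∀ k, Tri3 (t k) (t (k + 1)) (t (k + 2)) (w k) (w (k + 1)) (w (k + 2))
  rel : ∀ k, ∃ α β γ, Coef α β γ ∧ w (k + 3) = (-α) • w k + β • w (k + 1) + γ • w (k + 2)
  sgn : ∀ k, 0 < sg k * det3 (w k) (w (k + 1)) (w (k + 2))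

theorem det3_step (α β γ : ℝ) (x y z : E3) :
    det3 y z ((-α) • x + β • y + γ • z) = - α * det3 x y z := by
  simp only [det3, Pi.add_apply, Pi.smul_apply, smul_eq_mul]; ring

theorem exists_strip (t : ℤ → ℝ) (ht : ∀ k, 1 < t k ∧ t k ≤ 11/10) : ∃ w, Strip t w := by
  obtain ⟨x, y, z, hT, hd⟩ := init3 (ht 0).1 (ht 1).1 (ht 2).1
  obtain ⟨s, _, hs⟩ := two_sided (X := E3 × E3 × E3)
    (fun k s => Tri3 (t k) (t (k + 1)) (t (k + 2)) s.1 s.2.1 s.2.2 ∧ 0 < sg k * det3 s.1 s.2.1 s.2.2)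
    (fun k s s' => s'.1 = s.2.1 ∧ s'.2.1 = s.2.2 ∧
      ∃ α β γ, Coef α β γ ∧ s'.2.2 = (-α) • s.1 + β • s.2.1 + γ • s.2.2) (x, y, z)
    (by
      refine ⟨by simpa using hT, ?_⟩
      simpa [sg] using hd)
    (by
      rintro k ⟨x, y, z⟩ ⟨h1, h2⟩
      obtain ⟨v, hv, α, β, γ, hc, hv2⟩ := step3 (ht k) (ht (k + 1)) (ht (k + 2)) (ht (k + 3)) h1
      refine ⟨(y, z, v), ⟨?_, ?_⟩, rfl, rfl, α, β, γ, hc, hv2⟩
      · rw [show k + 1 + 1 = k + 2 by ring, show k + 1 + 2 = k + 3 by ring]; exact hv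
      · simp only
        rw [hv2, det3_step, sg_succ]
        have := hc.a1
        have h3 : - sg k * (-α * det3 x y z) = α * (sg k * det3 x y z) := by ring
        rw [h3]
        apply mul_pos _ h2
        linarith)
    (by
      rintro k ⟨y, z, v⟩ ⟨h1, h2⟩
      simp only at h1 h2
      rw [show k + 1 + 1 = k + 2 by ring, show k + 1 + 2 = k + 3 by ring] at h1
      obtain ⟨x, hx, α, β, γ, hc, hx2⟩ := step3 (ht (k + 3)) (ht (k + 2)) (ht (k + 1)) (ht k) h1.rev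
      have hα : 0 < α := by linarith [hc.a1]
      have hv2 : v = (-(1/α)) • x + (γ/α) • y + (β/α) • z := by
        rw [hx2]
        apply E3.ext <;> simp only [Pi.add_apply, Pi.smul_apply, smul_eq_mul] <;> field_simp <;> ring
      refine ⟨(x, y, z), ⟨hx.rev, ?_⟩, rfl, rfl, _, _, _, hc.rev, hv2⟩
      simp only
      rw [hv2, det3_step, sg_succ] at h2
      have h3 : - sg k * (-(1/α) * det3 x y z) = (1/α) * (sg k * det3 x y z) := by ring
      rw [h3] at h2
      have h4 : 0 < 1 / α := by positivity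
      exact (mul_pos_iff_of_pos_left h4).1 h2)
  refine ⟨fun k => (s k).1, ht, fun k => ?_, fun k => ?_, fun k => ?_⟩
  · obtain ⟨⟨h1, _⟩, h2, h3, _⟩ := hs k
    obtain ⟨_, h4, _, _⟩ := hs (k + 1)
    rw [show k + 1 + 1 = k + 2 by ring] at h4
    rw [← h2, ← h3, ← h4] at h1
    exact h1
  · obtain ⟨⟨h1, _⟩, h2, h3, α, β, γ, hc, h⟩ := hs k
    obtain ⟨_, h4, h5, _⟩ := hs (k + 1)
    obtain ⟨_, h6, _⟩ := hs (k + 2)
    rw [show k + 1 + 1 = k + 2 by ring] at h4 h5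
    rw [show k + 2 + 1 = k + 3 by ring] at h6
    refine ⟨α, β, γ, hc, ?_⟩
    rw [h6, h5, h, h2, h4, h3]
  · obtain ⟨⟨_, h1⟩, h2, h3, _⟩ := hs k
    obtain ⟨_, h4, _, _⟩ := hs (k + 1)
    rw [show k + 1 + 1 = k + 2 by ring] at h4
    rw [← h2, ← h3, ← h4] at h1
    exact h1

end

end Pool.Agent.H33CP
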