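import Mathlib

/-! Minkowski space of signature (1,2) on `Fin 3 → ℝ`. -/

namespace Pool.Agent.H33CP

/-- Three-dimensional real space. -/
abbrev E3 := Fin 3 → ℝ

/-- The Minkowski form. -/
def B (x y : E3) : ℝ := x 0 * y 0 - x 1 * y 1 - x 2 * y 2

/-- Determinant. -/
def det3 (x y z : E3) : ℝ :=
  x 0 * (y 1 * z 2 - y 2 * z 1) - x 1 * (y 0 * z 2 - y 2 * z 0) + x 2 * (y 0 * z 1 - y 1 * z 0)

/-- The open future cone. -/
def Cone : Set E3 := {x | 0 < B x x ∧ 0 < x 0}

theorem E3.ext {x y : E3} (h0 : x 0 = y 0) (h1 : x 1 = y 1) (h2 : x 2 = y 2) : x = y := by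
  funext i; fin_cases i <;> assumption

theorem B_comm (x y : E3) : B x y = B y x := by unfold B; ring

theorem B_add_left (x y z : E3) : B (x + y) z = B x z + B y z := by
  simp only [B, Pi.add_apply]; ring

theorem B_add_right (x y z : E3) : B x (y + z) = B x y + B x z := by
  simp only [B, Pi.add_apply]; ring

theorem B_sub_left (x y z : E3) : B (x - y) z = B x z - B y z := by
  simp only [B, Pi.sub_apply]; ring

theorem B_sub_right (x y z : E3) : B x (y - z) = B x y - B x z := by
  simp only [B, Pi.sub_apply]; ring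

theorem B_smul_left (c : ℝ) (x y : E3) : B (c • x) y = c * B x y := by
  simp only [B, Pi.smul_apply, smul_eq_mul]; ring

theorem B_smul_right (c : ℝ) (x y : E3) : B x (c • y) = c * B x y := by
  simp only [B, Pi.smul_apply, smul_eq_mul]; ring

theorem B_neg_left (x y : E3) : B (-x) y = - B x y := by
  simp only [B, Pi.neg_apply]; ring

theorem B_neg_right (x y : E3) : B x (-y) = - B x y := by
  simp only [B, Pi.neg_apply]; ring

theorem B_zero_left (y : E3) : B 0 y = 0 := by
  simp [B]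

theorem B_zero_right (y : E3) : B y 0 = 0 := by
  simp [B]

/-- Reversed Cauchy-Schwarz, squared form, together with positivity. -/
theorem cone_pos {x y : E3} (hx : x ∈ Cone) (hy : y ∈ Cone) : 0 < B x y := by
  obtain ⟨h1, h2⟩ := hx
  obtain ⟨h3, h4⟩ := hy
  unfold B at *
  -- x1 y1 + x2 y2 < x0 y0
  have hx' : x 1 * x 1 + x 2 * x 2 < x 0 * x 0 := by linarith
  have hy' : y 1 * y 1 + y 2 * y 2 < y 0 * y 0 := by linarith
  have hprod : 0 < x 0 * y 0 := mul_pos h2 h4
  by_contra hcon
  push Not at hcon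
  have h5 : x 0 * y 0 ≤ x 1 * y 1 + x 2 * y 2 := by linarith
  have h6 : (x 0 * y 0)^2 ≤ (x 1 * y 1 + x 2 * y 2)^2 := by
    apply pow_le_pow_left₀ hprod.le h5
  have h7 : (x 1 * y 1 + x 2 * y 2)^2 ≤ (x 1 * x 1 + x 2 * x 2) * (y 1 * y 1 + y 2 * y 2) := by
    nlinarith [sq_nonneg (x 1 * y 2 - x 2 * y 1)]
  have h8 : (x 1 * x 1 + x 2 * x 2) * (y 1 * y 1 + y 2 * y 2) ≤ (x 1 * x 1 + x 2 * x 2) * (y 0 * y 0) := by
    apply mul_le_mul_of_nonneg_left hy'.le
    nlinarith [sq_nonneg (x 1), sq_nonneg (x 2)]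
  have h9 : (x 1 * x 1 + x 2 * x 2) * (y 0 * y 0) < (x 0 * x 0) * (y 0 * y 0) := by
    apply mul_lt_mul_of_pos_right hx' (mul_pos h4 h4)
  nlinarith

theorem cone_cs {x y : E3} (hx : x ∈ Cone) (hy : y ∈ Cone) : B x x * B y y ≤ B x y ^ 2 := by
  -- the vector z = B(y,y) x - B(x,y) y is orthogonal to y hence spacelike
  obtain ⟨h1, h2⟩ := hx
  obtain ⟨h3, h4⟩ := hy
  unfold B at *
  -- Lagrange identity
  have key : (x 0 * y 0 - x 1 * y 1 - x 2 * y 2)^2 - (x 0 * x 0 - x 1 * x 1 - x 2 * x 2) * (y 0 * y 0 - y 1 * y 1 - y 2 * y 2)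
      = (x 0 * y 1 - x 1 * y 0)^2 + (x 0 * y 2 - x 2 * y 0)^2 - (x 1 * y 2 - x 2 * y 1)^2 := by ring
  have hy' : 0 < y 0 * y 0 - y 1 * y 1 - y 2 * y 2 := h3
  -- with p = x0 y1 - x1 y0, q = x0 y2 - x2 y0, r = x1 y2 - x2 y1: y0 r = y2 * (..)...
  have hr : y 0 * (x 1 * y 2 - x 2 * y 1) = (x 0 * y 2 - x 2 * y 0) * y 1 - (x 0 * y 1 - x 1 * y 0) * y 2 := by ring
  set p := x 0 * y 1 - x 1 * y 0
  set q := x 0 * y 2 - x 2 * y 0
  set r := x 1 * y 2 - x 2 * y 1
  have h5 : (y 0 * r)^2 ≤ (p^2 + q^2) * (y 1 ^2 + y 2 ^2) := by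
    rw [hr]; nlinarith [sq_nonneg (q * y 2 + p * y 1)]
  have h6 : (p^2 + q^2) * (y 1 ^2 + y 2 ^2) ≤ (p^2+q^2) * (y 0 * y 0) := by
    apply mul_le_mul_of_nonneg_left _ (by positivity)
    nlinarith
  have h7 : (y 0)^2 * r^2 ≤ (y 0)^2 * (p^2 + q^2) := by nlinarith
  have h8 : r^2 ≤ p^2+q^2 := le_of_mul_le_mul_left h7 (by positivity)
  nlinarith

/-- `√` form of the reversed Cauchy-Schwarz inequality. -/
theorem cone_cs' {x y : E3} (hx : x ∈ Cone) (hy : y ∈ Cone) {a b : ℝ} (ha : 0 ≤ a) (hb : 0 ≤ b)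
    (hax : a ^ 2 ≤ B x x) (hby : b ^ 2 ≤ B y y) : a * b ≤ B x y := by
  have h := cone_cs hx hy
  have h2 : (a * b)^2 ≤ (B x y)^2 := by
    calc (a*b)^2 = a^2 * b^2 := by ring
      _ ≤ B x x * B y y := by
        apply mul_le_mul hax hby (by positivity) hx.1.le
      _ ≤ _ := h
  exact (abs_le_of_sq_le_sq' h2 (cone_pos hx hy).le).2

/-- A timelike vector with positive product with some future vector is future. -/
theorem mem_cone_of {x y : E3} (hx : x ∈ Cone) (hy : 0 < B y y) (hxy : 0 < B x y) : y ∈ Cone := by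
  refine ⟨hy, ?_⟩
  by_contra hcon
  push Not at hcon
  rcases hcon.lt_or_eq with h | h
  · have hny : -y ∈ Cone := by
      refine ⟨by rw [B_neg_left, B_neg_right]; simpa using hy, by simpa using h⟩
    have := cone_pos hx hny
    rw [B_neg_right] at this
    linarith
  · unfold B at hy
    rw [h] at hy
    nlinarith [sq_nonneg (y 1), sq_nonneg (y 2)]

theorem cone_add {x y : E3} (hx : x ∈ Cone) (hy : y ∈ Cone) : x + y ∈ Cone := by
  refine ⟨?_, ?_⟩
  · rw [B_add_left, B_add_right, B_add_right]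
    have := cone_pos hx hy
    rw [B_comm y x]
    linarith [hx.1, hy.1]
  · simpa using add_pos hx.2 hy.2

theorem cone_smul {x : E3} (hx : x ∈ Cone) {c : ℝ} (hc : 0 < c) : c • x ∈ Cone := by
  refine ⟨?_, ?_⟩
  · rw [B_smul_left, B_smul_right]
    have := hx.1
    positivity
  · simpa using mul_pos hc hx.2

/-- Reflection in the hyperplane orthogonal to `e` (for `B e e = -1`). -/
def refl (e : E3) : E3 →ₗ[ℝ] E3 where
  toFun x := x + (2 * B x e) • e
  map_add' x y := by
    rw [B_add_left]; module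
  map_smul' c x := by
    simp only [RingHom.id_apply]
    rw [B_smul_left]; module

theorem refl_apply (e x : E3) : refl e x = x + (2 * B x e) • e := rfl

theorem refl_B {e : E3} (he : B e e = -1) (x y : E3) : B (refl e x) (refl e y) = B x y := by
  rw [refl_apply, refl_apply]
  simp only [B_add_left, B_add_right, B_smul_left, B_smul_right, he, B_comm e y, B_comm e x]
  ring

theorem refl_B_right (e x y : E3) : B x (refl e y) = B x y + 2 * B x e * B y e := by
  rw [refl_apply, B_add_right, B_smul_right]; ring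

theorem refl_B_e {e : E3} (he : B e e = -1) (x : E3) : B (refl e x) e = - B x e := by
  rw [refl_apply, B_add_left, B_smul_left, he]; ring

theorem refl_refl {e : E3} (he : B e e = -1) (x : E3) : refl e (refl e x) = x := by
  rw [refl_apply e (refl e x), refl_B_e he, refl_apply]
  module

theorem refl_cone {e : E3} (he : B e e = -1) {x : E3} (hx : x ∈ Cone) : refl e x ∈ Cone := by
  refine mem_cone_of hx ?_ ?_
  · rw [refl_B he]; exact hx.1
  · rw [refl_B_right]
    have := hx.1
    nlinarith [sq_nonneg (B x e)]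

theorem refl_fix {e x : E3} (h : B x e = 0) : refl e x = x := by
  rw [refl_apply, h]; simp

theorem det3_refl {e : E3} (he : B e e = -1) (x y z : E3) :
    det3 (refl e x) (refl e y) (refl e z) = - det3 x y z := by
  have h1 : det3 (refl e x) (refl e y) (refl e z) = (1 + 2 * B e e) * det3 x y z := by
    simp only [refl_apply, det3, B, Pi.add_apply, Pi.smul_apply, smul_eq_mul]
    ring
  rw [h1, he]; ring

/-- Expansion: a vector orthogonal to three independent vectors vanishes. -/
theorem eq_zero_of_orth {a b c y : E3} (hd : det3 a b c ≠ 0) (ha : B y a = 0) (hb : B y b = 0)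
    (hc : B y c = 0) : y = 0 := by
  have h0 : det3 a b c * y 0 = B y a * (b 1 * c 2 - b 2 * c 1) + B y b * (c 1 * a 2 - c 2 * a 1)
      + B y c * (a 1 * b 2 - a 2 * b 1) := by
    simp only [det3, B]; ring
  have h1 : det3 a b c * y 1 = B y a * (b 0 * c 2 - b 2 * c 0) + B y b * (c 0 * a 2 - c 2 * a 0)
      + B y c * (a 0 * b 2 - a 2 * b 0) := by
    simp only [det3, B]; ring
  have h2 : det3 a b c * y 2 = - (B y a * (b 0 * c 1 - b 1 * c 0) + B y b * (c 0 * a 1 - c 1 * a 0)
      + B y c * (a 0 * b 1 - a 1 * b 0)) := by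
    simp only [det3, B]; ring
  rw [ha, hb, hc] at h0 h1 h2
  simp only [zero_mul, add_zero, neg_zero, mul_eq_zero, hd, false_or] at h0 h1 h2
  exact E3.ext h0 h1 h2

/-- Expansion in a basis. -/
theorem expand {a b c : E3} (hd : det3 a b c ≠ 0) (x : E3) :
    x = (det3 x b c / det3 a b c) • a + (det3 a x c / det3 a b c) • b
      + (det3 a b x / det3 a b c) • c := by
  apply E3.ext <;> simp only [Pi.add_apply, Pi.smul_apply, smul_eq_mul] <;> field_simp <;>
    simp only [det3] <;> ring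

theorem det3_rot (a b c : E3) : det3 b c a = det3 a b c := by simp only [det3]; ring

theorem det3_swap (a b c : E3) : det3 b a c = - det3 a b c := by simp only [det3]; ring

theorem det3_swap' (a b c : E3) : det3 a c b = - det3 a b c := by simp only [det3]; ring

/-- Gram determinant identity. -/
theorem det3_sq (a b c : E3) : det3 a b c ^ 2 =
    B a a * (B b b * B c c - B b c * B b c) - B a b * (B a b * B c c - B b c * B a c)
      + B a c * (B a b * B b c - B b b * B a c) := by
  simp only [det3, B]; ring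

end Pool.Agent.H33CP
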