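import Pool.Agent.H33CP.Alt

/-! The mass-transport principle. -/

namespace Pool.Agent.H33CP

open Real MeasureTheory
open scoped ENNReal

noncomputable section

namespace Datum

variable (D : Datum)

/-- action on vertices -/
def act (g : D.Gp) : D.Vt ≃ D.Vt where
  toFun x := ⟨g.1 x.1, by
    obtain ⟨x, h, hh, k, rfl⟩ := x
    exact ⟨g.1 * h, D.G.mul_mem (D.Gp_le g.2) hh, k, rfl⟩⟩
  invFun x := ⟨g.1⁻¹ x.1, by
    obtain ⟨x, h, hh, k, rfl⟩ := x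
    exact ⟨g.1⁻¹ * h, D.G.mul_mem (D.G.inv_mem (D.Gp_le g.2)) hh, k, rfl⟩⟩
  left_inv x := Subtype.ext (inv_apply_apply g.1 x.1)
  right_inv x := Subtype.ext (apply_inv_apply g.1 x.1)

theorem act_val (g : D.Gp) (x : D.Vt) : (D.act g x).1 = g.1 x.1 := rfl

theorem act_mul (g h : D.Gp) (x : D.Vt) : D.act (g * h) x = D.act g (D.act h x) := Subtype.ext rfl

theorem face_act {g : E3 ≃ₗ[ℝ] E3} (hg : g ∈ D.Gp) {x y z : E3} (h : D.Face x y z) :
    D.Face (g x) (g y) (g z) := by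
  obtain ⟨h', i, j, l, hh, ij, jl, il, rfl, rfl, rfl, pos⟩ := h
  exact ⟨g * h', i, j, l, D.G.mul_mem (D.Gp_le hg) hh, ij, jl, il, rfl, rfl, rfl, by
    have := hg.2 (h' (D.w i)) (h' (D.w j)) (h' (D.w l))
    rw [this]; exact pos⟩

theorem act_iso (g : D.Gp) : IsIso D.T D.T (D.act g) := by
  intro a b c
  constructor
  · intro h
    have h2 := D.face_act (D.Gp.inv_mem g.2) (x := g.1 a.1) (y := g.1 b.1) (z := g.1 c.1) h
    rw [inv_apply_apply, inv_apply_apply, inv_apply_apply] at h2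
    exact h2
  · intro h
    exact D.face_act g.2 h

/-- base vertices -/
def base (k : ℤ) : D.Vt := D.vtx 1 D.G.one_mem k

theorem base_val (k : ℤ) : (D.base k).1 = D.w k := rfl

/-- the orbit map -/
def orb (p : ℤ × D.Gp) : D.Vt := D.act p.2 (D.base p.1)

theorem orb_val (p : ℤ × D.Gp) : (D.orb p).1 = p.2.1 (D.w p.1) := rfl

theorem orb_surj (v : D.Vt) : ∃ p, D.orb p = v := by
  obtain ⟨v, g, hg, k, rfl⟩ := v
  rcases D.sys.W_det hg with h | h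
  · exact ⟨(k, ⟨g, hg, h⟩), Subtype.ext rfl⟩
  · refine ⟨(k, ⟨g * D.sys.s k, D.G.mul_mem hg (D.sys.s_mem k), ?_⟩), Subtype.ext ?_⟩
    · intro x y z
      simp only [LinearEquiv.mul_apply]
      have e2 : det3 (D.sys.s k x) (D.sys.s k y) (D.sys.s k z) = - det3 x y z :=
        det3_refl (D.strip.EE_unit k) x y z
      rw [h, e2, neg_neg]
    · rw [orb_val]
      change (g * D.sys.s k) (D.w k) = g (D.w k)
      rw [LinearEquiv.mul_apply, D.s_fix_0]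

/-- the order of the stabilizer -/
def ord (k : ℤ) : ℕ := Nat.card (D.St k)

theorem ord_pos (k : ℤ) : 0 < D.ord k := lt_of_lt_of_le (D.hN k) (D.St_card k)

/-- fibre of the orbit map -/
def fibEquiv (k : ℤ) (g : D.Gp) : D.St k ≃ {p : ℤ × D.Gp // D.orb p = D.orb (k, g)} where
  toFun σ := ⟨(k, g * σ.1), by
    apply Subtype.ext
    rw [orb_val, orb_val]
    change (g.1 * σ.1.1) (D.w k) = g.1 (D.w k)
    rw [LinearEquiv.mul_apply, σ.2]⟩
  invFun p := ⟨g⁻¹ * p.1.2, by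
    obtain ⟨⟨l, h⟩, e⟩ := p
    have e1 := congrArg Subtype.val e
    rw [orb_val, orb_val] at e1
    simp only at e1 ⊢
    have e2 := D.type_inj (D.Gp_le h.2) (D.Gp_le g.2) e1
    subst e2
    change (g.1⁻¹ * h.1) (D.w l) = D.w l
    rw [LinearEquiv.mul_apply, e1, inv_apply_apply]⟩
  left_inv σ := by
    apply Subtype.ext
    change g⁻¹ * (g * σ.1) = σ.1
    rw [inv_mul_cancel_left]
  right_inv p := by
    obtain ⟨⟨l, h⟩, e⟩ := p
    have e1 := congrArg Subtype.val e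
    rw [orb_val, orb_val] at e1
    simp only at e1
    have e2 := D.type_inj (D.Gp_le h.2) (D.Gp_le g.2) e1
    subst e2
    apply Subtype.ext
    change (l, g * (g⁻¹ * h)) = (l, h)
    rw [mul_inv_cancel_left]

theorem fib_sum (v : D.Vt) : ∑' p : {p : ℤ × D.Gp // D.orb p = v}, ((D.ord p.1.1 : ℝ≥0∞))⁻¹ = 1 := by
  obtain ⟨⟨k, g⟩, rfl⟩ := D.orb_surj v
  rw [← (D.fibEquiv k g).tsum_eq]
  have : ∀ σ : D.St k, ((D.ord ((D.fibEquiv k g) σ).1.1 : ℝ≥0∞))⁻¹ = (D.ord k : ℝ≥0∞)⁻¹ := by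
    intro σ; rfl
  simp only [this]
  have hf := Fintype.ofFinite (D.St k)
  rw [tsum_fintype, Finset.sum_const, nsmul_eq_mul, Finset.card_univ, ← Nat.card_eq_fintype_card]
  have h0 := D.ord_pos k
  apply ENNReal.mul_inv_cancel
  · exact_mod_cast h0.ne'
  · exact ENNReal.natCast_ne_top _

/-- sum over vertices as a sum over the group -/
theorem sum_vertices (F : D.Vt → ℝ≥0∞) :
    ∑' v, F v = ∑' k, (D.ord k : ℝ≥0∞)⁻¹ * ∑' g : D.Gp, F (D.act g (D.base k)) := by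
  have h1 : ∑' k, (D.ord k : ℝ≥0∞)⁻¹ * ∑' g : D.Gp, F (D.act g (D.base k)) =
      ∑' p : ℤ × D.Gp, (D.ord p.1 : ℝ≥0∞)⁻¹ * F (D.orb p) := by
    rw [ENNReal.tsum_prod']
    congr 1
    funext k
    rw [← ENNReal.tsum_mul_left]
    rfl
  rw [h1, ← (Equiv.sigmaFiberEquiv D.orb).tsum_eq, ENNReal.tsum_sigma']
  congr 1
  funext v
  have h2 : ∀ p : {p : ℤ × D.Gp // D.orb p = v},
      (D.ord ((Equiv.sigmaFiberEquiv D.orb) ⟨v, p⟩).1 : ℝ≥0∞)⁻¹ *
        F (D.orb ((Equiv.sigmaFiberEquiv D.orb) ⟨v, p⟩)) = (D.ord p.1.1 : ℝ≥0∞)⁻¹ * F v := by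
    intro p
    have e1 : (Equiv.sigmaFiberEquiv D.orb) ⟨v, p⟩ = p.1 := rfl
    rw [e1, p.2]
  simp only [h2]
  rw [ENNReal.tsum_mul_right, D.fib_sum, one_mul]

theorem transport (F : D.Vt → D.Vt → ℝ≥0∞) (hF : ∀ (g : D.Gp) u v, F (D.act g u) (D.act g v) = F u v) :
    ∑' k, (D.ord k : ℝ≥0∞)⁻¹ * ∑' v, F (D.base k) v = ∑' k, (D.ord k : ℝ≥0∞)⁻¹ * ∑' v, F v (D.base k) := by
  have h1 : ∀ k, (D.ord k : ℝ≥0∞)⁻¹ * ∑' v, F (D.base k) v =
      ∑' l, (D.ord k : ℝ≥0∞)⁻¹ * ((D.ord l : ℝ≥0∞)⁻¹ * ∑' g : D.Gp, F (D.base k) (D.act g (D.base l))) := by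
    intro k
    rw [D.sum_vertices, ENNReal.tsum_mul_left]
  have h2 : ∀ k, (D.ord k : ℝ≥0∞)⁻¹ * ∑' v, F v (D.base k) =
      ∑' l, (D.ord k : ℝ≥0∞)⁻¹ * ((D.ord l : ℝ≥0∞)⁻¹ * ∑' g : D.Gp, F (D.base l) (D.act g (D.base k))) := by
    intro k
    rw [D.sum_vertices, ← ENNReal.tsum_mul_left]
    congr 1
    funext l
    congr 2
    rw [← (Equiv.inv D.Gp).tsum_eq]
    congr 1
    funext g
    have h3 := hF g ((D.act g⁻¹) (D.base l)) (D.base k)
    rw [← D.act_mul, mul_inv_cancel] at h3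
    have h4 : D.act 1 (D.base l) = D.base l := Subtype.ext rfl
    rw [h4] at h3
    exact h3.symm
  simp only [h1, h2]
  rw [ENNReal.tsum_comm]
  congr 1
  funext l
  congr 1
  funext k
  rw [← mul_assoc, ← mul_assoc, mul_comm (D.ord k : ℝ≥0∞)⁻¹ (D.ord l : ℝ≥0∞)⁻¹]

/-- total mass -/
def Z : ℝ≥0∞ := ∑' k, (D.ord k : ℝ≥0∞)⁻¹

/-- law of the root -/
def law : Measure ℤ := Measure.sum (fun k => ((D.ord k : ℝ≥0∞)⁻¹ * D.Z⁻¹) • Measure.dirac k)

theorem lintegral_law (F : ℤ → ℝ≥0∞) :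
    ∫⁻ k, F k ∂D.law = (∑' k, (D.ord k : ℝ≥0∞)⁻¹ * F k) * D.Z⁻¹ := by
  unfold law
  rw [lintegral_sum_measure, ← ENNReal.tsum_mul_right]
  congr 1
  funext k
  rw [lintegral_smul_measure, lintegral_dirac, smul_eq_mul]
  ring

theorem Z_ne_zero : D.Z ≠ 0 := by
  unfold Z
  rw [ne_eq, ENNReal.tsum_eq_zero, not_forall]
  refine ⟨0, ?_⟩
  rw [ENNReal.inv_eq_zero]
  exact ENNReal.natCast_ne_top _

theorem law_prob (hZ : D.Z ≠ ⊤) : IsProbabilityMeasure D.law := by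
  constructor
  have h := D.lintegral_law (fun _ => 1)
  rw [lintegral_one] at h
  rw [h]
  simp only [mul_one]
  exact ENNReal.mul_inv_cancel D.Z_ne_zero hZ

theorem mtp : MassTransport D.law (fun _ => D.T) D.base := by
  intro f hf
  rw [D.lintegral_law, D.lintegral_law]
  congr 1
  exact D.transport (fun u v => f D.T u v) (fun g u v => hf D.T D.T (D.act g) (D.act_iso g) u v)

end Datum

end

end Pool.Agent.H33CP
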