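import Pool.Agent.H33CP.Chamber

/-! The orbit of the strip circles under the reflection group: packing facts, stabilizers. -/

namespace Pool.Agent.H33CP

open Real

noncomputable section

/-- all data of the construction -/
structure Datum where
  t : ℤ → ℝ
  w : ℤ → E3
  N : ℤ → ℕ
  hN : ∀ k, 1 ≤ N k
  strip : Strip t w
  hA : ∀ k, Ang t k = π / (2 * N k)

namespace Datum

variable (D : Datum)

/-- the wall system -/
def sys : WallSystem ℤ := D.strip.walls D.N D.hN D.hA

/-- the reflection group -/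
def G : Subgroup (E3 ≃ₗ[ℝ] E3) := D.sys.W

theorem sys_e (i : ℤ) : D.sys.e i = EE D.t D.w i := rfl

theorem sys_o : D.sys.o = D.w 0 + D.w 1 + D.w 2 := rfl

theorem wF (k : ℤ) : D.w k ∈ D.sys.F := ⟨D.strip.cone k, fun i => D.strip.EE_le i k⟩

theorem t1 (k : ℤ) : 1 < D.t k := (D.strip.ht k).1

theorem t2 (k : ℤ) : D.t k ≤ 11/10 := (D.strip.ht k).2

theorem apply_inv_apply (g : E3 ≃ₗ[ℝ] E3) (x : E3) : g (g⁻¹ x) = x := by
  simp only [← LinearEquiv.mul_apply, mul_inv_cancel, LinearEquiv.coe_one, id_eq]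

theorem inv_apply_apply (g : E3 ≃ₗ[ℝ] E3) (x : E3) : g⁻¹ (g x) = x := by
  simp only [← LinearEquiv.mul_apply, inv_mul_cancel, LinearEquiv.coe_one, id_eq]

theorem type_inj {g h : E3 ≃ₗ[ℝ] E3} (hg : g ∈ D.G) (hh : h ∈ D.G) {k l : ℤ}
    (e : g (D.w k) = h (D.w l)) : k = l :=
  D.strip.w_inj (D.sys.eq_of_smul hg hh (D.wF k) (D.wF l) e)

theorem B_move {g h : E3 ≃ₗ[ℝ] E3} (hg : g ∈ D.G) (x y : E3) :
    B (g x) (h y) = B x ((g⁻¹ * h) y) := by
  rw [← D.sys.W_B (D.G.inv_mem hg) (g x) (h y), inv_apply_apply]; rfl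

/-- the discs have disjoint interiors -/
theorem packing {g h : E3 ≃ₗ[ℝ] E3} (hg : g ∈ D.G) (hh : h ∈ D.G) {k l : ℤ}
    (hne : g (D.w k) ≠ h (D.w l)) : 1 + D.t k * D.t l ≤ B (g (D.w k)) (h (D.w l)) := by
  rw [D.B_move hg]
  have hu : g⁻¹ * h ∈ D.G := D.G.mul_mem (D.G.inv_mem hg) hh
  rcases D.sys.B_smul_cases hu (D.wF k).2 (D.wF l) with h1 | ⟨i, hi, h1⟩
  · rw [h1]
    apply D.strip.pack
    intro hkl
    subst hkl
    apply hne
    have := congrArg g h1
    rw [LinearEquiv.mul_apply, apply_inv_apply] at this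
    exact this.symm
  · refine le_trans ?_ h1
    rw [D.sys_e] at hi ⊢
    by_cases hk : B (D.w k) (EE D.t D.w i) = 0
    · rw [hk]
      have hne' : k ≠ l := by
        intro h; subst h; rw [hk] at hi; exact lt_irrefl _ hi
      have := D.strip.pack k l hne'
      linarith
    · have hk2 : B (D.w k) (EE D.t D.w i) ≤ -(9/5) := by
        have h3 := (not_congr (D.strip.EE_zero_iff i k)).1 hk
        push Not at h3
        exact D.strip.EE_far i k h3.1 h3.2
      have hl2 : B (D.w l) (EE D.t D.w i) ≤ -(9/5) := by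
        have h3 := (not_congr (D.strip.EE_zero_iff i l)).1 hi.ne
        push Not at h3
        exact D.strip.EE_far i l h3.1 h3.2
      have h4 : D.t k * D.t l - 1 ≤ B (D.w k) (D.w l) := by
        by_cases hkl : k = l
        · subst hkl; rw [D.strip.self]; linarith [pow_two (D.t k)]
        · linarith [D.strip.pack k l hkl]
      nlinarith

/-- a point of a triangle of the chamber lies in no closed disc except those of the triangle -/
theorem far_disc {y : E3} (hy : y ∈ D.sys.F) (hyy : B y y = 1) {k : ℤ}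
    (h1 : B y (DD D.t D.w k) ≤ 0) (h2 : 0 ≤ B y (DD D.t D.w (k + 1)))
    {g : E3 ≃ₗ[ℝ] E3} (hg : g ∈ D.G) {l : ℤ} (n0 : g (D.w l) ≠ D.w k)
    (n1 : g (D.w l) ≠ D.w (k + 1)) (n2 : g (D.w l) ≠ D.w (k + 2)) :
    D.t l < B y (g (D.w l)) := by
  by_contra hc
  push Not at hc
  have ht : 0 < D.t l := by linarith [D.t1 l]
  obtain ⟨_, n, hn⟩ := D.sys.Red_chamber hg (D.wF l)
  cases n with
  | zero =>
    have hgl : g (D.w l) = D.w l := hn
    rw [hgl] at hc n0 n1 n2
    have hl0 : l ≠ k := fun h => n0 (by rw [h])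
    have hl1 : l ≠ k + 1 := fun h => n1 (by rw [h])
    have hl2 : l ≠ k + 2 := fun h => n2 (by rw [h])
    by_cases hl : l < k
    · have h3 := D.strip.DD_far_bwd k l (by omega)
      have := disc_wall hy.1 hyy (D.strip.cone l) (D.strip.self l)
        (e := - DD D.t D.w k) (by rw [B_neg_left, B_neg_right, neg_neg]; exact D.strip.DD_unit k)
        ht (by rw [B_neg_right]; linarith) hc
      rw [B_neg_right] at this
      linarith
    · have h3 := D.strip.DD_far_fwd (k + 1) l (by omega)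
      have := disc_wall hy.1 hyy (D.strip.cone l) (D.strip.self l) (D.strip.DD_unit (k + 1))
        ht (by linarith) hc
      linarith
  | succ n =>
    obtain ⟨i, hi, h3⟩ := D.sys.R_last_le hy.2 hn
    rw [D.sys_e] at hi h3
    have hl2 : B (D.w l) (EE D.t D.w i) ≤ -(9/5) := by
      have h3 := (not_congr (D.strip.EE_zero_iff i l)).1 hi.ne
      push Not at h3
      exact D.strip.EE_far i l h3.1 h3.2
    have := disc_wall hy.1 hyy (refl_cone (D.strip.EE_unit i) (D.strip.cone l))
      (by rw [refl_B (D.strip.EE_unit i)]; exact D.strip.self l)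
      (e := - EE D.t D.w i) (by rw [B_neg_left, B_neg_right, neg_neg]; exact D.strip.EE_unit i)
      ht (by rw [B_neg_right, refl_B_e (D.strip.EE_unit i)]; linarith) (le_trans h3 hc)
    rw [B_neg_right] at this
    have h5 := hy.2 i
    rw [D.sys_e] at h5
    linarith

theorem det_ne (k : ℤ) : det3 (D.w k) (D.w (k + 1)) (D.w (k + 2)) ≠ 0 := by
  have := D.strip.sgn k
  intro h
  rw [h] at this
  simp at this

/-- an element fixing an interior point is trivial -/
theorem eq_one {g : E3 ≃ₗ[ℝ] E3} (hg : g ∈ D.G) {q : E3} (hq : q ∈ Cone)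
    (hqi : ∀ i, B q (EE D.t D.w i) < 0) (hgq : g q = q) : g = 1 := by
  have h : ∀ k, g (D.w k) = D.w k := fun k => D.sys.stab_trivial hg hq hqi hgq (D.wF k)
  apply LinearEquiv.ext
  intro x
  have e := expand (D.det_ne 0) x
  rw [e]
  simp only [map_add, map_smul, h]
  rfl

/-- interior unit vector in the disc of `w k` -/
theorem exists_inner (k : ℤ) : ∃ z ∈ Cone, B z z = 1 ∧ (∀ i, B z (EE D.t D.w i) < 0) ∧
    B z (D.w k) ≤ D.t k := by
  set o := D.w 0 + D.w 1 + D.w 2 with ho
  have hoc : o ∈ Cone := D.sys.o_cone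
  have hoi : ∀ i, B o (EE D.t D.w i) ≤ -1 := D.strip.o_le
  have hc := cone_pos hoc (D.strip.cone k)
  set c := B o (D.w k) with hcdef
  set q := D.w k + (1/c) • o with hq
  have hqc : q ∈ Cone := cone_add (D.strip.cone k) (cone_smul hoc (by positivity))
  have hqw : B q (D.w k) = D.t k ^ 2 := by
    rw [hq, B_add_left, B_smul_left, D.strip.self, ← hcdef]; field_simp; ring
  have hqq : D.t k ^ 2 ≤ B q q := by
    have h1 : B q q = D.t k ^ 2 - 1 + 2 + (1/c)^2 * B o o := by
      rw [hq, B_add_left, B_add_right, B_add_right, B_smul_left, B_smul_right, B_smul_left,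
        B_smul_right, D.strip.self, B_comm (D.w k) o, ← hcdef]; field_simp; ring
    have h2 := hoc.1
    have h3 : 0 < (1/c)^2 * B o o := by positivity
    linarith
  have ht := D.t1 k
  have hs : D.t k ≤ √(B q q) := by
    apply le_sqrt_of_sq_le hqq
  have hs0 : 0 < √(B q q) := by linarith
  refine ⟨(1/√(B q q)) • q, cone_smul hqc (by positivity), ?_, ?_, ?_⟩
  · rw [B_smul_left, B_smul_right]
    have := mul_self_sqrt hqc.1.le
    field_simp
    rw [pow_two]; exact this.symm
  · intro i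
    rw [B_smul_left]
    apply mul_neg_of_pos_of_neg (by positivity)
    rw [hq, B_add_left, B_smul_left]
    have h1 := D.strip.EE_le i k
    have h2 := hoi i
    have h3 : 1/c * B o (EE D.t D.w i) < 0 := mul_neg_of_pos_of_neg (by positivity) (by linarith)
    linarith
  · rw [B_smul_left, hqw]
    have h1 : 1 / √(B q q) * D.t k ^ 2 = D.t k ^ 2 / √(B q q) := by ring
    rw [h1, div_le_iff₀ hs0]
    nlinarith

/-- subgroup generated by the two reflections at `w k` -/
def K (k : ℤ) : Subgroup (E3 ≃ₗ[ℝ] E3) := Subgroup.closure {D.sys.s (k - 2), D.sys.s k}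

theorem K_le (k : ℤ) : D.K k ≤ D.G := by
  unfold K
  rw [Subgroup.closure_le]
  rintro _ (rfl | rfl)
  · exact D.sys.s_mem _
  · exact D.sys.s_mem _

theorem s_fix_0 (k : ℤ) : D.sys.s k (D.w k) = D.w k := refl_fix (Strip.EE_0 k)

theorem s_fix_2 (k : ℤ) : D.sys.s k (D.w (k + 2)) = D.w (k + 2) := refl_fix (Strip.EE_2 k)

theorem K_fix (k : ℤ) {u : E3 ≃ₗ[ℝ] E3} (hu : u ∈ D.K k) : u (D.w k) = D.w k := by
  unfold K at hu
  induction hu using Subgroup.closure_induction with
  | mem g hg =>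
    rcases hg with rfl | rfl
    · have := D.s_fix_2 (k - 2)
      rw [show k - 2 + 2 = k by ring] at this
      exact this
    · exact D.s_fix_0 k
  | one => rfl
  | mul g h _ _ ihg ihh => rw [LinearEquiv.mul_apply, ihh, ihg]
  | inv g _ ih =>
    conv_lhs => rw [← ih]
    exact inv_apply_apply g _

theorem fold_in_disc (k : ℤ) {n : ℕ} : ∀ {x y : E3}, x ∈ Cone → B x x = 1 → B x (D.w k) ≤ D.t k →
    D.sys.R n x y → ∃ u ∈ D.K k, y = u x := by
  induction n with
  | zero => intro x y _ _ _ h; cases h; exact ⟨1, (D.K k).one_mem, rfl⟩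
  | succ n ih =>
    intro x y hx hxx hxk h
    obtain ⟨z, ⟨i, hi, rfl⟩, hR⟩ := h
    rw [D.sys_e] at hi hR
    have hik : k = i ∨ k = i + 2 := by
      by_contra hc
      push Not at hc
      have h1 := D.strip.EE_far i k hc.1 hc.2
      have := disc_wall hx hxx (D.strip.cone k) (D.strip.self k) (D.strip.EE_unit i)
        (by linarith [D.t1 k]) (by linarith) hxk
      linarith
    have hs : D.sys.s i ∈ D.K k := by
      apply Subgroup.subset_closure
      rcases hik with rfl | rfl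
      · right; rfl
      · left; rw [show i + 2 - 2 = i by ring]
    obtain ⟨u, hu, rfl⟩ := ih (refl_cone (D.strip.EE_unit i) hx)
      (by rw [refl_B (D.strip.EE_unit i)]; exact hxx)
      (by
        rw [B_comm, refl_B_right, (D.strip.EE_zero_iff i k).2 hik, B_comm (D.w k) x]; simpa using hxk) hR
    exact ⟨u * D.sys.s i, (D.K k).mul_mem hu hs, rfl⟩

/-- the stabilizer of `w k` is generated by the two reflections at `w k` -/
theorem stab_gen (k : ℤ) {h : E3 ≃ₗ[ℝ] E3} (hh : h ∈ D.G) (hk : h (D.w k) = D.w k) : h ∈ D.K k := by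
  obtain ⟨z, hz, hzz, hzi, hzk⟩ := D.exists_inner k
  have hzF : z ∈ D.sys.F := ⟨hz, fun i => (hzi i).le⟩
  obtain ⟨_, n, hn⟩ := D.sys.Red_chamber hh hzF
  have h1 : B (h z) (D.w k) ≤ D.t k := by
    conv_lhs => rw [← hk]
    rw [D.sys.W_B hh]; exact hzk
  obtain ⟨u, hu, e⟩ := D.fold_in_disc k (D.sys.W_cone hh hz) (by rw [D.sys.W_B hh]; exact hzz) h1 hn
  have h2 : u * h = 1 := D.eq_one (D.G.mul_mem (D.K_le k hu) hh) hz hzi (by
    rw [LinearEquiv.mul_apply]; exact e.symm)
  have h3 : h = u⁻¹ := eq_inv_of_mul_eq_one_right h2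
  rw [h3]
  exact (D.K k).inv_mem hu

/-- finiteness of the vertices of one type near a point -/
theorem finite_type {x : E3} (hx : x ∈ Cone) (k : ℤ) (C : ℝ) :
    {u : E3 | (∃ g ∈ D.G, u = g (D.w k)) ∧ B u x ≤ C}.Finite := by
  have hk := D.t1 k
  apply finite_sep hx (q := D.t k ^ 2 - 1) (ε := 2) (K := C) (by nlinarith) (by norm_num)
  · rintro u ⟨⟨g, hg, rfl⟩, hu⟩
    exact ⟨by rw [D.sys.W_B hg]; exact D.strip.self k, (D.sys.W_cone hg (D.strip.cone k)).2, hu⟩
  · rintro u ⟨⟨g, hg, rfl⟩, _⟩ v ⟨⟨h, hh, rfl⟩, _⟩ huv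
    have := D.packing hg hh huv
    nlinarith

end Datum

end

end Pool.Agent.H33CP
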