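import Pool.Agent.H33CP.Drawing

/-! Planarity of the straight drawing, the circle packing and its carrier. -/

namespace Pool.Agent.H33CP

open Real

section triple

variable {p a b : ℝ} {x y z : E3} (h : Tri3 p a b x y z) (hp : 1 < p) (ha : 1 < a) (hb : 1 < b)

include h hp ha hb

/-- the sector of a disc lies in the triangle -/
theorem side_lemma {q : ℂ} {s t : ℝ} (hs : 0 < s) (ht : 0 < t)
    (hq : q = zc x + s • (zc y - zc x) + t • (zc z - zc x)) (q1 : dist q (zc x) = rad x) :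
    s + t ≤ 1 := by
  have tx := tau_eq h.xx (by linarith)
  have ty := tau_eq h.yy (by linarith)
  have tz := tau_eq h.zz (by linarith)
  have rx := rad_pos h.cx
  have ry := rad_pos h.cy
  have rz := rad_pos h.cz
  have exy := rad_eq_dist h.cx h.cy (by rw [h.xy, tx, ty])
  have exz := rad_eq_dist h.cx h.cz (by rw [h.xz, tx, tz])
  have eyz := rad_eq_dist h.cy h.cz (by rw [h.yz, ty, tz])
  set σ := s + t with hσ
  have hσ0 : 0 < σ := by positivity
  set q' := (s / σ) • zc y + (t / σ) • zc z with hq'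
  have hsum : s / σ + t / σ = 1 := by rw [hσ]; field_simp
  have e1 : q' - zc x = (1 / σ) • (q - zc x) := by
    have h1 : q' - zc x = (s / σ) • zc y + (t / σ) • zc z
      - (s / σ + t / σ) • zc x := by rw [hsum, hq', one_smul]
    rw [h1, hq]
    module
  have e2 : q' - zc y = (t / σ) • (zc z - zc y) := by
    have h1 : q' - zc y = (s / σ) • zc y + (t / σ) • zc z
      - (s / σ + t / σ) • zc y := by rw [hsum, hq', one_smul]
    rw [h1]; module
  have e3 : q' - zc z = (s / σ) • (zc y - zc z) := by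
    have h1 : q' - zc z = (s / σ) • zc y + (t / σ) • zc z
      - (s / σ + t / σ) • zc z := by rw [hsum, hq', one_smul]
    rw [h1]; module
  have f1 : dist (zc x) q' = rad x / σ := by
    rw [dist_comm, Complex.dist_eq, e1, norm_smul, Real.norm_eq_abs, abs_of_pos (by positivity),
      ← Complex.dist_eq, q1]
    ring
  have f2 : dist q' (zc y) = t / σ * (rad y + rad z) := by
    rw [Complex.dist_eq, e2, norm_smul, Real.norm_eq_abs, abs_of_pos (by positivity),
      ← Complex.dist_eq, dist_comm, eyz]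
  have f3 : dist q' (zc z) = s / σ * (rad y + rad z) := by
    rw [Complex.dist_eq, e3, norm_smul, Real.norm_eq_abs, abs_of_pos (by positivity),
      ← Complex.dist_eq, eyz]
  have hlast : rad x ≤ rad x / σ := by
    by_cases hc : t / σ * (rad y + rad z) ≤ rad y
    · have := dist_triangle (zc x) q' (zc y)
      rw [exy, f1, f2] at this
      linarith
    · push Not at hc
      have h5 : s / σ * (rad y + rad z) ≤ rad z := by
        have h6 : (s / σ + t / σ) * (rad y + rad z) = rad y + rad z := by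
          rw [hsum, one_mul]
        linarith
      have := dist_triangle (zc x) q' (zc z)
      rw [exz, f1, f3] at this
      linarith
  rw [le_div_iff₀ hσ0] at hlast
  by_contra hc
  push Not at hc
  nlinarith

/-- if the first coordinate vanishes, the point is the tangency point of the other two -/
theorem edge_case {q : ℂ} (hq : Complex.normSq q < 1) {β γ : ℝ} (hβ : 0 ≤ β) (hγ : 0 ≤ γ)
    (e : U q = (0:ℝ) • x + β • y + γ • z) (hJ : B (U q) (JJ p a b x y z) ≤ 1 - Complex.normSq q) :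
    β = γ ∧ (0 < β) ∧ 1 - Complex.normSq q = β * (a + b) ∧
    ∃ v s : ℝ, v + s = 1 ∧ q = v • zc y + s • zc z := by
  rw [zero_smul, zero_add] at e
  have hpos := cone_pos (U_cone hq) (JJ_cone h hp ha hb)
  have h1 : B (U q) (JJ p a b x y z) = β * a + γ * b := by
    conv_lhs => rw [e]
    simp only [B_add_left, B_smul_left]
    rw [JJ_y h hp ha hb, JJ_z h hp ha hb]
  have h2 : B (U q) (U q) = β ^ 2 * (a ^ 2 - 1) + γ ^ 2 * (b ^ 2 - 1) + 2 * β * γ * (1 + a * b) := by
    conv_lhs => rw [e]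
    simp only [B_add_left, B_smul_left, B_add_right, B_smul_right]
    rw [B_comm z y, h.yy, h.zz, h.yz]
    ring
  have h3 : B (U q) (JJ p a b x y z) ^ 2 ≤ B (U q) (U q) := by
    rw [U_self]
    exact pow_le_pow_left₀ hpos.le hJ 2
  have h4 : β = γ := by
    rw [h1, h2] at h3
    have : (β - γ) ^ 2 ≤ 0 := by nlinarith
    have h5 : β - γ = 0 := by
      apply pow_eq_zero_iff (n := 2) (by norm_num) |>.1
      exact le_antisymm this (sq_nonneg _)
    linarith
  subst h4
  have hβ0 : 0 < β := by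
    rcases hβ.lt_or_eq with h5 | h5
    · exact h5
    · rw [h1, ← h5] at hpos; simp at hpos
  have h5 : 1 - Complex.normSq q = β * (a + b) := by
    rw [U_self] at h2
    have h6 : (1 - Complex.normSq q) ^ 2 = (β * (a + b)) ^ 2 := by rw [h2]; ring
    exact (pow_left_inj₀ (by linarith) (by positivity) (by norm_num)).1 h6
  have e0 : 1 + Complex.normSq q = β * y 0 + β * z 0 := by
    have := congrFun e 0
    simpa [U] using this
  have e1 : 2 * q.re = β * y 1 + β * z 1 := by
    have := congrFun e 1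
    simpa [U] using this
  have e2 : 2 * q.im = β * y 2 + β * z 2 := by
    have := congrFun e 2
    simpa [U] using this
  have ty := tau_eq h.yy (by linarith)
  have tz := tau_eq h.zz (by linarith)
  have y0 := h.cy.2
  have z0 := h.cz.2
  have n2 : y 0 + a ≠ 0 := by linarith
  have n3 : z 0 + b ≠ 0 := by linarith
  refine ⟨rfl, hβ0, h5, β / 2 * (y 0 + a), β / 2 * (z 0 + b), by linarith, ?_⟩
  apply Complex.ext
  · simp only [Complex.add_re, Complex.real_smul, Complex.mul_re, Complex.ofReal_re,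
      Complex.ofReal_im, zero_mul, sub_zero, zc, ty, tz]
    field_simp; linarith
  · simp only [Complex.add_im, Complex.real_smul, Complex.mul_im, Complex.ofReal_re,
      Complex.ofReal_im, zero_mul, add_zero, zc, ty, tz]
    field_simp; linarith

/-- in the open Euclidean triangle the first hyperbolic coordinate is positive -/
theorem coord_pos (ho : 0 < (starRingEnd ℂ (zc y - zc x) * (zc z - zc x)).im)
    {q : ℂ} (hq : Complex.normSq q < 1) {α β γ : ℝ} (hα : 0 ≤ α) (hβ : 0 ≤ β) (hγ : 0 ≤ γ)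
    (e : U q = α • x + β • y + γ • z) (hJ : B (U q) (JJ p a b x y z) ≤ 1 - Complex.normSq q)
    {u v s : ℝ} (hsum : u + v + s = 1) (hqe : q = u • zc x + v • zc y + s • zc z) (hu : u ≠ 0) :
    0 < α := by
  rcases hα.lt_or_eq with h0 | h0
  · exact h0
  · exfalso
    rw [← h0] at e
    obtain ⟨_, _, _, v', s', h1, h2⟩ := edge_case h hp ha hb hq hβ hγ e hJ
    have h3 := bary_unique ho (u := u) (v := v) (s := s) (u' := 0) (v' := v') (s' := s') hsum
      (by linarith) (by rw [← hqe, zero_smul, zero_add]; exact h2)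
    exact hu h3.1

end triple

theorem JJ_rot (p a b : ℝ) (x y z : E3) : JJ a b p y z x = JJ p a b x y z := by
  unfold JJ
  rw [show 2 * (1 + a * b + a * p + b * p) = 2 * (1 + p * a + p * b + a * b) by ring]
  congr 1
  module

theorem Tri3.rot {p a b : ℝ} {x y z : E3} (h : Tri3 p a b x y z) : Tri3 a b p y z x := by
  obtain ⟨cx, cy, cz, xx, yy, zz, xy, xz, yz⟩ := h
  exact ⟨cy, cz, cx, yy, zz, xx, yz, by rw [B_comm, xy]; ring, by rw [B_comm, xz]; ring⟩

theorem orient_rot {x y z : ℂ} (h : 0 < (starRingEnd ℂ (y - x) * (z - x)).im) :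
    0 < (starRingEnd ℂ (z - y) * (x - y)).im := by
  have : (starRingEnd ℂ (z - y) * (x - y)).im = (starRingEnd ℂ (y - x) * (z - x)).im := by
    simp only [Complex.mul_im, Complex.conj_re, Complex.conj_im, Complex.sub_re, Complex.sub_im]
    ring
  rw [this]; exact h

theorem perm6 {i j l i' j' l' : ℤ} (hi' : i' = i ∨ i' = j ∨ i' = l) (hj' : j' = i ∨ j' = j ∨ j' = l)
    (hl' : l' = i ∨ l' = j ∨ l' = l) (n1 : i' ≠ j') (n2 : j' ≠ l') (n3 : i' ≠ l') :
    (i' = i ∧ j' = j ∧ l' = l) ∨ (i' = j ∧ j' = l ∧ l' = i) ∨ (i' = l ∧ j' = i ∧ l' = j) ∨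
      (i' = j ∧ j' = i ∧ l' = l) ∨ (i' = i ∧ j' = l ∧ l' = j) ∨ (i' = l ∧ j' = j ∧ l' = i) := by
  rcases hi' with h1 | h1 | h1 <;> rcases hj' with h2 | h2 | h2 <;> rcases hl' with h3 | h3 | h3 <;>
    first
    | exact absurd (h1.trans h2.symm) n1
    | exact absurd (h2.trans h3.symm) n2
    | exact absurd (h1.trans h3.symm) n3
    | exact Or.inl ⟨h1, h2, h3⟩
    | exact Or.inr (Or.inl ⟨h1, h2, h3⟩)
    | exact Or.inr (Or.inr (Or.inl ⟨h1, h2, h3⟩))
    | exact Or.inr (Or.inr (Or.inr (Or.inl ⟨h1, h2, h3⟩)))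
    | exact Or.inr (Or.inr (Or.inr (Or.inr (Or.inl ⟨h1, h2, h3⟩))))
    | exact Or.inr (Or.inr (Or.inr (Or.inr (Or.inr ⟨h1, h2, h3⟩))))

/-- all three coordinates are positive on the open triangle -/
theorem coords_pos {p a b : ℝ} {x y z : E3} (h : Tri3 p a b x y z) (hp : 1 < p) (ha : 1 < a)
    (hb : 1 < b) (ho : 0 < (starRingEnd ℂ (zc y - zc x) * (zc z - zc x)).im)
    {q : ℂ} (hq : Complex.normSq q < 1) {α β γ : ℝ} (hα : 0 ≤ α) (hβ : 0 ≤ β) (hγ : 0 ≤ γ)
    (e : U q = α • x + β • y + γ • z) (hJ : B (U q) (JJ p a b x y z) ≤ 1 - Complex.normSq q)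
    {u v s : ℝ} (hsum : u + v + s = 1) (hqe : q = u • zc x + v • zc y + s • zc z) :
    (u ≠ 0 → 0 < α) ∧ (v ≠ 0 → 0 < β) ∧ (s ≠ 0 → 0 < γ) := by
  refine ⟨fun hu => coord_pos h hp ha hb ho hq hα hβ hγ e hJ hsum hqe hu, fun hv => ?_, fun hs => ?_⟩
  · exact coord_pos h.rot ha hb hp (orient_rot ho) hq hβ hγ hα (by rw [e]; abel)
      (by rw [JJ_rot]; exact hJ) (u := v) (v := s) (s := u) (by linarith) (by rw [hqe]; abel) hv
  · exact coord_pos h.rot.rot hb hp ha (orient_rot (orient_rot ho)) hq hγ hα hβ (by rw [e]; abel)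
      (by rw [JJ_rot, JJ_rot]; exact hJ) (u := s) (v := u) (s := v) (by linarith)
      (by rw [hqe]; abel) hs

noncomputable section

namespace Datum

variable (D : Datum)

theorem combo_F {i j l : ℤ} {α β γ : ℝ} (hα : 0 < α) (hβ : 0 < β) (hγ : 0 < γ) :
    α • D.w i + β • D.w j + γ • D.w l ∈ D.sys.F := by
  refine ⟨cone_add (cone_add (cone_smul (D.strip.cone i) hα) (cone_smul (D.strip.cone j) hβ))
    (cone_smul (D.strip.cone l) hγ), fun n => ?_⟩
  rw [D.sys_e]
  simp only [B_add_left, B_smul_left]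
  have f1 := mul_nonpos_of_nonneg_of_nonpos hα.le (D.strip.EE_le n i)
  have f2 := mul_nonpos_of_nonneg_of_nonpos hβ.le (D.strip.EE_le n j)
  have f3 := mul_nonpos_of_nonneg_of_nonpos hγ.le (D.strip.EE_le n l)
  linarith

theorem combo_interior {i j l : ℤ} (hij : i ≠ j) (hjl : j ≠ l) (hil : i ≠ l) {α β γ : ℝ}
    (hα : 0 < α) (hβ : 0 < β) (hγ : 0 < γ) (n : ℤ) :
    B (α • D.w i + β • D.w j + γ • D.w l) (EE D.t D.w n) < 0 := by
  simp only [B_add_left, B_smul_left]
  have f1 := mul_nonpos_of_nonneg_of_nonpos hα.le (D.strip.EE_le n i)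
  have f2 := mul_nonpos_of_nonneg_of_nonpos hβ.le (D.strip.EE_le n j)
  have f3 := mul_nonpos_of_nonneg_of_nonpos hγ.le (D.strip.EE_le n l)
  have key : ∀ m, m ≠ n → m ≠ n + 2 → B (D.w m) (EE D.t D.w n) < 0 := by
    intro m h1 h2
    linarith [D.strip.EE_far n m h1 h2]
  by_cases h1 : i = n ∨ i = n + 2
  · by_cases h2 : j = n ∨ j = n + 2
    · have := mul_neg_of_pos_of_neg hγ (key l (by omega) (by omega))
      linarith
    · push Not at h2
      have := mul_neg_of_pos_of_neg hβ (key j h2.1 h2.2)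
      linarith
  · push Not at h1
    have := mul_neg_of_pos_of_neg hα (key i h1.1 h1.2)
    linarith

theorem combo_DD {i j l k : ℤ} (hi : k ≤ i) (hj : k ≤ j) (hl : k ≤ l)
    (h2 : k + 2 = i ∨ k + 2 = j ∨ k + 2 = l) {α β γ : ℝ}
    (hα : 0 < α) (hβ : 0 < β) (hγ : 0 < γ) :
    B (α • D.w i + β • D.w j + γ • D.w l) (DD D.t D.w k) < 0 := by
  simp only [B_add_left, B_smul_left]
  have f1 := mul_nonpos_of_nonneg_of_nonpos hα.le (D.DD_le hi)
  have f2 := mul_nonpos_of_nonneg_of_nonpos hβ.le (D.DD_le hj)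
  have f3 := mul_nonpos_of_nonneg_of_nonpos hγ.le (D.DD_le hl)
  have h3 : B (D.w (k + 2)) (DD D.t D.w k) < 0 := by linarith [D.strip.DD_2 k]
  rcases h2 with rfl | rfl | rfl
  · have := mul_neg_of_pos_of_neg hα h3
    linarith
  · have := mul_neg_of_pos_of_neg hβ h3
    linarith
  · have := mul_neg_of_pos_of_neg hγ h3
    linarith

theorem combo_DD' {i j l k : ℤ} (hi : i ≤ k + 1) (hj : j ≤ k + 1) (hl : l ≤ k + 1) {α β γ : ℝ}
    (hα : 0 < α) (hβ : 0 < β) (hγ : 0 < γ) :
    0 ≤ B (α • D.w i + β • D.w j + γ • D.w l) (DD D.t D.w k) := by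
  simp only [B_add_left, B_smul_left]
  have f1 := mul_nonneg hα.le (D.DD_ge hi)
  have f2 := mul_nonneg hβ.le (D.DD_ge hj)
  have f3 := mul_nonneg hγ.le (D.DD_ge hl)
  linarith

/-- two faces whose open hyperbolic triangles meet are equal -/
theorem same_face {a b c a' b' c' : D.Vt} (h : D.Face a.1 b.1 c.1) (h' : D.Face a'.1 b'.1 c'.1)
    {α β γ α' β' γ' : ℝ} (hα : 0 < α) (hβ : 0 < β) (hγ : 0 < γ) (hα' : 0 < α') (hβ' : 0 < β')
    (hγ' : 0 < γ') (e : α • a.1 + β • b.1 + γ • c.1 = α' • a'.1 + β' • b'.1 + γ' • c'.1) :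
    (a' = a ∧ b' = b ∧ c' = c) ∨ (a' = b ∧ b' = c ∧ c' = a) ∨ (a' = c ∧ b' = a ∧ c' = b) := by
  obtain ⟨g, i, j, l, H⟩ := h
  obtain ⟨g', i', j', l', H'⟩ := h'
  obtain ⟨k, hk⟩ := H.exists_min
  obtain ⟨k', hk'⟩ := H'.exists_min
  obtain ⟨hg, ij, jl, il, ea, eb, ec, pos⟩ := H
  obtain ⟨hg', ij', jl', il', ea', eb', ec', pos'⟩ := H'
  have e1 : g (α • D.w i + β • D.w j + γ • D.w l) = g' (α' • D.w i' + β' • D.w j' + γ' • D.w l') := by
    simp only [map_add, map_smul]
    rw [← ea, ← eb, ← ec, ← ea', ← eb', ← ec']; exact e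
  have e2 := D.sys.eq_of_smul hg hg' (D.combo_F hα hβ hγ) (D.combo_F hα' hβ' hγ') e1
  set y := α • D.w i + β • D.w j + γ • D.w l with hy
  have e3 : (g⁻¹ * g') y = y := by
    rw [LinearEquiv.mul_apply]
    conv_lhs => rw [e2, ← e1]
    exact inv_apply_apply g y
  have e4 := D.eq_one (D.G.mul_mem (D.G.inv_mem hg) hg') (D.combo_F hα hβ hγ).1
    (D.combo_interior ij.1 jl.1 il.1 hα hβ hγ) e3
  have e5 : g = g' := inv_mul_eq_one.1 e4
  subst e5
  have ki := (hk i).2 (Or.inl rfl)
  have kj := (hk j).2 (Or.inr (Or.inl rfl))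
  have kl := (hk l).2 (Or.inr (Or.inr rfl))
  have k2 := (hk (k + 2)).1 (Or.inr (Or.inr rfl))
  have ki' := (hk' i').2 (Or.inl rfl)
  have kj' := (hk' j').2 (Or.inr (Or.inl rfl))
  have kl' := (hk' l').2 (Or.inr (Or.inr rfl))
  have k2' := (hk' (k' + 2)).1 (Or.inr (Or.inr rfl))
  have d1 := D.combo_DD (k := k) (i := i) (j := j) (l := l) (by omega) (by omega) (by omega) k2 hα hβ hγ
  have d2 := D.combo_DD (k := k') (i := i') (j := j') (l := l') (by omega) (by omega) (by omega) k2' hα' hβ' hγ'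
  have hkk : k = k' := by
    rcases lt_trichotomy k k' with h | h | h
    · exfalso
      have d3 := D.combo_DD' (k := k') (i := i) (j := j) (l := l) (by omega) (by omega) (by omega) hα hβ hγ
      rw [← hy, e2] at d3
      linarith
    · exact h
    · exfalso
      have d3 := D.combo_DD' (k := k) (i := i') (j := j') (l := l') (by omega) (by omega) (by omega) hα' hβ' hγ'
      rw [← e2] at d3
      rw [← hy] at d1
      linarith
  subst hkk
  have hi' := (hk i').1 ki'
  have hj' := (hk j').1 kj'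
  have hl' := (hk l').1 kl'
  have n1 := ij'.1
  have n2 := jl'.1
  have n3 := il'.1
  have hperm := perm6 hi' hj' hl' n1 n2 n3
  have veq : ∀ {u v : D.Vt} {m n : ℤ}, u.1 = g (D.w m) → v.1 = g (D.w n) → m = n → u = v := by
    intro u v m n h1 h2 h3
    apply Subtype.ext
    rw [h1, h2, h3]
  rcases hperm with ⟨p1, p2, p3⟩ | ⟨p1, p2, p3⟩ | ⟨p1, p2, p3⟩ | ⟨p1, p2, p3⟩ | ⟨p1, p2, p3⟩ | ⟨p1, p2, p3⟩
  · left; exact ⟨veq ea' ea p1, veq eb' eb p2, veq ec' ec p3⟩
  · right; left; exact ⟨veq ea' eb p1, veq eb' ec p2, veq ec' ea p3⟩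
  · right; right; exact ⟨veq ea' ec p1, veq eb' ea p2, veq ec' eb p3⟩
  · exfalso
    have q1 := veq ea' eb p1
    have q2 := veq eb' ea p2
    have q3 := veq ec' ec p3
    subst q1 q2 q3
    rw [det3_swap] at pos'
    linarith
  · exfalso
    have q1 := veq ea' ea p1
    have q2 := veq eb' ec p2
    have q3 := veq ec' eb p3
    subst q1 q2 q3
    rw [det3_swap'] at pos'
    linarith
  · exfalso
    have q1 := veq ea' ec p1
    have q2 := veq eb' eb p2
    have q3 := veq ec' ea p3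
    subst q1 q2 q3
    have hsw : ∀ x y z : E3, det3 z y x = - det3 x y z := by
      intro x y z; simp only [det3]; ring
    rw [hsw] at pos'
    linarith

theorem norm_lt_of_close {u : D.Vt} {q : ℂ} (h : dist q (zc u.1) ≤ rad u.1) :
    Complex.normSq q < 1 := by
  have h1 := zc_add_rad (D.Vt_cone u)
  have h2 : ‖q‖ < 1 := by
    have : ‖q‖ ≤ ‖zc u.1‖ + ‖q - zc u.1‖ := by
      have := norm_add_le (zc u.1) (q - zc u.1)
      rwa [add_sub_cancel] at this
    rw [← Complex.dist_eq] at this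
    linarith
  rw [← Complex.sq_norm]
  nlinarith [norm_nonneg q]

theorem norm_lt_of_hull {a b c : D.Vt} {q : ℂ} {u v s : ℝ} (hu : 0 ≤ u) (hv : 0 ≤ v) (hs : 0 ≤ s)
    (hsum : u + v + s = 1) (hq : q = u • zc a.1 + v • zc b.1 + s • zc c.1) :
    Complex.normSq q < 1 := by
  have key : ∀ d : D.Vt, zc d.1 ∈ Metric.ball (0:ℂ) 1 := by
    intro d
    rw [mem_ball_zero_iff]
    linarith [zc_add_rad (D.Vt_cone d), rad_pos (D.Vt_cone d)]
  have hc := convex_ball (0:ℂ) 1
  have h1 : q ∈ Metric.ball (0:ℂ) 1 := by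
    have := hc.sum_mem (t := Finset.univ) (w := ![u, v, s]) (z := ![zc a.1, zc b.1, zc c.1])
      (by intro i _; fin_cases i <;> simpa) (by simp [Fin.sum_univ_three, hsum])
      (by intro i _; fin_cases i <;> simp [key])
    rw [hq]
    simpa [Fin.sum_univ_three] using this
  rw [mem_ball_zero_iff] at h1
  rw [← Complex.sq_norm]
  nlinarith [norm_nonneg q]

/-- a closed face triangle meets an open disc only if the disc belongs to the face -/
theorem hull_disc {a b c : D.Vt} (h : D.Face a.1 b.1 c.1) {q : ℂ} {u v s : ℝ} (hu : 0 ≤ u)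
    (hv : 0 ≤ v) (hs : 0 ≤ s) (hsum : u + v + s = 1)
    (hq : q = u • zc a.1 + v • zc b.1 + s • zc c.1) {d : D.Vt} (hd : dist q (zc d.1) < rad d.1) :
    d = a ∨ d = b ∨ d = c := by
  by_contra hc
  push Not at hc
  obtain ⟨n1, n2, n3⟩ := hc
  have hq1 := D.norm_lt_of_hull hu hv hs hsum hq
  obtain ⟨p, a', b', hp, ha, hb, T, _⟩ := h.facts
  have key : ∀ e : D.Vt, d ≠ e → rad e.1 ≤ dist q (zc e.1) := by
    intro e he
    have h1 := D.dist_ge d e he
    have h2 := dist_triangle (zc d.1) q (zc e.1)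
    rw [dist_comm (zc d.1) q] at h2
    linarith
  have hJ := hull_lift T hp ha hb hq1 hu hv hs hsum hq (key a n1) (key b n2) (key c n3)
  obtain ⟨α, β, γ, hα, hβ, hγ, e⟩ := hull_coords T hp ha hb hq1 hJ
  have := D.face_far' h hq1 hα hβ hγ e d n1 n2 n3
  linarith

/-- positive coordinates for a point of the open triangle outside the open discs -/
theorem outside_coords {a b c : D.Vt} (h : D.Face a.1 b.1 c.1) {q : ℂ} {u v s : ℝ} (hu : 0 < u)
    (hv : 0 < v) (hs : 0 < s) (hsum : u + v + s = 1)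
    (hq : q = u • zc a.1 + v • zc b.1 + s • zc c.1)
    (hd : ∀ d : D.Vt, rad d.1 ≤ dist q (zc d.1)) :
    ∃ α β γ : ℝ, 0 < α ∧ 0 < β ∧ 0 < γ ∧ U q = α • a.1 + β • b.1 + γ • c.1 := by
  have hq1 := D.norm_lt_of_hull hu.le hv.le hs.le hsum hq
  have ho := D.face_orient h
  obtain ⟨p, a', b', hp, ha, hb, T, _⟩ := h.facts
  have hJ := hull_lift T hp ha hb hq1 hu.le hv.le hs.le hsum hq (hd a) (hd b) (hd c)
  obtain ⟨α, β, γ, hα, hβ, hγ, e⟩ := hull_coords T hp ha hb hq1 hJ
  obtain ⟨p1, p2, p3⟩ := coords_pos T hp ha hb ho hq1 hα hβ hγ e hJ hsum hq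
  exact ⟨α, β, γ, p1 hu.ne', p2 hv.ne', p3 hs.ne', e⟩

/-- positive coordinates for the point of the circle of `a` in the direction of a point of the
open triangle -/
theorem sector_coords {a b c : D.Vt} (h : D.Face a.1 b.1 c.1) {q : ℂ} {v s : ℝ}
    (hv : 0 < v) (hs : 0 < s) (hq : q = zc a.1 + v • (zc b.1 - zc a.1) + s • (zc c.1 - zc a.1))
    (hqa : dist q (zc a.1) = rad a.1) :
    ∃ α β γ : ℝ, 0 < α ∧ 0 < β ∧ 0 < γ ∧ U q = α • a.1 + β • b.1 + γ • c.1 := by
  have hq1 := D.norm_lt_of_close hqa.le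
  have ho := D.face_orient h
  have hab : a ≠ b := fun e => h.ne (congrArg Subtype.val e)
  have hca : c ≠ a := fun e => h.rotate.rotate.ne (congrArg Subtype.val e)
  obtain ⟨p, a', b', hp, ha, hb, T, _⟩ := h.facts
  have hσ := side_lemma T hp ha hb hv hs hq hqa
  have key : ∀ e : D.Vt, a ≠ e → rad e.1 ≤ dist q (zc e.1) := by
    intro e he
    have h1 := D.dist_ge a e he
    have h2 := dist_triangle (zc a.1) q (zc e.1)
    rw [dist_comm (zc a.1) q] at h2
    linarith
  have hqe : q = (1 - (v + s)) • zc a.1 + v • zc b.1 + s • zc c.1 := by rw [hq]; module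
  have hJ := hull_lift T hp ha hb hq1 (u := 1 - (v + s)) (by linarith) hv.le hs.le (by ring) hqe
    hqa.symm.le (key b hab) (key c hca.symm)
  obtain ⟨α, β, γ, hα, hβ, hγ, e⟩ := hull_coords T hp ha hb hq1 hJ
  obtain ⟨_, p2, p3⟩ := coords_pos T hp ha hb ho hq1 hα hβ hγ e hJ (by ring) hqe
  refine ⟨α, β, γ, ?_, p2 hv.ne', p3 hs.ne', e⟩
  rcases hα.lt_or_eq with h0 | h0
  · exact h0
  · exfalso
    rw [← h0] at e
    obtain ⟨e1, e2, e3, _⟩ := edge_case T hp ha hb hq1 hβ hγ e hJ
    subst e1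
    have h5 := B_U (D.Vt_cone a) q
    rw [hqa, sub_self, mul_zero, tau_eq T.xx (by linarith), e3] at h5
    have h6 : B (U q) a.1 = β * (2 + p * a' + p * b') := by
      rw [e]
      simp only [B_add_left, B_smul_left]
      rw [B_comm b.1, B_comm c.1, T.xy, T.xz]; ring
    rw [h6] at h5
    have h7 : 2 * β = 0 := by linear_combination h5
    linarith

theorem planar_aux {a b c b' c' : D.Vt} (h : D.Face a.1 b.1 c.1) (h' : D.Face a.1 b'.1 c'.1)
    {q : ℂ} (hq : q ∈ openTriangle (zc a.1) (zc b.1) (zc c.1))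
    (hq' : q ∈ openTriangle (zc a.1) (zc b'.1) (zc c'.1)) (_ : dist q (zc a.1) < rad a.1) :
    b' = b ∧ c' = c := by
  obtain ⟨u, v, s, hu, hv, hs, hsum, e⟩ := hq
  obtain ⟨u', v', s', hu', hv', hs', hsum', e'⟩ := hq'
  have ho := D.face_orient h
  have eq1 : q - zc a.1 = v • (zc b.1 - zc a.1) + s • (zc c.1 - zc a.1) := by
    rw [e, show u = 1 - v - s by linarith]; module
  have eq2 : q - zc a.1 = v' • (zc b'.1 - zc a.1) + s' • (zc c'.1 - zc a.1) := by
    rw [e', show u' = 1 - v' - s' by linarith]; module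
  have hne : q ≠ zc a.1 := by
    intro h0
    rw [h0, sub_self] at eq1
    have := lin_indep ho eq1.symm
    linarith [this.1]
  have hd : 0 < dist q (zc a.1) := dist_pos.2 hne
  have hr := rad_pos (D.Vt_cone a)
  set L := rad a.1 / dist q (zc a.1) with hL
  have hL0 : 0 < L := by positivity
  set p := zc a.1 + L • (q - zc a.1) with hp
  have hpa : dist p (zc a.1) = rad a.1 := by
    rw [Complex.dist_eq, hp, add_sub_cancel_left, norm_smul, Real.norm_eq_abs, abs_of_pos hL0,
      ← Complex.dist_eq, hL]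
    field_simp
  obtain ⟨α, β, γ, hα, hβ, hγ, f⟩ := D.sector_coords h (q := p) (v := L * v) (s := L * s)
    (by positivity) (by positivity) (by rw [hp, eq1]; module) hpa
  obtain ⟨α', β', γ', hα', hβ', hγ', f'⟩ := D.sector_coords h' (q := p) (v := L * v') (s := L * s')
    (by positivity) (by positivity) (by rw [hp, eq2]; module) hpa
  have hab : a ≠ b := fun e => h.ne (congrArg Subtype.val e)
  have hca : c ≠ a := fun e => h.rotate.rotate.ne (congrArg Subtype.val e)
  rcases D.same_face h h' hα hβ hγ hα' hβ' hγ' (f.symm.trans f') with ⟨_, e2, e3⟩ | ⟨e1, _, _⟩ | ⟨e1, _, _⟩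
  · exact ⟨e2, e3⟩
  · exact absurd e1 hab
  · exact absurd e1.symm hca

theorem openTriangle_rot {x y z q : ℂ} (h : q ∈ openTriangle x y z) : q ∈ openTriangle y z x := by
  obtain ⟨u, v, s, hu, hv, hs, hsum, e⟩ := h
  exact ⟨v, s, u, hv, hs, hu, by linarith, by rw [e]; abel⟩

theorem planar_disc {a b c a' b' c' : D.Vt} (h : D.Face a.1 b.1 c.1) (h' : D.Face a'.1 b'.1 c'.1)
    {q : ℂ} (hq : q ∈ openTriangle (zc a.1) (zc b.1) (zc c.1))
    (hq' : q ∈ openTriangle (zc a'.1) (zc b'.1) (zc c'.1)) (hd : dist q (zc a.1) < rad a.1) :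
    (a' = a ∧ b' = b ∧ c' = c) ∨ (a' = b ∧ b' = c ∧ c' = a) ∨ (a' = c ∧ b' = a ∧ c' = b) := by
  have hq2 := hq'
  obtain ⟨u, v, s, hu, hv, hs, hsum, e⟩ := hq2
  rcases D.hull_disc h' hu.le hv.le hs.le hsum e hd with rfl | rfl | rfl
  · have := D.planar_aux h h' hq hq' hd
    exact Or.inl ⟨rfl, this.1, this.2⟩
  · have := D.planar_aux h h'.rotate hq (openTriangle_rot hq') hd
    exact Or.inr (Or.inr ⟨this.2, rfl, this.1⟩)
  · have := D.planar_aux h h'.rotate.rotate hq (openTriangle_rot (openTriangle_rot hq')) hd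
    exact Or.inr (Or.inl ⟨this.1, this.2, rfl⟩)

theorem planar {a b c a' b' c' : D.Vt} (h : D.Face a.1 b.1 c.1) (h' : D.Face a'.1 b'.1 c'.1)
    (hne : (openTriangle (zc a.1) (zc b.1) (zc c.1) ∩
      openTriangle (zc a'.1) (zc b'.1) (zc c'.1)).Nonempty) :
    (a' = a ∧ b' = b ∧ c' = c) ∨ (a' = b ∧ b' = c ∧ c' = a) ∨ (a' = c ∧ b' = a ∧ c' = b) := by
  obtain ⟨q, hq, hq'⟩ := hne
  by_cases hd : ∀ d : D.Vt, rad d.1 ≤ dist q (zc d.1)
  · obtain ⟨u, v, s, hu, hv, hs, hsum, e⟩ := hq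
    obtain ⟨u', v', s', hu', hv', hs', hsum', e'⟩ := hq'
    obtain ⟨α, β, γ, hα, hβ, hγ, f⟩ := D.outside_coords h hu hv hs hsum e hd
    obtain ⟨α', β', γ', hα', hβ', hγ', f'⟩ := D.outside_coords h' hu' hv' hs' hsum' e' hd
    exact D.same_face h h' hα hβ hγ hα' hβ' hγ' (f.symm.trans f')
  · push Not at hd
    obtain ⟨d, hd⟩ := hd
    have hq2 := hq
    obtain ⟨u, v, s, hu, hv, hs, hsum, e⟩ := hq2
    rcases D.hull_disc h hu.le hv.le hs.le hsum e hd with rfl | rfl | rfl
    · exact D.planar_disc h h' hq hq' hd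
    · rcases D.planar_disc h.rotate h' (openTriangle_rot hq) hq' hd with
        ⟨e1, e2, e3⟩ | ⟨e1, e2, e3⟩ | ⟨e1, e2, e3⟩
      · exact Or.inr (Or.inl ⟨e1, e2, e3⟩)
      · exact Or.inr (Or.inr ⟨e1, e2, e3⟩)
      · exact Or.inl ⟨e1, e2, e3⟩
    · rcases D.planar_disc h.rotate.rotate h' (openTriangle_rot (openTriangle_rot hq)) hq' hd with
        ⟨e1, e2, e3⟩ | ⟨e1, e2, e3⟩ | ⟨e1, e2, e3⟩
      · exact Or.inr (Or.inr ⟨e1, e2, e3⟩)
      · exact Or.inl ⟨e1, e2, e3⟩
      · exact Or.inr (Or.inl ⟨e1, e2, e3⟩)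

/-- the circle packing -/
def P : CirclePacking D.T where
  z v := zc v.1
  r v := rad v.1
  r_pos v := rad_pos (D.Vt_cone v)
  disjoint _ _ h := Metric.ball_disjoint_ball (D.dist_ge _ _ h)
  tangent _ _ h := D.adj_dist h
  orient _ _ _ h := D.face_orient h
  cyclic _ _ _ h _ hd _ _ hs ht := D.cyclic h hd hs ht
  planar _ _ _ _ _ _ h h' hne := D.planar h h' hne

theorem P_z (v : D.Vt) : D.P.z v = zc v.1 := rfl

theorem P_r (v : D.Vt) : D.P.r v = rad v.1 := rfl

theorem hull_mem {x y z q : ℂ} {u v s : ℝ} (hu : 0 ≤ u) (hv : 0 ≤ v) (hs : 0 ≤ s)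
    (hsum : u + v + s = 1) (hq : q = u • x + v • y + s • z) : q ∈ convexHull ℝ {x, y, z} := by
  have hc := convex_convexHull ℝ ({x, y, z} : Set ℂ)
  have := hc.sum_mem (t := Finset.univ) (w := ![u, v, s]) (z := ![x, y, z])
    (by intro i _; fin_cases i <;> simpa) (by simp [Fin.sum_univ_three, hsum])
    (by
      intro i _
      apply subset_convexHull
      fin_cases i <;> simp)
  rw [hq]
  simpa [Fin.sum_univ_three] using this

/-- the carrier is the open unit disc -/
theorem carrier_eq : D.P.carrier = Metric.ball (0:ℂ) 1 := by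
  apply Set.Subset.antisymm
  · rintro q (hq | hq)
    · rw [Set.mem_iUnion] at hq
      obtain ⟨v, hv⟩ := hq
      rw [Metric.mem_closedBall] at hv
      have := D.norm_lt_of_close (u := v) hv
      rw [mem_ball_zero_iff]
      rw [← Complex.sq_norm] at this
      nlinarith [norm_nonneg q]
    · unfold CirclePacking.triangles at hq
      simp only [Set.mem_iUnion] at hq
      obtain ⟨a, b, c, _, hq⟩ := hq
      refine convexHull_min ?_ (convex_ball (0:ℂ) 1) hq
      have key : ∀ d : D.Vt, zc d.1 ∈ Metric.ball (0:ℂ) 1 := by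
        intro d
        rw [mem_ball_zero_iff]
        linarith [zc_add_rad (D.Vt_cone d), rad_pos (D.Vt_cone d)]
      rintro _ (rfl | rfl | rfl)
      · exact key a
      · exact key b
      · exact key c
  · intro q hq
    rw [mem_ball_zero_iff] at hq
    have hq1 : Complex.normSq q < 1 := by
      rw [← Complex.sq_norm]; nlinarith [norm_nonneg q]
    by_cases hd : ∃ d : D.Vt, dist q (zc d.1) ≤ rad d.1
    · left
      obtain ⟨d, hd⟩ := hd
      exact Set.mem_iUnion.2 ⟨d, hd⟩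
    · right
      push Not at hd
      obtain ⟨x, y, z, h, α, β, γ, hα, hβ, hγ, e⟩ := D.exists_face hq1
      obtain ⟨p, a', b', hp, ha, hb, T, _⟩ := h.facts
      have hJ := tri_in T hp ha hb hq1 hα hβ hγ e (hd x).le (hd y).le (hd z).le
      obtain ⟨u, v, s, hu, hv, hs, hsum, e2⟩ := in_hull T hp ha hb hq1 hJ
      unfold CirclePacking.triangles
      simp only [Set.mem_iUnion]
      exact ⟨x, y, z, h, hull_mem hu hv hs hsum e2⟩

/-- points of the disc of a corner of a face whose radial projection lies in the triangle -/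
theorem hull_of_radial {x y z q p : ℂ} {L : ℝ} (hL0 : 0 ≤ L) (hL1 : L ≤ 1)
    (hp : p ∈ convexHull ℝ {x, y, z}) (hq : q = x + L • (p - x)) : q ∈ convexHull ℝ {x, y, z} := by
  have hx : x ∈ convexHull ℝ ({x, y, z} : Set ℂ) := subset_convexHull _ _ (by simp)
  have hc := convex_convexHull ℝ ({x, y, z} : Set ℂ)
  have h := hc hx hp (a := 1 - L) (b := L) (by linarith) hL0 (by ring)
  have e : q = (1 - L) • x + L • p := by rw [hq]; module
  rw [e]; exact h

/-- the closed centre triangles of the faces cover the disc -/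
theorem triangles_eq : D.P.triangles = Metric.ball (0:ℂ) 1 := by
  apply Set.Subset.antisymm
  · rw [← D.carrier_eq]
    exact Set.subset_union_right
  · intro q hq
    by_cases hd : ∃ d : D.Vt, dist q (zc d.1) ≤ rad d.1
    · obtain ⟨d, hd⟩ := hd
      have hr := rad_pos (D.Vt_cone d)
      -- radial projection
      obtain ⟨p, L, hL0, hL1, hpd, hqe⟩ : ∃ (p : ℂ) (L : ℝ), 0 ≤ L ∧ L ≤ 1 ∧
          dist p (zc d.1) = rad d.1 ∧ q = zc d.1 + L • (p - zc d.1) := by
        by_cases h0 : q = zc d.1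
        · refine ⟨zc d.1 + (rad d.1 : ℂ), 0, le_rfl, by norm_num, ?_, by rw [h0]; simp⟩
          rw [Complex.dist_eq, add_sub_cancel_left, Complex.norm_real, Real.norm_eq_abs,
            abs_of_pos hr]
        · have hd0 : 0 < dist q (zc d.1) := dist_pos.2 h0
          refine ⟨zc d.1 + (rad d.1 / dist q (zc d.1)) • (q - zc d.1), dist q (zc d.1) / rad d.1,
            by positivity, by rw [div_le_one hr]; exact hd, ?_, ?_⟩
          · rw [Complex.dist_eq, add_sub_cancel_left, norm_smul, Real.norm_eq_abs,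
              abs_of_pos (by positivity), ← Complex.dist_eq]
            field_simp
          · rw [add_sub_cancel_left, smul_smul]
            have : dist q (zc d.1) / rad d.1 * (rad d.1 / dist q (zc d.1)) = 1 := by field_simp
            rw [this, one_smul]; ring
      have hp1 := D.norm_lt_of_close hpd.le
      obtain ⟨x, y, z, h, α, β, γ, hα, hβ, hγ, e⟩ := D.exists_face hp1
      have hmem : d = x ∨ d = y ∨ d = z := by
        by_contra hc
        push Not at hc
        have := D.face_far' h hp1 hα hβ hγ e d hc.1 hc.2.1 hc.2.2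
        linarith
      have hout : ∀ u : D.Vt, rad u.1 ≤ dist p (zc u.1) := by
        intro u
        by_cases hu : u = d
        · rw [hu, hpd]
        · have h1 := D.dist_ge d u (Ne.symm hu)
          have h2 := dist_triangle (zc d.1) p (zc u.1)
          rw [dist_comm (zc d.1) p] at h2
          linarith
      obtain ⟨t1, a', b', ht1, ha, hb, T, _⟩ := h.facts
      have hJ := tri_in T ht1 ha hb hp1 hα hβ hγ e (hout x) (hout y) (hout z)
      obtain ⟨u, v, s, hu, hv, hs, hsum, e2⟩ := in_hull T ht1 ha hb hp1 hJ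
      unfold CirclePacking.triangles
      simp only [Set.mem_iUnion]
      rcases hmem with rfl | rfl | rfl
      · exact ⟨_, _, _, h, hull_of_radial hL0 hL1 (hull_mem hu hv hs hsum e2) hqe⟩
      · exact ⟨_, _, _, h.rotate, hull_of_radial hL0 hL1
          (hull_mem hv hs hu (by linarith) (by simp only [P_z]; rw [e2]; abel)) hqe⟩
      · exact ⟨_, _, _, h.rotate.rotate, hull_of_radial hL0 hL1
          (hull_mem hs hu hv (by linarith) (by simp only [P_z]; rw [e2]; abel)) hqe⟩
    · push Not at hd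
      have h1 : q ∈ D.P.carrier := by rw [D.carrier_eq]; exact hq
      rcases h1 with h1 | h1
      · rw [Set.mem_iUnion] at h1
        obtain ⟨v, hv⟩ := h1
        rw [Metric.mem_closedBall] at hv
        have := hd v
        exact absurd hv (not_le.2 this)
      · exact h1

end Datum

end

end Pool.Agent.H33CP
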