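import Pool.Agent.H33CP.Pack
import Pool.Agent.H33CP.Euclid
import Pool.Agent.H33CP.Defs

/-! The triangulation. -/

namespace Pool.Agent.H33CP

open Real

/-- indices at distance one or two -/
def Near (i j : ℤ) : Prop := i ≠ j ∧ i ≤ j + 2 ∧ j ≤ i + 2

theorem uniq3 {a b c d : E3} (h1 : B c a = B d a) (h2 : B c b = B d b) (h3 : B c c = B d d)
    (h4 : 0 < det3 a b c) (h5 : 0 < det3 a b d) : c = d := by
  have hd : det3 a b (c + d) ≠ 0 := by
    have : det3 a b (c + d) = det3 a b c + det3 a b d := by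
      simp only [det3, Pi.add_apply]; ring
    rw [this]; linarith
  have := eq_zero_of_orth (y := c - d) hd (by rw [B_sub_left]; linarith) (by rw [B_sub_left]; linarith)
    (by rw [B_sub_left, B_add_right, B_add_right, B_comm d c]; linarith)
  exact sub_eq_zero.1 this

noncomputable section

namespace Datum

variable (D : Datum)

/-- vertices -/
def Vt : Type := {x : E3 // ∃ g ∈ D.G, ∃ k, x = g (D.w k)}

/-- a vertex from a group element and an index -/
def vtx (g : E3 ≃ₗ[ℝ] E3) (hg : g ∈ D.G) (k : ℤ) : D.Vt := ⟨g (D.w k), g, hg, k, rfl⟩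

theorem Vt_cone (x : D.Vt) : x.1 ∈ Cone := by
  obtain ⟨x, g, hg, k, rfl⟩ := x
  exact D.sys.W_cone hg (D.strip.cone k)

theorem Vt_tau {g : E3 ≃ₗ[ℝ] E3} (hg : g ∈ D.G) (k : ℤ) : tau (g (D.w k)) = D.t k := by
  apply tau_eq _ (by linarith [D.t1 k])
  rw [D.sys.W_B hg, D.strip.self]

theorem Vt_pack (x y : D.Vt) (h : x ≠ y) : 1 + tau x.1 * tau y.1 ≤ B x.1 y.1 := by
  obtain ⟨x, g, hg, k, rfl⟩ := x
  obtain ⟨y, g', hg', k', rfl⟩ := y
  simp only
  rw [D.Vt_tau hg, D.Vt_tau hg']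
  apply D.packing hg hg'
  intro h'
  apply h
  exact Subtype.ext h'

/-- face data -/
structure FD (x y z : E3) (g : E3 ≃ₗ[ℝ] E3) (i j l : ℤ) : Prop where
  hg : g ∈ D.G
  ij : Near i j
  jl : Near j l
  il : Near i l
  ex : x = g (D.w i)
  ey : y = g (D.w j)
  ez : z = g (D.w l)
  pos : 0 < det3 x y z

/-- faces -/
def Face (x y z : E3) : Prop := ∃ g i j l, D.FD x y z g i j l

theorem near_B {i j : ℤ} (h : Near i j) : B (D.w i) (D.w j) = 1 + D.t i * D.t j := by
  obtain ⟨h1, h2, h3⟩ := h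
  have hc : j = i + 1 ∨ j = i + 2 ∨ i = j + 1 ∨ i = j + 2 := by omega
  rcases hc with rfl | rfl | rfl | rfl
  · exact D.strip.one i
  · exact D.strip.two i
  · rw [B_comm, D.strip.one, mul_comm]
  · rw [B_comm, D.strip.two, mul_comm]

theorem Near.symm {i j : ℤ} (h : Near i j) : Near j i := ⟨h.1.symm, h.2.2, h.2.1⟩

theorem near_tri {i j l : ℤ} (ij : Near i j) (jl : Near j l) (il : Near i l) :
    Tri3 (D.t i) (D.t j) (D.t l) (D.w i) (D.w j) (D.w l) :=
  ⟨D.strip.cone i, D.strip.cone j, D.strip.cone l, D.strip.self i, D.strip.self j, D.strip.self l,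
    D.near_B ij, D.near_B il, D.near_B jl⟩

theorem FD.tri {D : Datum} {x y z : E3} {g : E3 ≃ₗ[ℝ] E3} {i j l : ℤ} (h : D.FD x y z g i j l) :
    Tri3 (D.t i) (D.t j) (D.t l) x y z := by
  obtain ⟨hg, ij, jl, il, rfl, rfl, rfl, _⟩ := h
  obtain ⟨cx, cy, cz, xx, yy, zz, xy, xz, yz⟩ := D.near_tri ij jl il
  refine ⟨D.sys.W_cone hg cx, D.sys.W_cone hg cy, D.sys.W_cone hg cz, ?_, ?_, ?_, ?_, ?_, ?_⟩ <;>
    rw [D.sys.W_B hg] <;> assumption

theorem FD.rotate {D : Datum} {x y z : E3} {g : E3 ≃ₗ[ℝ] E3} {i j l : ℤ} (h : D.FD x y z g i j l) :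
    D.FD y z x g j l i := by
  obtain ⟨hg, ij, jl, il, ex, ey, ez, pos⟩ := h
  exact ⟨hg, jl, Near.symm il, Near.symm ij, ey, ez, ex, by rw [det3_rot]; exact pos⟩

theorem Face.rotate {D : Datum} {x y z : E3} (h : D.Face x y z) : D.Face y z x := by
  obtain ⟨g, i, j, l, h⟩ := h
  exact ⟨g, j, l, i, h.rotate⟩

theorem opp (m : ℤ) : det3 (D.w m) (D.w (m + 1)) (D.w (m + 2)) *
    det3 (D.w m) (D.w (m + 1)) (D.w (m - 1)) < 0 := by
  have h1 := D.strip.sgn m
  have h2 := D.strip.sgn (m - 1)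
  have h3 := sg_succ (m - 1)
  have h4 := sg_sq m
  rw [show m - 1 + 1 = m by ring] at h2 h3
  rw [show m - 1 + 2 = m + 1 by ring] at h2
  have h5 : sg (m - 1) = - sg m := by rw [h3]; ring
  rw [h5] at h2
  have h6 : det3 (D.w (m - 1)) (D.w m) (D.w (m + 1)) = det3 (D.w m) (D.w (m + 1)) (D.w (m - 1)) := by
    simp only [det3]; ring
  rw [h6] at h2
  have h7 := mul_pos h1 h2
  nlinarith

theorem opp' {i j l l' : ℤ} (hij : j = i + 1 ∨ i = j + 1) (il : Near i l) (jl : Near j l)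
    (il' : Near i l') (jl' : Near j l') (hll : l ≠ l') :
    det3 (D.w i) (D.w j) (D.w l) * det3 (D.w i) (D.w j) (D.w l') < 0 := by
  obtain ⟨a1, a2, a3⟩ := il
  obtain ⟨b1, b2, b3⟩ := jl
  obtain ⟨c1, c2, c3⟩ := il'
  obtain ⟨d1, d2, d3⟩ := jl'
  have key : ∀ m : ℤ, det3 (D.w (m + 1)) (D.w m) (D.w (m + 2)) *
    det3 (D.w (m + 1)) (D.w m) (D.w (m - 1)) < 0 := by
    intro m
    rw [det3_swap (D.w m) (D.w (m + 1)), det3_swap (D.w m) (D.w (m + 1)), neg_mul_neg]
    exact D.opp m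
  rcases hij with rfl | rfl
  · have : (l = i + 2 ∧ l' = i - 1) ∨ (l' = i + 2 ∧ l = i - 1) := by omega
    rcases this with ⟨rfl, rfl⟩ | ⟨rfl, rfl⟩
    · exact D.opp i
    · rw [mul_comm]; exact D.opp i
  · have : (l = j + 2 ∧ l' = j - 1) ∨ (l' = j + 2 ∧ l = j - 1) := by omega
    rcases this with ⟨rfl, rfl⟩ | ⟨rfl, rfl⟩
    · exact key j
    · rw [mul_comm]; exact key j

theorem det_prod {g : E3 ≃ₗ[ℝ] E3} (hg : g ∈ D.G) (a b c d : E3) :
    det3 (g a) (g b) (g c) * det3 (g a) (g b) (g d) = det3 a b c * det3 a b d := by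
  rcases D.sys.W_det hg with h | h
  · rw [h, h]
  · rw [h, h]; ring

theorem Face.unique {D : Datum} {a b c d : E3} (h1 : D.Face a b c) (h2 : D.Face a b d) : c = d := by
  obtain ⟨g, i, j, l, hg, ij, jl, il, rfl, rfl, rfl, pos⟩ := h1
  obtain ⟨h, i', j', l', hh, ij', jl', il', ex, ey, rfl, pos'⟩ := h2
  obtain rfl := D.type_inj hg hh ex
  obtain rfl := D.type_inj hg hh ey
  by_cases hij : j = i + 1 ∨ i = j + 1
  · -- the two elements agree
    set q := D.w i + D.w j with hq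
    have hqc : q ∈ Cone := cone_add (D.strip.cone i) (D.strip.cone j)
    have hqi : ∀ m, B q (EE D.t D.w m) < 0 := by
      intro m
      rw [hq, B_add_left]
      have e1 := D.strip.EE_le m i
      have e2 := D.strip.EE_le m j
      by_cases hz : B (D.w i) (EE D.t D.w m) = 0
      · have z1 := (D.strip.EE_zero_iff m i).1 hz
        have z2 : ¬ (j = m ∨ j = m + 2) := by omega
        have z3 : B (D.w j) (EE D.t D.w m) ≠ 0 := fun h => z2 ((D.strip.EE_zero_iff m j).1 h)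
        have := lt_of_le_of_ne e2 z3
        linarith
      · have := lt_of_le_of_ne e1 hz
        linarith
    have hfix : (g⁻¹ * h) q = q := by
      rw [hq, map_add, LinearEquiv.mul_apply, LinearEquiv.mul_apply, ← ex, ← ey, inv_apply_apply,
        inv_apply_apply]
    have h1 := D.eq_one (D.G.mul_mem (D.G.inv_mem hg) hh) hqc hqi hfix
    have h2 : h = g := (inv_mul_eq_one.1 h1).symm
    subst h2
    by_contra hne
    have hll : l ≠ l' := fun e => hne (by rw [e])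
    have h3 := D.opp' hij il jl il' jl' hll
    rw [← D.det_prod hh] at h3
    have := mul_pos pos pos'
    linarith
  · have hll : l = l' := by
      obtain ⟨a1, a2, a3⟩ := ij
      obtain ⟨b1, b2, b3⟩ := jl
      obtain ⟨c1, c2, c3⟩ := il
      obtain ⟨d1, d2, d3⟩ := jl'
      obtain ⟨e1, e2, e3⟩ := il'
      omega
    subst hll
    apply uniq3 _ _ _ pos pos'
    · rw [D.sys.W_B hg, ex, D.sys.W_B hh]
    · rw [D.sys.W_B hg, ey, D.sys.W_B hh]
    · rw [D.sys.W_B hg, D.sys.W_B hh]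

theorem Face.opposite {D : Datum} {a b c : E3} (h1 : D.Face a b c) : ∃ d, D.Face b a d ∧
    ∃ g ∈ D.G, ∃ k, d = g (D.w k) := by
  obtain ⟨g, i, j, l, hg, ij, jl, il, rfl, rfl, rfl, pos⟩ := h1
  by_cases hij : j = i + 1 ∨ i = j + 1
  · have hl' : Near i (i + j - l) ∧ Near j (i + j - l) ∧ l ≠ i + j - l := by
      obtain ⟨a1, a2, a3⟩ := ij
      obtain ⟨b1, b2, b3⟩ := jl
      obtain ⟨c1, c2, c3⟩ := il
      unfold Near
      omega
    obtain ⟨n1, n2, n3⟩ := hl'
    refine ⟨g (D.w (i + j - l)), ⟨g, j, i, i + j - l, hg, Near.symm ij, n1, n2, rfl, rfl, rfl, ?_⟩,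
      g, hg, _, rfl⟩
    have h3 := D.opp' hij il jl n1 n2 n3
    rw [← D.det_prod hg] at h3
    rw [det3_swap]
    by_contra hc
    push Not at hc
    have h4 : 0 ≤ det3 (g (D.w i)) (g (D.w j)) (g (D.w (i + j - l))) := by linarith
    have := mul_nonneg pos.le h4
    linarith
  · -- reflect in the wall through `w i`, `w j`
    obtain ⟨m, hm1, hm2⟩ : ∃ m, (i = m ∨ i = m + 2) ∧ (j = m ∨ j = m + 2) := by
      obtain ⟨a1, a2, a3⟩ := ij
      by_cases h : i < j
      · exact ⟨i, Or.inl rfl, Or.inr (by omega)⟩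
      · exact ⟨j, Or.inr (by omega), Or.inl rfl⟩
    have fi : D.sys.s m (D.w i) = D.w i := by
      rcases hm1 with rfl | rfl
      · exact D.s_fix_0 _
      · exact D.s_fix_2 _
    have fj : D.sys.s m (D.w j) = D.w j := by
      rcases hm2 with rfl | rfl
      · exact D.s_fix_0 _
      · exact D.s_fix_2 _
    have hgs : g * D.sys.s m ∈ D.G := D.G.mul_mem hg (D.sys.s_mem m)
    refine ⟨(g * D.sys.s m) (D.w l), ⟨g * D.sys.s m, j, i, l, hgs, Near.symm ij, il, jl, ?_, ?_, rfl, ?_⟩,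
      _, hgs, _, rfl⟩
    · rw [LinearEquiv.mul_apply, fj]
    · rw [LinearEquiv.mul_apply, fi]
    · have e1 : det3 (g (D.w j)) (g (D.w i)) ((g * D.sys.s m) (D.w l)) =
          det3 (g (D.sys.s m (D.w j))) (g (D.sys.s m (D.w i))) (g (D.sys.s m (D.w l))) := by
        rw [fi, fj]; rfl
      rw [e1]
      have e2 : ∀ x y z, det3 (D.sys.s m x) (D.sys.s m y) (D.sys.s m z) = - det3 x y z := by
        intro x y z; exact det3_refl (D.strip.EE_unit m) x y z
      rcases D.sys.W_det hg with h | h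
      · rw [h, e2, det3_swap (D.w i) (D.w j), neg_neg, ← h]; exact pos
      · rw [h, e2, neg_neg, det3_swap (D.w i) (D.w j), ← h]; exact pos

end Datum

end

end Pool.Agent.H33CP
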