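import Pool.Agent.H33CP.Layout

/-! Walls and diagonals of the strip. -/

namespace Pool.Agent.H33CP

open Real

noncomputable section

/-- recursion -/
def Rec (u : ℕ → ℝ) : Prop :=
  ∀ n, ∃ α β γ, Coef α β γ ∧ u (n + 3) = -α * u n + β * u (n + 1) + γ * u (n + 2)

theorem Rec.shift {u : ℕ → ℝ} (h : Rec u) (m : ℕ) : Rec (fun n => u (n + m)) := by
  intro n
  obtain ⟨α, β, γ, hc, h⟩ := h (n + m)
  refine ⟨α, β, γ, hc, ?_⟩
  simp only
  rw [show n + 3 + m = n + m + 3 by ring, show n + 1 + m = n + m + 1 by ring,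
    show n + 2 + m = n + m + 2 by ring]
  exact h

theorem Rec.grow {u : ℕ → ℝ} (h : Rec u) (h0 : 0 ≤ u 0) (h1 : 41/40 * u 0 ≤ 17/10 * u 1)
    (h2 : 41/40 * u 1 ≤ 17/10 * u 2) (n : ℕ) :
    0 ≤ u n ∧ 41/40 * u n ≤ 17/10 * u (n + 1) ∧ 41/40 * u (n + 1) ≤ 17/10 * u (n + 2) ∧
      17/10 * u (n + 2) ≤ u (n + 3) := by
  have step : ∀ n, 0 ≤ u n → 41/40 * u n ≤ 17/10 * u (n + 1) →
      41/40 * u (n + 1) ≤ 17/10 * u (n + 2) → 17/10 * u (n + 2) ≤ u (n + 3) := by
    intro n g0 g1 g2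
    obtain ⟨α, β, γ, hc, h⟩ := h n
    rw [h]
    have g3 : 0 ≤ u (n + 1) := by linarith
    have g4 : 0 ≤ u (n + 2) := by linarith
    have g5 : α * u n ≤ 41/40 * u n := mul_le_mul_of_nonneg_right hc.a2 g0
    have g6 : 17/10 * u (n + 1) ≤ β * u (n + 1) := mul_le_mul_of_nonneg_right hc.b1 g3
    have g7 : 17/10 * u (n + 2) ≤ γ * u (n + 2) := mul_le_mul_of_nonneg_right hc.g1 g4
    linarith
  induction n with
  | zero => exact ⟨h0, h1, h2, step 0 h0 h1 h2⟩
  | succ n ih =>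
    obtain ⟨i0, i1, i2, i3⟩ := ih
    have a0 : 0 ≤ u (n + 1) := by linarith
    have a1 : 0 ≤ u (n + 2) := by linarith
    have a2 : 41/40 * u (n + 1 + 1) ≤ 17/10 * u (n + 1 + 2) := by
      rw [show n + 1 + 1 = n + 2 by ring, show n + 1 + 2 = n + 3 by ring]; linarith
    exact ⟨a0, i2, a2, step (n + 1) a0 i2 a2⟩

theorem Rec.growD {u : ℕ → ℝ} (h : Rec u) {H : ℝ} (hH : 0 < H) (h0 : u 0 = 0) (h1 : u 1 = 0)
    (h2 : u 2 = H) (n : ℕ) : H * (17/10) ^ n ≤ u (n + 2) := by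
  induction n with
  | zero => rw [pow_zero, mul_one, Nat.zero_add, h2]
  | succ n ih =>
    have := (h.grow (by rw [h0]) (by rw [h0, h1]; simp) (by rw [h1, h2]; linarith) n).2.2.2
    rw [pow_succ]
    rw [show n + 1 + 2 = n + 3 by ring]
    linarith

theorem Rec.growE {u : ℕ → ℝ} (h : Rec u) {H : ℝ} (hH : 0 < H) (h0 : u 0 = 0) (h1 : u 1 = H)
    (h2 : u 2 = 0) : 17/10 * H ≤ u 3 ∧ 17/10 * H ≤ u 4 ∧ ∀ n, 17/10 * u (n + 4) ≤ u (n + 5) := by
  obtain ⟨α0, β0, γ0, c0, e3⟩ := h 0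
  obtain ⟨α1, β1, γ1, c1, e4⟩ := h 1
  obtain ⟨α2, β2, γ2, c2, e5⟩ := h 2
  rw [show 0 + 3 = 3 by rfl, show 0 + 1 = 1 by rfl, show 0 + 2 = 2 by rfl, h0, h1, h2] at e3
  rw [show 1 + 3 = 4 by rfl, show 1 + 1 = 2 by rfl, show 1 + 2 = 3 by rfl, h1, h2] at e4
  rw [show 2 + 3 = 5 by rfl, show 2 + 1 = 3 by rfl, show 2 + 2 = 4 by rfl, h2] at e5
  have f3 : u 3 = β0 * H := by rw [e3]; ring
  have g3 : 17/10 * H ≤ u 3 := by
    rw [f3]; exact mul_le_mul_of_nonneg_right c0.b1 hH.le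
  have g3' : u 3 ≤ 22/10 * H := by
    rw [f3]; exact mul_le_mul_of_nonneg_right c0.b3 hH.le
  have g4' : 17/10 * u 3 ≤ γ1 * u 3 := mul_le_mul_of_nonneg_right c1.g1 (by linarith)
  have g4'' : α1 * H ≤ 41/40 * H := mul_le_mul_of_nonneg_right c1.a2 hH.le
  have g4 : 17/10 * H ≤ u 4 := by rw [e4]; linarith
  have g5' : 17/10 * u 3 ≤ β2 * u 3 := mul_le_mul_of_nonneg_right c2.b1 (by linarith)
  have g5'' : 17/10 * u 4 ≤ γ2 * u 4 := mul_le_mul_of_nonneg_right c2.g1 (by linarith)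
  have g5 : 17/10 * u 4 ≤ u 5 := by rw [e5]; linarith
  refine ⟨g3, g4, fun n => ?_⟩
  cases n with
  | zero => exact g5
  | succ n =>
    have hs := h.shift 3
    have := (hs.grow (by show 0 ≤ u (0 + 3); rw [show 0 + 3 = 3 by rfl]; linarith) (by
        show 41/40 * u (0 + 3) ≤ 17/10 * u (1 + 3)
        rw [show 0 + 3 = 3 by rfl, show 1 + 3 = 4 by rfl, e4]
        -- 17/10*(γ1 β0 H - α1 H) vs 41/40 β0 H
        linarith) (by
        show 41/40 * u (1 + 3) ≤ 17/10 * u (2 + 3)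
        rw [show 1 + 3 = 4 by rfl, show 2 + 3 = 5 by rfl]
        linarith) n).2.2.2
    exact this

/-- walls -/
def EE (t : ℤ → ℝ) (w : ℤ → E3) (k : ℤ) : E3 :=
  (sg k / (t k + t (k + 2))) • cross (w k) (w (k + 2))

/-- diagonals -/
def DD (t : ℤ → ℝ) (w : ℤ → E3) (k : ℤ) : E3 :=
  (- sg k / (t k + t (k + 1))) • cross (w k) (w (k + 1))

theorem cross_norm {x y : E3} {a b : ℝ} (hx : B x x = a ^ 2 - 1) (hy : B y y = b ^ 2 - 1)
    (hxy : B x y = 1 + a * b) : B (cross x y) (cross x y) = - (a + b) ^ 2 := by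
  rw [cross_cross, B_comm y x, hx, hy, hxy]; ring

theorem det3_tri {p a b : ℝ} {x y z : E3} (h : Tri3 p a b x y z) :
    det3 x y z ^ 2 = 4 * (1 + p * a + p * b + a * b) := by
  rw [det3_sq, h.xx, h.yy, h.zz, h.xy, h.xz, h.yz]; ring

namespace Strip

variable {t : ℤ → ℝ} {w : ℤ → E3} (S : Strip t w)

include S

theorem cone (k : ℤ) : w k ∈ Cone := (S.tri k).cx
theorem self (k : ℤ) : B (w k) (w k) = t k ^ 2 - 1 := (S.tri k).xx
theorem one (k : ℤ) : B (w k) (w (k + 1)) = 1 + t k * t (k + 1) := (S.tri k).xy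
theorem two (k : ℤ) : B (w k) (w (k + 2)) = 1 + t k * t (k + 2) := (S.tri k).xz

theorem Delta_bd (k : ℤ) : 4 ≤ sg k * det3 (w k) (w (k + 1)) (w (k + 2)) ∧
    sg k * det3 (w k) (w (k + 1)) (w (k + 2)) ≤ 431/100 := by
  have h1 := det3_tri (S.tri k)
  have h2 := S.sgn k
  have h3 : (sg k * det3 (w k) (w (k + 1)) (w (k + 2))) ^ 2 =
      4 * (1 + t k * t (k + 1) + t k * t (k + 2) + t (k + 1) * t (k + 2)) := by
    rw [mul_pow, h1, pow_two, sg_sq, one_mul]
  set d := sg k * det3 (w k) (w (k + 1)) (w (k + 2))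
  obtain ⟨a1, a2⟩ := S.ht k
  obtain ⟨b1, b2⟩ := S.ht (k + 1)
  obtain ⟨c1, c2⟩ := S.ht (k + 2)
  have l : ∀ x y : ℝ, 1 < x → x ≤ 11/10 → 1 < y → y ≤ 11/10 → 1 ≤ x * y ∧ x * y ≤ 121/100 := by
    intro x y hx hx' hy hy'
    constructor <;> nlinarith
  have l1 := l _ _ a1 a2 b1 b2
  have l2 := l _ _ a1 a2 c1 c2
  have l3 := l _ _ b1 b2 c1 c2
  constructor
  · by_contra hc
    push Not at hc
    have : d ^ 2 < 4 ^ 2 := pow_lt_pow_left₀ hc h2.le (by norm_num)
    linarith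
  · by_contra hc
    push Not at hc
    have : (431/100) ^ 2 < d ^ 2 := pow_lt_pow_left₀ hc (by norm_num) (by norm_num)
    norm_num at this
    linarith

theorem EE_unit (k : ℤ) : B (EE t w k) (EE t w k) = -1 := by
  unfold EE
  have h1 := S.ht k
  have h2 := S.ht (k + 2)
  have h3 : t k + t (k + 2) ≠ 0 := by linarith [h1.1, h2.1]
  rw [B_smul_left, B_smul_right, cross_norm (S.self k) (S.self (k + 2)) (S.two k)]
  have := sg_sq k
  field_simp
  linear_combination -this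

theorem DD_unit (k : ℤ) : B (DD t w k) (DD t w k) = -1 := by
  unfold DD
  have h1 := S.ht k
  have h2 := S.ht (k + 1)
  have h3 : t k + t (k + 1) ≠ 0 := by linarith [h1.1, h2.1]
  rw [B_smul_left, B_smul_right, cross_norm (S.self k) (S.self (k + 1)) (S.one k)]
  have := sg_sq k
  field_simp
  linear_combination -this

omit S in
theorem B_EE (x : E3) (k : ℤ) : B x (EE t w k) = sg k / (t k + t (k + 2)) *
    det3 (w k) (w (k + 2)) x := by
  unfold EE; rw [B_smul_right, B_cross]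

omit S in
theorem B_DD (x : E3) (k : ℤ) : B x (DD t w k) = - sg k / (t k + t (k + 1)) *
    det3 (w k) (w (k + 1)) x := by
  unfold DD; rw [B_smul_right, B_cross]

omit S in
theorem EE_0 (k : ℤ) : B (w k) (EE t w k) = 0 := by
  rw [B_EE]; simp only [det3]; ring

omit S in
theorem EE_2 (k : ℤ) : B (w (k + 2)) (EE t w k) = 0 := by
  rw [B_EE]; simp only [det3]; ring

omit S in
theorem DD_0 (k : ℤ) : B (w k) (DD t w k) = 0 := by
  rw [B_DD]; simp only [det3]; ring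

omit S in
theorem DD_1 (k : ℤ) : B (w (k + 1)) (DD t w k) = 0 := by
  rw [B_DD]; simp only [det3]; ring

theorem EE_1 (k : ℤ) : 9/5 ≤ - B (w (k + 1)) (EE t w k) ∧ - B (w (k + 1)) (EE t w k) ≤ 22/10 := by
  obtain ⟨h1, h2⟩ := S.Delta_bd k
  have e : - B (w (k + 1)) (EE t w k) = sg k * det3 (w k) (w (k + 1)) (w (k + 2)) / (t k + t (k + 2)) := by
    rw [B_EE]; simp only [det3]; ring
  have h3 := S.ht k
  have h4 := S.ht (k + 2)
  have h5 : 0 < t k + t (k + 2) := by linarith [h3.1, h4.1]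
  rw [e]
  constructor
  · rw [le_div_iff₀ h5]; linarith
  · rw [div_le_iff₀ h5]; linarith

theorem DD_2 (k : ℤ) : 9/5 ≤ - B (w (k + 2)) (DD t w k) := by
  obtain ⟨h1, h2⟩ := S.Delta_bd k
  have e : - B (w (k + 2)) (DD t w k) = sg k * det3 (w k) (w (k + 1)) (w (k + 2)) / (t k + t (k + 1)) := by
    rw [B_DD]; simp only [det3]; ring
  have h3 := S.ht k
  have h4 := S.ht (k + 1)
  have h5 : 0 < t k + t (k + 1) := by linarith [h3.1, h4.1]
  rw [e, le_div_iff₀ h5]; linarith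

theorem DD_m (k : ℤ) : 9/5 ≤ B (w (k - 1)) (DD t w k) := by
  obtain ⟨h1, h2⟩ := S.Delta_bd (k - 1)
  have e : B (w (k - 1)) (DD t w k) = sg (k - 1) * det3 (w (k - 1)) (w (k - 1 + 1)) (w (k - 1 + 2))
      / (t k + t (k + 1)) := by
    rw [B_DD, show k - 1 + 1 = k by ring, show k - 1 + 2 = k + 1 by ring]
    have := sg_succ (k - 1)
    rw [show k - 1 + 1 = k by ring] at this
    rw [this]; simp only [det3]; ring
  have h3 := S.ht k
  have h4 := S.ht (k + 1)
  have h5 : 0 < t k + t (k + 1) := by linarith [h3.1, h4.1]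
  rw [e, le_div_iff₀ h5]; linarith

theorem recF (i : ℤ) (c : ℝ) (e : E3) : Rec (fun n => c * B (w (i + n)) e) := by
  intro n
  obtain ⟨α, β, γ, hc, h⟩ := S.rel (i + n)
  refine ⟨α, β, γ, hc, ?_⟩
  simp only
  push_cast
  rw [show i + ((n:ℤ) + 3) = i + n + 3 by ring, show i + ((n:ℤ) + 1) = i + n + 1 by ring,
    show i + ((n:ℤ) + 2) = i + n + 2 by ring, h]
  simp only [B_add_left, B_smul_left]
  ring

theorem recB (i : ℤ) (c : ℝ) (e : E3) : Rec (fun n => c * B (w (i - n)) e) := by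
  intro n
  obtain ⟨α, β, γ, hc, h⟩ := S.rel (i - n - 3)
  refine ⟨_, _, _, hc.rev, ?_⟩
  have hα : α ≠ 0 := by linarith [hc.a1]
  simp only
  push_cast
  rw [show i - ((n:ℤ) + 3) = i - n - 3 by ring, show i - ((n:ℤ) + 1) = i - n - 3 + 2 by ring,
    show i - ((n:ℤ) + 2) = i - n - 3 + 1 by ring]
  have h2 : B (w (i - n)) e = -α * B (w (i - n - 3)) e + β * B (w (i - n - 3 + 1)) e
      + γ * B (w (i - n - 3 + 2)) e := by
    have h3 := congrArg (fun v => B v e) h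
    simp only [B_add_left, B_smul_left] at h3
    rw [show i - (n:ℤ) - 3 + 3 = i - n by ring] at h3
    exact h3
  rw [h2]
  field_simp
  ring

/-- growth of the wall functional forward -/
theorem EE_fwd (i : ℤ) : 17/10 * (- B (w (i + 1)) (EE t w i)) ≤ - B (w (i + 3)) (EE t w i) ∧
    17/10 * (- B (w (i + 1)) (EE t w i)) ≤ - B (w (i + 4)) (EE t w i) ∧
    ∀ n : ℕ, 17/10 * (- B (w (i + (n + 4 : ℕ))) (EE t w i)) ≤ - B (w (i + (n + 5 : ℕ))) (EE t w i) := by
  have h := S.recF i (-1) (EE t w i)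
  have h1 := S.EE_1 i
  have := h.growE (H := - B (w (i + 1)) (EE t w i)) (by linarith)
    (by simp [EE_0]) (by simp) (by
      have := EE_2 (t := t) (w := w) i
      simp [this])
  obtain ⟨g1, g2, g3⟩ := this
  refine ⟨by simpa using g1, by simpa using g2, fun n => by simpa using g3 n⟩

theorem EE_bwd (i : ℤ) : 17/10 * (- B (w (i + 1)) (EE t w i)) ≤ - B (w (i - 1)) (EE t w i) ∧
    17/10 * (- B (w (i + 1)) (EE t w i)) ≤ - B (w (i - 2)) (EE t w i) ∧
    ∀ n : ℕ, 17/10 * (- B (w (i + 2 - (n + 4 : ℕ))) (EE t w i)) ≤ - B (w (i + 2 - (n + 5 : ℕ))) (EE t w i) := by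
  have h := S.recB (i + 2) (-1) (EE t w i)
  have h1 := S.EE_1 i
  have := h.growE (H := - B (w (i + 1)) (EE t w i)) (by linarith)
    (by simp [EE_2]) (by
      simp only [Nat.cast_one, neg_mul, one_mul]
      rw [show i + 2 - 1 = i + 1 by ring]) (by
      simp only [Nat.cast_ofNat, neg_mul, one_mul]
      rw [show i + 2 - 2 = i by ring, EE_0]; simp)
  obtain ⟨g1, g2, g3⟩ := this
  refine ⟨?_, ?_, fun n => by simpa using g3 n⟩
  · simp only [Nat.cast_ofNat, neg_mul, one_mul] at g1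
    rw [show i + 2 - 3 = i - 1 by ring] at g1
    exact g1
  · simp only [Nat.cast_ofNat, neg_mul, one_mul] at g2
    rw [show i + 2 - 4 = i - 2 by ring] at g2
    exact g2

theorem EE_fwd_all (i : ℤ) (n : ℕ) :
    17/10 * (- B (w (i + 1)) (EE t w i)) ≤ - B (w (i + (n + 3 : ℕ))) (EE t w i) := by
  obtain ⟨g1, g2, g3⟩ := S.EE_fwd i
  have h1 := S.EE_1 i
  cases n with
  | zero => simpa using g1
  | succ n =>
    induction n with
    | zero => simpa using g2
    | succ n ih =>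
      have := g3 n
      rw [show n + 1 + 3 = n + 4 by ring] at ih
      rw [show n + 1 + 1 + 3 = n + 5 by ring]
      linarith

theorem EE_bwd_all (i : ℤ) (n : ℕ) :
    17/10 * (- B (w (i + 1)) (EE t w i)) ≤ - B (w (i + 2 - (n + 3 : ℕ))) (EE t w i) := by
  obtain ⟨g1, g2, g3⟩ := S.EE_bwd i
  have h1 := S.EE_1 i
  cases n with
  | zero =>
    rw [show i + 2 - ((0 + 3 : ℕ) : ℤ) = i - 1 by push_cast; ring]; exact g1
  | succ n =>
    induction n with
    | zero =>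
      rw [show i + 2 - ((0 + 1 + 3 : ℕ) : ℤ) = i - 2 by push_cast; ring]; exact g2
    | succ n ih =>
      have := g3 n
      rw [show n + 1 + 3 = n + 4 by ring] at ih
      rw [show n + 1 + 1 + 3 = n + 5 by ring]
      linarith

theorem EE_far (i j : ℤ) (h1 : j ≠ i) (h2 : j ≠ i + 2) : B (w j) (EE t w i) ≤ -(9/5) := by
  have h := S.EE_1 i
  rcases lt_trichotomy j (i + 1) with hj | hj | hj
  · have hj' : j ≤ i - 1 := by omega
    obtain ⟨n, hn⟩ := Int.eq_ofNat_of_zero_le (show 0 ≤ i - 1 - j by omega)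
    have := S.EE_bwd_all i n
    rw [show i + 2 - ((n + 3 : ℕ) : ℤ) = j by push_cast; omega] at this
    linarith
  · rw [hj]; linarith
  · obtain ⟨n, hn⟩ := Int.eq_ofNat_of_zero_le (show 0 ≤ j - (i + 3) by omega)
    have := S.EE_fwd_all i n
    rw [show i + ((n + 3 : ℕ) : ℤ) = j by push_cast; omega] at this
    linarith

theorem EE_le (i j : ℤ) : B (w j) (EE t w i) ≤ 0 := by
  by_cases h1 : j = i
  · subst h1; rw [EE_0]
  · by_cases h2 : j = i + 2
    · subst h2; rw [EE_2]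
    · linarith [S.EE_far i j h1 h2]

theorem EE_zero_iff (i j : ℤ) : B (w j) (EE t w i) = 0 ↔ (j = i ∨ j = i + 2) := by
  constructor
  · intro h
    by_contra hc
    push Not at hc
    linarith [S.EE_far i j hc.1 hc.2]
  · rintro (rfl | rfl)
    · exact EE_0 _
    · exact EE_2 _

theorem DD_fwd (k : ℤ) (n : ℕ) : 9/5 * (17/10) ^ n ≤ - B (w (k + (n + 2 : ℕ))) (DD t w k) := by
  have h := S.recF k (-1) (DD t w k)
  have h1 := S.DD_2 k
  have := h.growD (H := - B (w (k + 2)) (DD t w k)) (by linarith)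
    (by simp [DD_0]) (by simp [DD_1]) (by simp) n
  have h3 : (9/5 : ℝ) * (17/10) ^ n ≤ - B (w (k + 2)) (DD t w k) * (17/10) ^ n :=
    mul_le_mul_of_nonneg_right h1 (by positivity)
  simp only [neg_mul, one_mul] at this h3
  linarith

theorem DD_bwd (k : ℤ) (n : ℕ) : 9/5 * (17/10) ^ n ≤ B (w (k + 1 - (n + 2 : ℕ))) (DD t w k) := by
  have h := S.recB (k + 1) 1 (DD t w k)
  have h1 := S.DD_m k
  have := h.growD (H := B (w (k - 1)) (DD t w k)) (by linarith)
    (by simp [DD_1]) (by simp [DD_0]) (by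
      simp only [Nat.cast_ofNat, one_mul]
      rw [show k + 1 - 2 = k - 1 by ring]) n
  have h3 : (9/5 : ℝ) * (17/10) ^ n ≤ B (w (k - 1)) (DD t w k) * (17/10) ^ n :=
    mul_le_mul_of_nonneg_right h1 (by positivity)
  simp only [one_mul] at this
  linarith

theorem DD_far_fwd (k j : ℤ) (h : k + 2 ≤ j) : B (w j) (DD t w k) ≤ -(9/5) := by
  obtain ⟨n, hn⟩ := Int.eq_ofNat_of_zero_le (show 0 ≤ j - (k + 2) by omega)
  have := S.DD_fwd k n
  rw [show k + ((n + 2 : ℕ) : ℤ) = j by push_cast; omega] at this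
  have h1 : (1:ℝ) ≤ (17/10) ^ n := one_le_pow₀ (by norm_num)
  linarith

theorem DD_far_bwd (k j : ℤ) (h : j ≤ k - 1) : 9/5 ≤ B (w j) (DD t w k) := by
  obtain ⟨n, hn⟩ := Int.eq_ofNat_of_zero_le (show 0 ≤ k - 1 - j by omega)
  have := S.DD_bwd k n
  rw [show k + 1 - ((n + 2 : ℕ) : ℤ) = j by push_cast; omega] at this
  have h1 : (1:ℝ) ≤ (17/10) ^ n := one_le_pow₀ (by norm_num)
  linarith

/-- formula for the wall vector -/
theorem EE_formula (j : ℤ) : ∃ ξ η h : ℝ, 19/22 ≤ ξ ∧ 19/22 ≤ η ∧ 0 < h ∧ h ≤ 22/10 ∧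
    h • EE t w j = w (j + 1) - ξ • w j - η • w (j + 2) := by
  have h1 := S.EE_1 j
  obtain ⟨a1, a2⟩ := S.ht j
  obtain ⟨b1, b2⟩ := S.ht (j + 1)
  obtain ⟨c1, c2⟩ := S.ht (j + 2)
  set p := t j
  set a := t (j + 1)
  set b := t (j + 2)
  set h := - B (w (j + 1)) (EE t w j) with hh
  have hpb : p + b ≠ 0 := by linarith
  have hN : 0 < (p + b) ^ 2 := by positivity
  set ξ := (a * (p + b) + 2 + 2 * (p * b) - b * (p + b)) / (p + b) ^ 2 with hξ
  set η := (a * (p + b) + 2 + 2 * (p * b) - p * (p + b)) / (p + b) ^ 2 with hη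
  refine ⟨ξ, η, h, ?_, ?_, by linarith, h1.2, ?_⟩
  · obtain ⟨l, _⟩ := coef_key a1 a2 c1 c2 b1 b2 c1 c2
    rw [hξ, le_div_iff₀ hN]
    nlinarith
  · obtain ⟨l, _⟩ := coef_key a1 a2 c1 c2 b1 b2 a1 a2
    rw [hη, le_div_iff₀ hN]
    nlinarith
  · have hd : det3 (w j) (w (j + 2)) (EE t w j) ≠ 0 := by
      have e1 : B (EE t w j) (EE t w j) = sg j / (p + b) * det3 (w j) (w (j + 2)) (EE t w j) :=
        B_EE _ _
      intro h0
      rw [h0, mul_zero, S.EE_unit] at e1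
      norm_num at e1
    have key : h • EE t w j - (w (j + 1) - ξ • w j - η • w (j + 2)) = 0 := by
      have T := S.tri j
      apply eq_zero_of_orth hd
      · simp only [B_sub_left, B_smul_left]
        rw [B_comm (EE t w j), EE_0, B_comm (w (j + 1)), B_comm (w (j + 2)), T.xy, T.xx, T.xz, hξ, hη]
        field_simp
        ring
      · simp only [B_sub_left, B_smul_left]
        rw [B_comm (EE t w j), EE_2, T.yz, T.zz, T.xz, hξ, hη]
        field_simp
        ring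
      · simp only [B_sub_left, B_smul_left]
        rw [S.EE_unit, EE_0, EE_2, hh]
        ring
    exact sub_eq_zero.1 key

theorem EE_pair_aux (i j : ℤ) (hij : i < j) (h2 : j ≠ i + 2) : 1 ≤ B (EE t w i) (EE t w j) := by
  obtain ⟨ξ, η, h, hξ, hη, h0, hle, hf⟩ := S.EE_formula j
  have hi := S.EE_1 i
  have e1 : h * B (EE t w i) (EE t w j) = - (- B (w (j + 1)) (EE t w i))
      + ξ * (- B (w j) (EE t w i)) + η * (- B (w (j + 2)) (EE t w i)) := by
    have := congrArg (B (EE t w i)) hf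
    rw [B_smul_right] at this
    rw [this]
    simp only [B_sub_right, B_smul_right]
    rw [B_comm (EE t w i), B_comm (EE t w i), B_comm (EE t w i)]
    ring
  have hfar := S.EE_fwd_all i
  obtain ⟨g1, g2, g3⟩ := S.EE_fwd i
  have hle0 := S.EE_le i
  by_cases hj : j = i + 1
  · subst hj
    rw [show i + 1 + 1 = i + 2 by ring, EE_2, show i + 1 + 2 = i + 3 by ring] at e1
    by_contra hc
    push Not at hc
    have h3 : h * B (EE t w i) (EE t w (i + 1)) < h * 1 := mul_lt_mul_of_pos_left hc h0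
    rw [e1] at h3
    have h4 : 19/22 * (- B (w (i + 1)) (EE t w i)) ≤ ξ * (- B (w (i + 1)) (EE t w i)) :=
      mul_le_mul_of_nonneg_right hξ (by linarith)
    have h5 : 19/22 * (- B (w (i + 3)) (EE t w i)) ≤ η * (- B (w (i + 3)) (EE t w i)) :=
      mul_le_mul_of_nonneg_right hη (by linarith)
    linarith
  · obtain ⟨n, hn⟩ := Int.eq_ofNat_of_zero_le (show 0 ≤ j - (i + 3) by omega)
    have a3 := hfar n
    have a4 := hfar (n + 1)
    have a5 := g3 n
    rw [show i + ((n + 3 : ℕ) : ℤ) = j by push_cast; omega] at a3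
    rw [show i + ((n + 1 + 3 : ℕ) : ℤ) = j + 1 by push_cast; omega] at a4
    rw [show i + ((n + 4 : ℕ) : ℤ) = j + 1 by push_cast; omega,
      show i + ((n + 5 : ℕ) : ℤ) = j + 2 by push_cast; omega] at a5
    by_contra hc
    push Not at hc
    have h3 : h * B (EE t w i) (EE t w j) < h * 1 := mul_lt_mul_of_pos_left hc h0
    rw [e1] at h3
    have h4 : 19/22 * (- B (w j) (EE t w i)) ≤ ξ * (- B (w j) (EE t w i)) :=
      mul_le_mul_of_nonneg_right hξ (by linarith)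
    have h5 : 19/22 * (- B (w (j + 2)) (EE t w i)) ≤ η * (- B (w (j + 2)) (EE t w i)) :=
      mul_le_mul_of_nonneg_right hη (by linarith)
    linarith

end Strip

end

end Pool.Agent.H33CP
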